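import Pool.Agent.K3h46.AS.Stm

/-!
# Project AS: derivations of Laurent series (bricks DER and KAP)
-/

set_option autoImplicit false

namespace Pool.Agent.K3h46.AS.DerKap

/-- An additive map with the rule of Leibniz is a derivation, for all choices of the (unique)
instances over `ℤ`. -/
theorem exists_der (A : Type) [CommRing A] (i1 : Algebra ℤ A) (i2 : Module ℤ A) (D : A →+ A)
    (h : ∀ a b, D (a * b) = a * D b + b * D a) :
    ∃ δ : @Derivation ℤ A A _ _ _ i1 _ i2, ∀ a, δ a = D a := by
  have h1 : D 1 = 0 := by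
    have := h 1 1
    rw [one_mul, one_mul] at this
    exact left_eq_add.1 this
  refine ⟨{ toFun := D, map_add' := D.map_add, map_smul' := fun n a => ?_,
            map_one_eq_zero' := h1, leibniz' := fun a b => ?_ }, fun a => rfl⟩
  · have h2 := @Int.cast_smul_eq_zsmul ℤ A _ _ (@Algebra.toModule ℤ A _ _ i1) n a
    have h3 := @Int.cast_smul_eq_zsmul ℤ A _ _ i2 n (D a)
    rw [Int.cast_id] at h2 h3
    exact (congrArg D h2).trans ((map_zsmul D n a).trans h3.symm)
  · exact h a b

section

variable {κ : Type} [Field κ]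

/-- The Laurent series with the coefficients `φ n (z_n)`. -/
def tw (φ : ℤ → κ →+ κ) (z : LaurentSeries κ) : LaurentSeries κ where
  coeff n := φ n (z.coeff n)
  isPWO_support' := z.isPWO_support.mono fun n hn => by
    rw [Function.mem_support] at hn
    rw [HahnSeries.mem_support]
    intro h
    exact hn (by rw [h, map_zero])

theorem coeff_tw (φ : ℤ → κ →+ κ) (z : LaurentSeries κ) (n : ℤ) :
    (tw φ z).coeff n = φ n (z.coeff n) := rfl

theorem support_tw (φ : ℤ → κ →+ κ) (z : LaurentSeries κ) :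
    (tw φ z).support ⊆ z.support := by
  intro n hn
  rw [HahnSeries.mem_support, coeff_tw] at hn
  rw [HahnSeries.mem_support]
  intro h
  exact hn (by rw [h, map_zero])

/-- The additive map. -/
def twHom (φ : ℤ → κ →+ κ) : LaurentSeries κ →+ LaurentSeries κ where
  toFun := tw φ
  map_zero' := by
    ext n
    rw [coeff_tw, HahnSeries.coeff_zero, map_zero]
  map_add' a b := by
    ext n
    rw [HahnSeries.coeff_add, coeff_tw, coeff_tw, coeff_tw, HahnSeries.coeff_add, map_add]

theorem tw_mul (φ : ℤ → κ →+ κ)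
    (hφ : ∀ (i j : ℤ) (a b : κ), φ (i + j) (a * b) = a * φ j b + b * φ i a)
    (z w : LaurentSeries κ) : tw φ (z * w) = z * tw φ w + w * tw φ z := by
  ext n
  rw [mul_comm w (tw φ z), HahnSeries.coeff_add, coeff_tw, HahnSeries.coeff_mul,
    HahnSeries.coeff_mul_left' z.isPWO_support (support_tw φ z),
    HahnSeries.coeff_mul_right' w.isPWO_support (support_tw φ w), map_sum,
    ← Finset.sum_add_distrib]
  refine Finset.sum_congr rfl fun ij hij => ?_
  have h := (Finset.mem_antidiagonal.1 hij).2.2
  rw [← h, hφ, coeff_tw, coeff_tw]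
  ring

end

theorem t_DER : S_DER := by
  intro κ _ δ
  obtain ⟨θ, hθ⟩ : ∃ θ : Derivation ℤ (LaurentSeries κ) (LaurentSeries κ),
      ∀ a, θ a = twHom (fun n => AddMonoidHom.mulLeft (n : κ)) a :=
    exists_der _ _ _ _ (tw_mul _ fun i j a b => by
      simp only [AddMonoidHom.coe_mulLeft]
      push_cast
      ring)
  obtain ⟨Δ, hΔ⟩ : ∃ Δ : Derivation ℤ (LaurentSeries κ) (LaurentSeries κ),
      ∀ a, Δ a = twHom (fun _ => (δ : κ →ₗ[ℤ] κ).toAddMonoidHom) a :=
    exists_der _ _ _ _ (tw_mul _ fun i j a b => by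
      change δ (a * b) = a * δ b + b * δ a
      rw [Derivation.leibniz, smul_eq_mul, smul_eq_mul])
  refine ⟨θ, Δ, fun z n => ?_, fun z n => ?_⟩
  · rw [hθ]
    rfl
  · rw [hΔ]
    rfl

/-- The additive map `d/dϖ`. -/
noncomputable def ddx (F : Type) [Field F] : LaurentSeries F →+ LaurentSeries F where
  toFun z := HahnSeries.single (-1 : ℤ) (1 : F) *
    twHom (fun n => AddMonoidHom.mulLeft (n : F)) z
  map_zero' := by rw [map_zero, mul_zero]
  map_add' a b := by rw [map_add, mul_add]

theorem ddx_mul (F : Type) [Field F] (a b : LaurentSeries F) :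
    ddx F (a * b) = a * ddx F b + b * ddx F a := by
  have h : twHom (fun n => AddMonoidHom.mulLeft (n : F)) (a * b) =
      a * twHom (fun n => AddMonoidHom.mulLeft (n : F)) b +
        b * twHom (fun n => AddMonoidHom.mulLeft (n : F)) a :=
    tw_mul _ (fun i j a b => by
      simp only [AddMonoidHom.coe_mulLeft]
      push_cast
      ring) a b
  change HahnSeries.single (-1 : ℤ) (1 : F) * _ = a * (HahnSeries.single (-1 : ℤ) (1 : F) * _) +
    b * (HahnSeries.single (-1 : ℤ) (1 : F) * _)
  rw [h]
  ring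

theorem coeff_ddx (F : Type) [Field F] (z : LaurentSeries F) (n : ℤ) :
    (ddx F z).coeff n = ((n + 1 : ℤ) : F) * z.coeff (n + 1) := by
  change (HahnSeries.single (-1 : ℤ) (1 : F) *
    twHom (fun n => AddMonoidHom.mulLeft (n : F)) z).coeff n = _
  rw [HahnSeries.coeff_single_mul, one_mul, sub_neg_eq_add]
  rfl

theorem t_KAP : S_KAP := by
  intro p hp F _ _
  have hch : CharP (LaurentSeries F) p :=
    charP_of_injective_ringHom (HahnSeries.C_injective (Γ := ℤ) (R := F)) p
  obtain ⟨δ, hδ⟩ := exists_der (LaurentSeries F) (Ring.toIntAlgebra _) _ (ddx F) (ddx_mul F)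
  refine ⟨LaurentSeries F, inferInstance, hch,
    (HahnSeries.ofPowerSeries ℤ F).comp Polynomial.coeToPowerSeries.ringHom, δ, ?_, ?_, ?_⟩
  · exact HahnSeries.ofPowerSeries_injective.comp (Polynomial.coe_injective F)
  · intro g
    ext n
    rw [hδ, coeff_ddx]
    change ((n + 1 : ℤ) : F) * ((g : PowerSeries F) : LaurentSeries F).coeff (n + 1) =
      ((Polynomial.derivative g : PowerSeries F) : LaurentSeries F).coeff n
    rw [PowerSeries.coeff_coe, PowerSeries.coeff_coe]
    rcases lt_trichotomy n (-1) with h | h | h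
    · rw [if_pos (by omega), if_pos (by omega), mul_zero]
    · subst h
      simp
    · obtain ⟨m, rfl⟩ := Int.eq_ofNat_of_zero_le (show 0 ≤ n by omega)
      rw [if_neg (by omega), if_neg (by omega), Int.natAbs_natCast,
        show (((m : ℤ) + 1).natAbs) = m + 1 by omega, Polynomial.coeff_coe,
        Polynomial.coeff_coe, Polynomial.coeff_derivative]
      push_cast
      ring
  · have hit : ∀ (m : ℕ) (z : LaurentSeries F) (n : ℤ),
        ((⇑δ)^[m] z).coeff n =
          (∏ i ∈ Finset.range m, ((n + 1 + i : ℤ) : F)) * z.coeff (n + m) := by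
      intro m
      induction m with
      | zero => intro z n; simp
      | succ m ih =>
        intro z n
        rw [Function.iterate_succ_apply, ih, hδ, coeff_ddx, Finset.prod_range_succ]
        rw [show n + (m : ℤ) + 1 = n + ((m + 1 : ℕ) : ℤ) by push_cast; ring,
          show n + 1 + (m : ℤ) = n + ((m + 1 : ℕ) : ℤ) by push_cast; ring]
        ring
    intro z
    ext n
    rw [hit, HahnSeries.coeff_zero]
    have hpos : 0 < (p : ℤ) := by exact_mod_cast hp.out.pos
    have h1 : 0 ≤ (-(n + 1)) % (p : ℤ) := Int.emod_nonneg _ hpos.ne'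
    have h2 : (-(n + 1)) % (p : ℤ) < p := Int.emod_lt_of_pos _ hpos
    obtain ⟨i, hi⟩ := Int.eq_ofNat_of_zero_le h1
    have hip : i < p := by omega
    have h3 := Int.emod_add_mul_ediv (-(n + 1)) (p : ℤ)
    rw [hi] at h3
    have h4 : ((n + 1 + i : ℤ) : F) = 0 := by
      rw [CharP.intCast_eq_zero_iff F p]
      exact ⟨-((-(n + 1)) / (p : ℤ)), by linarith⟩
    rw [Finset.prod_eq_zero (Finset.mem_range.2 hip) h4, zero_mul]

end Pool.Agent.K3h46.AS.DerKap
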