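import Pool.Agent.K3h46.AS.Stm

/-!
# AS brick AN1: orders and leading coefficients at infinity
-/

set_option autoImplicit false

namespace Pool.Agent.K3h46.AS

namespace AN1

section LB

variable {κ : Type} [Field κ]

/-- `z = c ϖ ^ l + ` higher terms -/
structure LB (l : ℤ) (z : LaurentSeries κ) (c : κ) : Prop where
  low : ∀ i : ℤ, i < l → z.coeff i = 0
  top : z.coeff l = c

lemma LB.add {l : ℤ} {z z' : LaurentSeries κ} {c c' : κ} (h : LB l z c) (h' : LB l z' c') :
    LB l (z + z') (c + c') :=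
  ⟨fun i hi => by rw [HahnSeries.coeff_add, h.low i hi, h'.low i hi, add_zero],
    by rw [HahnSeries.coeff_add, h.top, h'.top]⟩

lemma LB.neg {l : ℤ} {z : LaurentSeries κ} {c : κ} (h : LB l z c) : LB l (-z) (-c) :=
  ⟨fun i hi => by rw [HahnSeries.coeff_neg, h.low i hi, neg_zero],
    by rw [HahnSeries.coeff_neg, h.top]⟩

lemma LB.sub {l : ℤ} {z z' : LaurentSeries κ} {c c' : κ} (h : LB l z c) (h' : LB l z' c') :
    LB l (z - z') (c - c') := by
  rw [sub_eq_add_neg, sub_eq_add_neg]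
  exact h.add h'.neg

lemma LB.zero (l : ℤ) : LB l (0 : LaurentSeries κ) 0 := ⟨fun _ _ => rfl, rfl⟩

lemma LB.weak {l l' : ℤ} {z : LaurentSeries κ} {c : κ} (h : LB l z c) (hl : l' < l) : LB l' z 0 :=
  ⟨fun i hi => h.low i (hi.trans hl), h.low _ hl⟩

lemma LB.mul {l l' : ℤ} {z z' : LaurentSeries κ} {c c' : κ} (h : LB l z c) (h' : LB l' z' c') :
    LB (l + l') (z * z') (c * c') := by
  have key : ∀ i j : ℤ, i < l ∨ j < l' → z.coeff i * z'.coeff j = 0 := by
    rintro i j (hi | hj)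
    · rw [h.low i hi, zero_mul]
    · rw [h'.low j hj, mul_zero]
  constructor
  · intro i hi
    rw [HahnSeries.coeff_mul]
    refine Finset.sum_eq_zero fun ij hij => key _ _ ?_
    rw [Finset.mem_antidiagonal] at hij
    have := hij.2.2
    omega
  · rw [HahnSeries.coeff_mul, Finset.sum_eq_single (l, l')]
    · rw [h.top, h'.top]
    · intro ij hij hne
      refine key _ _ ?_
      rw [Finset.mem_antidiagonal] at hij
      have h3 := hij.2.2
      by_contra hcon
      apply hne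
      ext
      · simp only; omega
      · simp only; omega
    · intro hn
      rw [Finset.mem_antidiagonal] at hn
      by_contra hcon
      apply hn
      refine ⟨?_, ?_, rfl⟩
      · rw [HahnSeries.mem_support]
        intro h0
        exact hcon (by rw [h0, zero_mul])
      · rw [HahnSeries.mem_support]
        intro h0
        exact hcon (by rw [h0, mul_zero])

lemma LB.C (a : κ) : LB 0 (HahnSeries.C a : LaurentSeries κ) a := by
  constructor
  · intro i hi
    rw [HahnSeries.C_apply, HahnSeries.coeff_single_of_ne hi.ne]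
  · rw [HahnSeries.C_apply, HahnSeries.coeff_single_same]

lemma LB.Cmul (a : κ) {l : ℤ} {z : LaurentSeries κ} {c : κ} (h : LB l z c) :
    LB l (HahnSeries.C a * z) (a * c) := by
  have := (LB.C a).mul h
  rwa [zero_add] at this

lemma LB.pow {l : ℤ} {z : LaurentSeries κ} {c : κ} (h : LB l z c) (n : ℕ) :
    LB (n * l) (z ^ n) (c ^ n) := by
  induction n with
  | zero =>
    have := LB.C (1 : κ)
    simpa using this
  | succ n ih =>
    have := ih.mul h
    rw [pow_succ, pow_succ]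
    have e : ((n + 1 : ℕ) : ℤ) * l = n * l + l := by push_cast; ring
    rw [e]
    exact this

lemma exists_low (z : LaurentSeries κ) : ∃ r : ℤ, ∀ i : ℤ, i < r → z.coeff i = 0 := by
  by_cases hz : z = 0
  · exact ⟨0, fun i _ => by rw [hz]; rfl⟩
  · exact ⟨z.order, fun i hi => HahnSeries.coeff_eq_zero_of_lt_order hi⟩

/-- division -/
lemma LB.of_mul {l l' : ℤ} {q z : LaurentSeries κ} {c c' : κ} (h : LB l q c) (hc : c ≠ 0)
    (h' : LB (l + l') (q * z) (c * c')) : LB l' z c' := by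
  obtain ⟨r, hr⟩ := exists_low z
  have step : ∀ n : ℕ, ∀ i : ℤ, i < r + n → i < l' → z.coeff i = 0 := by
    intro n
    induction n with
    | zero => intro i hi _; exact hr i (by simpa using hi)
    | succ n ih =>
      intro i hi hil
      by_cases hlt : i < r + n
      · exact ih i hlt hil
      · have hz : LB i z (z.coeff i) := ⟨fun j hj => ih j (by push_cast at hi; omega) (by omega), rfl⟩
        have h2 := (h.mul hz).top
        rw [h'.low _ (by omega)] at h2
        rcases mul_eq_zero.mp h2.symm with h3 | h3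
        · exact absurd h3 hc
        · exact h3
  have hlow : ∀ i : ℤ, i < l' → z.coeff i = 0 := by
    intro i hi
    refine step (i + 1 - r).toNat i ?_ hi
    have := Int.self_le_toNat (i + 1 - r)
    omega
  refine ⟨hlow, ?_⟩
  have hz : LB l' z (z.coeff l') := ⟨hlow, rfl⟩
  have h2 := (h.mul hz).top
  rw [h'.top] at h2
  exact (mul_left_cancel₀ hc h2).symm

lemma LB.sum {l : ℤ} {x : LaurentSeries κ} {ξ : κ} (hx : LB l x ξ) (hl : l < 0) (c : ℕ → κ)
    (N : ℕ) : LB (N * l) (∑ j ∈ Finset.range (N + 1), HahnSeries.C (c j) * x ^ j) (c N * ξ ^ N) := by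
  induction N with
  | zero =>
    rw [Finset.sum_range_one, pow_zero, mul_one, pow_zero, mul_one, Nat.cast_zero, zero_mul]
    exact LB.C (c 0)
  | succ N ih =>
    rw [Finset.sum_range_succ]
    have h1 := (hx.pow (N + 1)).Cmul (c (N + 1))
    have h2 : LB (((N + 1 : ℕ) : ℤ) * l)
        (∑ j ∈ Finset.range (N + 1), HahnSeries.C (c j) * x ^ j) 0 := ih.weak (by push_cast; nlinarith)
    have := h2.add h1
    rwa [zero_add] at this

end LB

section ev

variable {F κ : Type} [Field F] [Field κ] (ι : Polynomial F →+* κ) (x : LaurentSeries κ)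

lemma ev_C (c : F) : ev ι x (MvPolynomial.C c) = HahnSeries.C (ι (Polynomial.C c)) := by
  simp [ev]

lemma ev_X0 : ev ι x (MvPolynomial.X 0) = x := by
  simp [ev]

lemma ev_X1 : ev ι x (MvPolynomial.X 1) = HahnSeries.C (ι Polynomial.X) * x := by
  simp [ev]

lemma dehom_C (c : F) : dehom (MvPolynomial.C c) = Polynomial.C c := by
  simp [dehom]

lemma dehom_X0 : dehom (MvPolynomial.X 0 : MvPolynomial (Fin 2) F) = 1 := by
  simp [dehom]

lemma dehom_X1 : dehom (MvPolynomial.X 1 : MvPolynomial (Fin 2) F) = Polynomial.X := by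
  simp [dehom]

lemma monomial_eq (s : Fin 2 →₀ ℕ) (c : F) : MvPolynomial.monomial s c =
    MvPolynomial.C c * (MvPolynomial.X 0 ^ s 0 * MvPolynomial.X 1 ^ s 1) := by
  rw [MvPolynomial.monomial_eq, Finsupp.prod_fintype]
  · rw [Fin.prod_univ_two]
  · intro i
    rw [pow_zero]

lemma ev_hom {h : MvPolynomial (Fin 2) F} {j : ℕ} (hh : h.IsHomogeneous j) :
    ev ι x h = HahnSeries.C (ι (dehom h)) * x ^ j := by
  rw [h.as_sum]
  simp only [map_sum, Finset.sum_mul]
  refine Finset.sum_congr rfl fun s hs => ?_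
  have hd : s 0 + s 1 = j := by
    have := hh (MvPolynomial.mem_support_iff.mp hs)
    rw [Finsupp.weight_apply, Finsupp.sum_fintype] at this
    · rw [Fin.sum_univ_two] at this
      simpa using this
    · intro i; simp
  rw [monomial_eq]
  simp only [map_mul, map_pow, ev_C, ev_X0, ev_X1, dehom_C, dehom_X0, dehom_X1]
  rw [← hd]
  simp only [map_one, one_pow]
  ring

lemma hc_isHomogeneous (j : ℕ) (h : MvPolynomial (Fin 2) F) : (hc j h).IsHomogeneous j :=
  MvPolynomial.homogeneousComponent_isHomogeneous j h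

lemma sum_hc {h : MvPolynomial (Fin 2) F} {N : ℕ} (hN : h.totalDegree ≤ N) :
    h = ∑ j ∈ Finset.range (N + 1), hc j h := by
  conv_lhs => rw [← MvPolynomial.sum_homogeneousComponent h]
  refine Finset.sum_subset (Finset.range_mono (by omega)) fun j _ hj => ?_
  rw [Finset.mem_range, not_lt] at hj
  exact MvPolynomial.homogeneousComponent_eq_zero j h (by omega)

lemma ev_sum {h : MvPolynomial (Fin 2) F} {N : ℕ} (hN : h.totalDegree ≤ N) :
    ev ι x h = ∑ j ∈ Finset.range (N + 1), HahnSeries.C (ι (dehom (hc j h))) * x ^ j := by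
  conv_lhs => rw [sum_hc hN]
  rw [map_sum]
  exact Finset.sum_congr rfl fun j _ => ev_hom ι x (hc_isHomogeneous j h)

lemma ev_pderiv {h : MvPolynomial (Fin 2) F} {N : ℕ} (hN : h.totalDegree ≤ N) (i : Fin 2) :
    x * ev ι x (MvPolynomial.pderiv i h) = ∑ j ∈ Finset.range (N + 1),
      HahnSeries.C (ι (dehom (MvPolynomial.pderiv i (hc j h)))) * x ^ j := by
  conv_lhs => rw [sum_hc hN]
  rw [map_sum, map_sum, Finset.mul_sum]
  refine Finset.sum_congr rfl fun j _ => ?_
  rcases j with _ | j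
  · have h0 : MvPolynomial.pderiv i (hc 0 h) = 0 := by
      have h1 := hc_isHomogeneous 0 h
      rw [← MvPolynomial.totalDegree_zero_iff_isHomogeneous,
        MvPolynomial.totalDegree_eq_zero_iff_eq_C] at h1
      rw [h1, MvPolynomial.pderiv_C]
    rw [h0]
    simp
  · have h1 : (MvPolynomial.pderiv i (hc (j + 1) h)).IsHomogeneous j :=
      (hc_isHomogeneous (j + 1) h).pderiv
    rw [ev_hom ι x h1]
    ring

lemma chain (D : Derivation ℤ (LaurentSeries κ) (LaurentSeries κ))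
    (hD : ∀ c : F, D (HahnSeries.C (ι (Polynomial.C c))) = 0) (h : MvPolynomial (Fin 2) F) :
    D (ev ι x h) = ev ι x (MvPolynomial.pderiv 0 h) * D x +
      ev ι x (MvPolynomial.pderiv 1 h) * D (HahnSeries.C (ι Polynomial.X) * x) := by
  have hX1 := ev_X1 ι x
  generalize HahnSeries.C (ι Polynomial.X) * x = T at hX1 ⊢
  have hX0 := ev_X0 ι x
  induction h using MvPolynomial.induction_on with
  | C c =>
    rw [ev_C, hD, MvPolynomial.pderiv_C, MvPolynomial.pderiv_C, map_zero]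
    ring
  | add p q hp hq =>
    simp only [map_add, hp, hq]
    ring
  | mul_X p i hp =>
    rw [RingHom.map_mul, Derivation.leibniz, hp, MvPolynomial.pderiv_mul, MvPolynomial.pderiv_mul,
      RingHom.map_add, RingHom.map_add, RingHom.map_mul, RingHom.map_mul, RingHom.map_mul,
      RingHom.map_mul]
    simp only [smul_eq_mul]
    fin_cases i
    · simp only [Fin.zero_eta, MvPolynomial.pderiv_X_self, hX0, RingHom.map_one, Fin.isValue]
      rw [MvPolynomial.pderiv_X_of_ne (by decide), RingHom.map_zero]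
      ring
    · simp only [Fin.mk_one, MvPolynomial.pderiv_X_self, hX1, RingHom.map_one, Fin.isValue]
      rw [MvPolynomial.pderiv_X_of_ne (by decide), RingHom.map_zero]
      ring

lemma ev_LB {h : MvPolynomial (Fin 2) F} {N : ℕ} (hN : h.totalDegree ≤ N) {l : ℤ} {ξ : κ}
    (hx : LB l x ξ) (hl : l < 0) : LB (N * l) (ev ι x h) (ι (dehom (hc N h)) * ξ ^ N) := by
  rw [ev_sum ι x hN]
  exact LB.sum hx hl (fun j => ι (dehom (hc j h))) N

lemma pd_LB {h : MvPolynomial (Fin 2) F} {N : ℕ} (hN : h.totalDegree ≤ N) (i : Fin 2) {l : ℤ}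
    {ξ : κ} (hx : LB l x ξ) (hl : l < 0) : LB (N * l) (x * ev ι x (MvPolynomial.pderiv i h))
      (ι (dehom (MvPolynomial.pderiv i (hc N h))) * ξ ^ N) := by
  rw [ev_pderiv ι x hN]
  exact LB.sum hx hl (fun j => ι (dehom (MvPolynomial.pderiv i (hc j h)))) N

end ev

end AN1

open AN1 in
/-- brick AN1 -/
theorem t_AN1 : S_AN1 := by
  intro p _ d F _ _ f hd0 hdp hfd hφ κ _ _ ι hι δ hδ θ Δ hθ hΔ hδF x hx n a b ha hb
  have hp := (Fact.out : p.Prime)
  set φ := lead d f with hφdef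
  set Φ := ι φ with hΦ
  have hΦ0 : Φ ≠ 0 := by
    rw [hΦ]
    exact (map_ne_zero_iff ι hι).mpr hφ
  set k := (p - 1) / d with hk
  have hkd : k * d = p - 1 := Nat.div_mul_cancel hdp
  have hp2 := hp.two_le
  have hdlt : d < p := lt_of_le_of_lt (Nat.le_of_dvd (by omega) hdp) (by omega)
  have hk1 : 1 ≤ k := by
    rcases Nat.eq_zero_or_pos k with h | h
    · rw [h, zero_mul] at hkd
      omega
    · exact h
  have hdκ : (d : κ) ≠ 0 := by
    intro h
    rw [CharP.cast_eq_zero_iff κ p] at h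
    exact absurd (Nat.le_of_dvd hd0 h) (by omega)
  set ξ := Φ ^ (k * (p + 1)) with hξ
  have hξ0 : ξ ≠ 0 := pow_ne_zero _ hΦ0
  have hxL : LB (-(p : ℤ)) x ξ := ⟨hx.low, hx.top⟩
  have hpneg : -(p : ℤ) < 0 := by omega
  have hpE : ((p : ℕ) : LaurentSeries κ) = 0 := by
    have : ((p : ℕ) : LaurentSeries κ) = HahnSeries.C ((p : ℕ) : κ) := (map_natCast _ _).symm
    rw [this, CharP.cast_eq_zero, map_zero]
  -- constants
  have hθC : ∀ c : κ, θ (HahnSeries.C c) = 0 := by
    intro c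
    ext i
    rw [hθ, HahnSeries.C_apply]
    by_cases hi : i = 0
    · rw [hi]; simp
    · rw [HahnSeries.coeff_single_of_ne hi]; simp
  have hΔC : ∀ c : κ, Δ (HahnSeries.C c) = HahnSeries.C (δ c) := by
    intro c
    ext i
    rw [hΔ, HahnSeries.C_apply, HahnSeries.C_apply]
    by_cases hi : i = 0
    · rw [hi]; simp
    · rw [HahnSeries.coeff_single_of_ne hi, HahnSeries.coeff_single_of_ne hi, map_zero]
  have hcθ : ∀ c : F, θ (HahnSeries.C (ι (Polynomial.C c))) = 0 := fun c => hθC _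
  have hcΔ : ∀ c : F, Δ (HahnSeries.C (ι (Polynomial.C c))) = 0 := fun c => by
    rw [hΔC, hδF, map_zero]
  have hcomm : ∀ z, θ (Δ z) = Δ (θ z) := by
    intro z
    ext i
    rw [hθ, hΔ, hΔ, hθ, Derivation.leibniz]
    have : δ ((i : ℤ) : κ) = 0 := by
      rw [← zsmul_one, map_zsmul, Derivation.map_one_eq_zero, smul_zero]
    rw [this, smul_zero, add_zero, smul_eq_mul]
  set U : LaurentSeries κ := HahnSeries.C (ι Polynomial.X) with hU
  set t := U * x with ht
  have hθt : θ t = U * θ x := by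
    rw [ht, Derivation.leibniz, hU, hθC, smul_zero, add_zero, smul_eq_mul]
  have hΔt : Δ t = x + U * Δ x := by
    rw [ht, Derivation.leibniz, hU, hΔC, hδ, Polynomial.derivative_X, map_one, map_one]
    simp only [smul_eq_mul]
    ring
  -- the equation
  set w : LaurentSeries κ := HahnSeries.single (-(d : ℤ)) (Φ ^ p) with hw
  have hweq : ev ι x f = w ^ p - w := hx.eq
  have hwL : LB (-(d : ℤ)) w (Φ ^ p) := by
    constructor
    · intro i hi
      rw [hw, HahnSeries.coeff_single_of_ne hi.ne]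
    · rw [hw, HahnSeries.coeff_single_same]
  have hθw : θ w = -(HahnSeries.C (d : κ) * w) := by
    ext i
    rw [hθ, HahnSeries.coeff_neg, HahnSeries.C_mul_eq_smul, HahnSeries.coeff_smul, smul_eq_mul]
    by_cases hi : i = -(d : ℤ)
    · rw [hi]; push_cast; ring
    · rw [hw, HahnSeries.coeff_single_of_ne hi]; ring
  have hΔw : Δ w = 0 := by
    ext i
    rw [hΔ]
    by_cases hi : i = -(d : ℤ)
    · rw [hi, hw, HahnSeries.coeff_single_same, Derivation.leibniz_pow,
        ← Nat.cast_smul_eq_nsmul κ, CharP.cast_eq_zero, zero_smul]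
      rfl
    · rw [hw, HahnSeries.coeff_single_of_ne hi, map_zero]; rfl
  have hpow : ∀ D : Derivation ℤ (LaurentSeries κ) (LaurentSeries κ), D (w ^ p) = 0 := by
    intro D
    rw [Derivation.leibniz_pow, ← Nat.cast_smul_eq_nsmul (LaurentSeries κ), hpE, zero_smul]
  set fx := ev ι x (MvPolynomial.pderiv 0 f) with hfx
  set ft := ev ι x (MvPolynomial.pderiv 1 f) with hft
  set Q := fx + U * ft with hQ
  have hQθ : Q * θ x = HahnSeries.C (d : κ) * w := by
    have h1 := chain ι x θ hcθ f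
    rw [hweq, map_sub, hpow, hθw] at h1
    rw [← hU, ← ht, hθt] at h1
    rw [hQ]
    linear_combination -h1
  have hQΔ : Q * Δ x = -(x * ft) := by
    have h1 := chain ι x Δ hcΔ f
    rw [hweq, map_sub, hpow, hΔw] at h1
    rw [← hU, ← ht, hΔt] at h1
    rw [hQ]
    linear_combination -h1
  have hEul : dehom (MvPolynomial.pderiv 0 (hc d f)) +
      Polynomial.X * dehom (MvPolynomial.pderiv 1 (hc d f)) = (d : Polynomial F) * φ := by
    have h1 := congrArg dehom (hc_isHomogeneous d f).sum_X_mul_pderiv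
    rw [Fin.sum_univ_two, map_add, map_mul, map_mul, dehom_X0, dehom_X1, one_mul,
      map_nsmul, nsmul_eq_mul] at h1
    exact h1
  have hxQ : LB ((d : ℤ) * (-(p : ℤ))) (x * Q) ((d : κ) * Φ * ξ ^ d) := by
    have h1 := (pd_LB ι x hfd 0 hxL hpneg).add ((pd_LB ι x hfd 1 hxL hpneg).Cmul (ι Polynomial.X))
    have e1 : x * Q = x * fx + U * (x * ft) := by rw [hQ]; ring
    have e2 : (d : κ) * Φ * ξ ^ d = ι (dehom (MvPolynomial.pderiv 0 (hc d f))) * ξ ^ d +
        ι Polynomial.X * (ι (dehom (MvPolynomial.pderiv 1 (hc d f))) * ξ ^ d) := by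
      have h2 := congrArg ι hEul
      rw [map_add, map_mul, map_mul, map_natCast] at h2
      rw [hΦ, ← h2]
      ring
    rw [e1, e2]
    exact h1
  have hq0 : (d : κ) * Φ * ξ ^ d ≠ 0 := mul_ne_zero (mul_ne_zero hdκ hΦ0) (pow_ne_zero _ hξ0)
  have hpp : Φ ^ p = Φ ^ (p - 1) * Φ := by
    rw [← pow_succ, Nat.sub_add_cancel hp.one_le]
  have hξd : ξ ^ d = Φ ^ (p ^ 2 - 1) := by
    rw [hξ, ← pow_mul]
    congr 1
    have h1 := Nat.sq_sub_sq p 1
    rw [one_pow] at h1
    rw [h1, mul_right_comm, hkd, mul_comm]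
  have hθx : LB (-(p : ℤ) + -(d : ℤ) + (d : ℤ) * p) (θ x) (Φ ^ (p - 1) * ξ / ξ ^ d) := by
    refine hxQ.of_mul hq0 ?_
    have h1 := hxL.mul (hwL.Cmul (d : κ))
    have e1 : x * Q * θ x = x * (HahnSeries.C (d : κ) * w) := by
      rw [← hQθ]; ring
    have e2 : (d : κ) * Φ * ξ ^ d * (Φ ^ (p - 1) * ξ / ξ ^ d) = ξ * ((d : κ) * Φ ^ p) := by
      rw [hpp]
      field_simp
    have e3 : (d : ℤ) * (-(p : ℤ)) + (-(p : ℤ) + -(d : ℤ) + (d : ℤ) * p) = -(p : ℤ) + -(d : ℤ) := by
      ring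
    rw [e1, e2, e3]
    exact h1
  set A := ev ι x a with hA
  set B := ev ι x b with hB
  have hAL := ev_LB ι x ha hxL hpneg
  have hBL := ev_LB ι x hb hxL hpneg
  have hβ₁ : LB ((n : ℤ) * (-(p : ℤ)) + (-(p : ℤ) + -(d : ℤ) + (d : ℤ) * p))
      (A * θ x + B * θ t) ((ι (dehom (hc n a)) * ξ ^ n + ι Polynomial.X * (ι (dehom (hc n b)) * ξ ^ n))
        * (Φ ^ (p - 1) * ξ / ξ ^ d)) := by
    have h1 := (hAL.add (hBL.Cmul (ι Polynomial.X))).mul hθx
    have e1 : A * θ x + B * θ t = (A + U * B) * θ x := by rw [hθt]; ring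
    rw [e1]
    exact h1
  have hJ : ι (jP d n f a b) = ι (dehom (hc n b)) * ι (dehom (MvPolynomial.pderiv 0 (hc d f))) -
      ι (dehom (hc n a)) * ι (dehom (MvPolynomial.pderiv 1 (hc d f))) := by
    rw [jP, map_sub, map_mul, map_mul, map_sub, map_mul, map_mul]
  have hβ₂ : LB (-(p : ℤ) + (n : ℤ) * (-(p : ℤ))) (A * Δ x + B * Δ t)
      (ξ ^ (n + 1) * ι (jP d n f a b) / ((d : κ) * Φ)) := by
    refine hxQ.of_mul hq0 ?_
    have h1 := hxL.mul ((hBL.mul (pd_LB ι x hfd 0 hxL hpneg)).sub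
      (hAL.mul (pd_LB ι x hfd 1 hxL hpneg)))
    have e1 : x * Q * (A * Δ x + B * Δ t) = x * (B * (x * fx) - A * (x * ft)) := by
      rw [hΔt]
      have e0 : x * Q * (A * Δ x + B * (x + U * Δ x)) =
          x * (A * (Q * Δ x) + B * (Q * x + U * (Q * Δ x))) := by ring
      rw [e0, hQΔ, hQ]
      ring
    have e2 : (d : κ) * Φ * ξ ^ d * (ξ ^ (n + 1) * ι (jP d n f a b) / ((d : κ) * Φ)) =
        ξ * (ι (dehom (hc n b)) * ξ ^ n * (ι (dehom (MvPolynomial.pderiv 0 (hc d f))) * ξ ^ d) -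
          ι (dehom (hc n a)) * ξ ^ n *
            (ι (dehom (MvPolynomial.pderiv 1 (hc d f))) * ξ ^ d)) := by
      rw [hJ]
      field_simp
      ring
    have e3 : (d : ℤ) * (-(p : ℤ)) + (-(p : ℤ) + (n : ℤ) * (-(p : ℤ))) =
        -(p : ℤ) + ((n : ℤ) * (-(p : ℤ)) + (d : ℤ) * (-(p : ℤ))) := by ring
    rw [e1, e2, e3]
    exact h1
  have hg : ι (gP n a b) = ι (dehom (MvPolynomial.pderiv 0 (hc n b))) -
      ι (dehom (MvPolynomial.pderiv 1 (hc n a))) := by
    rw [gP, map_sub, map_sub]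
  have hR : LB ((n : ℤ) * (-(p : ℤ)) + (-(p : ℤ) + -(d : ℤ) + (d : ℤ) * p))
      (Δ (A * θ x + B * θ t) - θ (A * Δ x + B * Δ t))
      (-((ι (gP n a b) * ξ ^ n) * (Φ ^ (p - 1) * ξ / ξ ^ d))) := by
    have h1 := (((pd_LB ι x hb 0 hxL hpneg).sub (pd_LB ι x ha 1 hxL hpneg)).mul hθx).neg
    have e1 : Δ (A * θ x + B * θ t) - θ (A * Δ x + B * Δ t) =
        -((x * ev ι x (MvPolynomial.pderiv 0 b) - x * ev ι x (MvPolynomial.pderiv 1 a)) * θ x) := by
      have c1 := chain ι x θ hcθ a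
      have c2 := chain ι x θ hcθ b
      have c3 := chain ι x Δ hcΔ a
      have c4 := chain ι x Δ hcΔ b
      rw [← hU, ← ht] at c1 c2 c3 c4
      rw [← hA] at c1 c3
      rw [← hB] at c2 c4
      simp only [map_add, Derivation.leibniz, smul_eq_mul]
      rw [c1, c2, c3, c4, hcomm x, hcomm t, hθt, hΔt]
      ring
    have e2 : ι (gP n a b) * ξ ^ n = ι (dehom (MvPolynomial.pderiv 0 (hc n b))) * ξ ^ n -
        ι (dehom (MvPolynomial.pderiv 1 (hc n a))) * ξ ^ n := by
      rw [hg]; ring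
    rw [e1, e2]
    exact h1
  have hdp1 : ((p - 1 : ℕ) : ℤ) = (p : ℤ) - 1 := by
    rw [Nat.cast_sub hp.one_le]; simp
  have i1 : (n : ℤ) * (-(p : ℤ)) + (-(p : ℤ) + -(d : ℤ) + (d : ℤ) * p) =
      -((p : ℤ) * ((n + 1 : ℕ) : ℤ) + d - p * d) := by
    push_cast; ring
  have i2 : -(p : ℤ) + (n : ℤ) * (-(p : ℤ)) = -((p : ℤ) * ((n + 1 : ℕ) : ℤ)) := by
    push_cast; ring
  have i3 : (n : ℤ) * (-(p : ℤ)) + (-(p : ℤ) + -(d : ℤ) + (d : ℤ) * p) =
      -((p : ℤ) * ((n + 1 : ℕ) : ℤ) - d * ((p : ℤ) - 1)) := by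
    push_cast; ring
  have hξn : ξ ^ (n + 1) = Φ ^ (k * p * (n + 1)) * (Φ ^ ((n + 1) * k - 1) * Φ) := by
    have h1 : 1 ≤ (n + 1) * k := Nat.one_le_iff_ne_zero.mpr (mul_ne_zero (by omega) (by omega))
    rw [← pow_succ, Nat.sub_add_cancel h1, ← pow_add, hξ, ← pow_mul]
    congr 1
    ring
  refine ⟨?_, ?_, ?_, ?_, ?_⟩
  · intro i hi
    exact hβ₁.low i (by rw [i1]; exact hi)
  · intro i hi
    exact hβ₂.low i (by rw [i2]; exact hi)
  · have h1 := hβ₂.top
    rw [i2] at h1
    rw [h1, hξn, map_mul, map_pow, ← hΦ, ← hk]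
    field_simp
  · intro i hi
    exact hR.low i (by rw [i3]; exact hi)
  · have h1 := hR.top
    rw [i3] at h1
    rw [h1, ← hξd, pow_mul, ← hξ]
    field_simp
    ring

end Pool.Agent.K3h46.AS
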