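import Pool.Agent.K3h46.AS.Stm

/-! # Project AS: the forms on the plane (from the bricks) -/

set_option autoImplicit false

open scoped KaehlerDifferential

namespace Pool.Agent.K3h46.AS

section push

/-- A homomorphism of fields maps trivial forms to trivial forms. -/
theorem push {p : ℕ} {K E : Type} [Field K] [Field E] (Ψ : K →+* E) {x t a b : K}
    (h : form x t a b ∈ Triv p K) : form (Ψ x) (Ψ t) (Ψ a) (Ψ b) ∈ Triv p E := by
  letI := Ψ.toAlgebra
  let M : Ω[K⁄ℤ] →ₗ[K] Ω[E⁄ℤ] := KaehlerDifferential.map ℤ ℤ K E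
  have hM : ∀ z : K, M (KaehlerDifferential.D ℤ K z) = KaehlerDifferential.D ℤ E (Ψ z) :=
    fun z => KaehlerDifferential.map_D ℤ ℤ K E z
  have hs : ∀ (c : K) (ω : Ω[K⁄ℤ]), M (c • ω) = Ψ c • M ω := fun c ω => by
    rw [map_smul]; rfl
  have key : ∀ ω ∈ Triv p K, M ω ∈ Triv p E := by
    intro ω hω
    refine AddSubgroup.closure_induction (p := fun ω _ => M ω ∈ Triv p E) ?_ ?_ ?_ ?_ hω
    · rintro ω (⟨h, rfl⟩ | ⟨a, b, hb, rfl⟩)
      · rw [hM]
        exact AddSubgroup.subset_closure (Or.inl ⟨_, rfl⟩)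
      · rw [hs, hM]
        refine AddSubgroup.subset_closure (Or.inr ⟨Ψ a, Ψ b, ?_, ?_⟩)
        · exact fun h0 => hb (Ψ.injective (by rw [h0, map_zero]))
        · rw [map_mul, map_sub, map_pow, map_inv₀]
    · rw [map_zero]; exact zero_mem _
    · intro a b _ _ ha hb
      rw [map_add]; exact add_mem ha hb
    · intro a _ ha
      rw [map_neg]; exact neg_mem ha
  have := key _ h
  unfold form at this ⊢
  rwa [map_add, hs, hs, hM, hM] at this

end push

section poly

variable {p : ℕ} [hp : Fact p.Prime] {F : Type} [Field F] [CharP F p] [PerfectRing F p]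

theorem D_pow {S : Type} [CommRing S] [CharP S p] (y : S) :
    KaehlerDifferential.D ℤ S (y ^ p) = 0 := by
  rw [Derivation.leibniz_pow, ← Nat.cast_smul_eq_nsmul S, CharP.cast_eq_zero, zero_smul]

/-- The differential of a polynomial. -/
theorem D_poly {S : Type} [CommRing S] [CharP S p] (j : MvPolynomial (Fin 2) F →+* S)
    (c : MvPolynomial (Fin 2) F) :
    KaehlerDifferential.D ℤ S (j c) =
      form (j (MvPolynomial.X 0)) (j (MvPolynomial.X 1)) (j (MvPolynomial.pderiv 0 c))
        (j (MvPolynomial.pderiv 1 c)) := by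
  unfold form
  induction c using MvPolynomial.induction_on with
  | C a =>
    obtain ⟨b, rfl⟩ := (bijective_frobenius F p).2 a
    rw [frobenius_def, map_pow, map_pow, D_pow, Derivation.leibniz_pow, Derivation.leibniz_pow,
      MvPolynomial.pderiv_C, MvPolynomial.pderiv_C]
    simp
  | add a b ha hb =>
    rw [map_add, map_add, ha, hb, map_add, map_add, map_add, map_add]
    module
  | mul_X a i ha =>
    rw [map_mul, Derivation.leibniz, ha, Derivation.leibniz, Derivation.leibniz]
    simp only [smul_eq_mul, map_add, map_mul, MvPolynomial.pderiv_X]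
    fin_cases i
    · simp [Pi.single_apply]
      module
    · simp [Pi.single_apply]
      module

theorem mem_one {L : Type} [Field L] (x g : L) :
    (g ^ p * x ^ (p - 1) - g) • KaehlerDifferential.D ℤ L x ∈ Triv p L := by
  by_cases hx : x = 0
  · rw [hx, map_zero, smul_zero]; exact zero_mem _
  · refine AddSubgroup.subset_closure (Or.inr ⟨g * x, x, hx, ?_⟩)
    congr 1
    have : x ^ p = x ^ (p - 1) * x := by
      rw [← pow_succ, Nat.sub_add_cancel hp.out.one_le]
    rw [mul_pow, this]
    field_simp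

theorem mem_data {L : Type} [Field L] [CharP L p] (j : MvPolynomial (Fin 2) F →+* L)
    (c g h : MvPolynomial (Fin 2) F) :
    form (j (MvPolynomial.X 0)) (j (MvPolynomial.X 1))
      (j (MvPolynomial.pderiv 0 c + g ^ p * MvPolynomial.X 0 ^ (p - 1) - g))
      (j (MvPolynomial.pderiv 1 c + h ^ p * MvPolynomial.X 1 ^ (p - 1) - h)) ∈ Triv p L := by
  have e : form (j (MvPolynomial.X 0)) (j (MvPolynomial.X 1))
      (j (MvPolynomial.pderiv 0 c + g ^ p * MvPolynomial.X 0 ^ (p - 1) - g))
      (j (MvPolynomial.pderiv 1 c + h ^ p * MvPolynomial.X 1 ^ (p - 1) - h)) =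
      KaehlerDifferential.D ℤ L (j c) +
      ((j g ^ p * j (MvPolynomial.X 0) ^ (p - 1) - j g) •
        KaehlerDifferential.D ℤ L (j (MvPolynomial.X 0)) +
      (j h ^ p * j (MvPolynomial.X 1) ^ (p - 1) - j h) •
        KaehlerDifferential.D ℤ L (j (MvPolynomial.X 1))) := by
    rw [D_poly j c]
    unfold form
    simp only [map_add, map_sub, map_mul, map_pow]
    module
  rw [e]
  exact add_mem (AddSubgroup.subset_closure (Or.inl ⟨_, rfl⟩))
    (add_mem (mem_one _ _) (mem_one _ _))

end poly

section sub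

theorem form_sub {S : Type} [CommRing S] (x t a b a' b' : S) :
    form x t (a - a') (b - b') = form x t a b - form x t a' b' := by
  unfold form; module

theorem trivA_add {p : ℕ} [hp : Fact p.Prime] {F : Type} [Field F] [CharP F p]
    {a b a' b' : MvPolynomial (Fin 2) F} (h : TrivA p a b) (h' : TrivA p a' b') :
    TrivA p (a + a') (b + b') := by
  obtain ⟨c, g, k, e1, e2⟩ := h
  obtain ⟨c', g', k', e1', e2'⟩ := h'
  haveI : CharP (MvPolynomial (Fin 2) F) p := inferInstance
  haveI : ExpChar (MvPolynomial (Fin 2) F) p := ExpChar.prime hp.out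
  refine ⟨c + c', g + g', k + k', ?_, ?_⟩
  · rw [e1, e1', map_add, add_pow_expChar]; ring
  · rw [e2, e2', map_add, add_pow_expChar]; ring

end sub

end Pool.Agent.K3h46.AS
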