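import Pool.Agent.K3h46.AS.Stm

/-! # Project AS: brick EXT -/

set_option autoImplicit false
set_option linter.all false

open scoped KaehlerDifferential

namespace Pool.Agent.K3h46.AS

section

variable {p : ℕ} [hp : Fact p.Prime] {E : Type} [Field E] [CharP E p]

theorem iter_zero (δ : Derivation ℤ E E) (k : ℕ) : (⇑δ)^[k] 0 = 0 := by
  induction k with
  | zero => rfl
  | succ k ih => rw [Function.iterate_succ_apply, map_zero, ih]

theorem iter_add (δ : Derivation ℤ E E) (k : ℕ) (a b : E) :
    (⇑δ)^[k] (a + b) = (⇑δ)^[k] a + (⇑δ)^[k] b := by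
  induction k generalizing a b with
  | zero => rfl
  | succ k ih => rw [Function.iterate_succ_apply, map_add, ih, ← Function.iterate_succ_apply,
      ← Function.iterate_succ_apply]

theorem iter_neg (δ : Derivation ℤ E E) (k : ℕ) (a : E) :
    (⇑δ)^[k] (-a) = -(⇑δ)^[k] a := by
  have h := iter_add δ k a (-a)
  rw [add_neg_cancel, iter_zero] at h
  exact (neg_eq_of_add_eq_zero_right h.symm).symm

theorem pow_const (δ : Derivation ℤ E E) (a : E) : δ (a ^ p) = 0 := by
  rw [Derivation.leibniz_pow, ← Nat.cast_smul_eq_nsmul E, CharP.cast_eq_zero, zero_smul]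

theorem iter_mul_const (δ : Derivation ℤ E E) (k : ℕ) (a c : E) (hc : δ c = 0) :
    (⇑δ)^[k] (c * a) = c * (⇑δ)^[k] a := by
  induction k generalizing a with
  | zero => rfl
  | succ k ih =>
    rw [Function.iterate_succ_apply, Derivation.leibniz, hc, smul_zero, add_zero, smul_eq_mul, ih,
      ← Function.iterate_succ_apply]

/-- `(δ b / b) ^ p + δ^(p-1) (δ b / b) = δ^p b / b`. -/
theorem log_pow (jac : S_JAC) (δ : Derivation ℤ E E) (b : E) (hb : b ≠ 0) :
    (δ b / b) ^ p + (⇑δ)^[p - 1] (δ b / b) = (⇑δ)^[p] b / b := by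
  have h := jac p E δ (δ b / b) 1
  have key : ∀ (k : ℕ) (s : E), (fun s : E => δ s + δ b / b * s)^[k] s =
      (⇑δ)^[k] (b * s) / b := by
    intro k
    induction k with
    | zero => intro s; simp only [Function.iterate_zero, id]; field_simp
    | succ k ih =>
      intro s
      rw [Function.iterate_succ_apply, ih, Function.iterate_succ_apply]
      congr 2
      rw [Derivation.leibniz, smul_eq_mul, smul_eq_mul]
      field_simp
  rw [key, mul_one] at h
  have h1 : (⇑δ)^[p] (1 : E) = 0 := by
    obtain ⟨k, hk⟩ : ∃ k, p = k + 1 := ⟨p - 1, (Nat.sub_add_cancel hp.out.one_le).symm⟩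
    rw [hk, Function.iterate_succ_apply, Derivation.map_one_eq_zero, iter_zero]
  rw [h1, zero_add, mul_one] at h
  exact h.symm

theorem iter_sub_one (δ : Derivation ℤ E E) (z : E) : (⇑δ)^[p - 1] (δ z) = (⇑δ)^[p] z := by
  rw [← Function.iterate_succ_apply, Nat.succ_eq_add_one, Nat.sub_add_cancel hp.out.one_le]

end

theorem t_EXT (jac : S_JAC) : S_EXT := by
  intro p hp E _ _ θ D hθ hD hc ω hω
  have : ExpChar E p := ExpChar.prime hp.out
  refine AddSubgroup.closure_induction (p := fun ω _ => ∃ η₁ η₂ : E,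
    η₁ ^ p = (θ.liftKaehlerDifferential ω + η₁) -
      (⇑θ)^[p - 1] (θ.liftKaehlerDifferential ω + η₁) ∧
    η₂ ^ p = -(⇑D)^[p - 1] (D.liftKaehlerDifferential ω + η₂) ∧
    θ (D.liftKaehlerDifferential ω + η₂) = D (θ.liftKaehlerDifferential ω + η₁))
    ?_ ?_ ?_ ?_ hω
  · rintro ω (⟨h, rfl⟩ | ⟨a, b, hb, rfl⟩)
    · refine ⟨0, 0, ?_, ?_, ?_⟩
      · rw [Derivation.liftKaehlerDifferential_comp_D, zero_pow hp.out.ne_zero, add_zero,
          iter_sub_one, hθ, sub_self]
      · rw [Derivation.liftKaehlerDifferential_comp_D, zero_pow hp.out.ne_zero, add_zero,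
          iter_sub_one, hD, neg_zero]
      · rw [Derivation.liftKaehlerDifferential_comp_D, Derivation.liftKaehlerDifferential_comp_D,
          add_zero, add_zero, hc]
    · have l1 := log_pow (p := p) jac θ b hb
      have l2 := log_pow (p := p) jac D b hb
      rw [hθ] at l1
      rw [hD, zero_div] at l2
      have e1 : θ.liftKaehlerDifferential (((a ^ p - a) * b⁻¹) • KaehlerDifferential.D ℤ E b) +
          a * (θ b / b) = a ^ p * (θ b / b) := by
        rw [map_smul, Derivation.liftKaehlerDifferential_comp_D, smul_eq_mul]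
        field_simp
        ring
      have e2 : D.liftKaehlerDifferential (((a ^ p - a) * b⁻¹) • KaehlerDifferential.D ℤ E b) +
          a * (D b / b) = a ^ p * (D b / b) := by
        rw [map_smul, Derivation.liftKaehlerDifferential_comp_D, smul_eq_mul]
        field_simp
        ring
      refine ⟨a * (θ b / b), a * (D b / b), ?_, ?_, ?_⟩
      · rw [e1, iter_mul_const θ _ _ _ (pow_const θ a), mul_pow]
        linear_combination (a ^ p) * l1
      · rw [e2, iter_mul_const D _ _ _ (pow_const D a), mul_pow]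
        linear_combination (a ^ p) * l2
      · rw [e1, e2, Derivation.leibniz, Derivation.leibniz, pow_const, pow_const, smul_zero,
          smul_zero, add_zero, add_zero, smul_eq_mul, smul_eq_mul]
        congr 1
        rw [div_eq_mul_inv, div_eq_mul_inv, Derivation.leibniz, Derivation.leibniz,
          Derivation.leibniz_inv, Derivation.leibniz_inv, hc]
        simp only [smul_eq_mul]
        ring
  · refine ⟨0, 0, ?_, ?_, ?_⟩
    · rw [map_zero, add_zero, iter_zero, zero_pow hp.out.ne_zero, sub_zero]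
    · rw [map_zero, add_zero, iter_zero, zero_pow hp.out.ne_zero, neg_zero]
    · rw [map_zero, map_zero, add_zero, map_zero, map_zero]
  · rintro a b _ _ ⟨η₁, η₂, e1, e2, e3⟩ ⟨η₁', η₂', e1', e2', e3'⟩
    have t1 : θ.liftKaehlerDifferential (a + b) + (η₁ + η₁') =
        (θ.liftKaehlerDifferential a + η₁) + (θ.liftKaehlerDifferential b + η₁') := by
      rw [map_add]; ring
    have t2 : D.liftKaehlerDifferential (a + b) + (η₂ + η₂') =
        (D.liftKaehlerDifferential a + η₂) + (D.liftKaehlerDifferential b + η₂') := by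
      rw [map_add]; ring
    refine ⟨η₁ + η₁', η₂ + η₂', ?_, ?_, ?_⟩
    · rw [add_pow_expChar, e1, e1', t1, iter_add θ _ (θ.liftKaehlerDifferential a + η₁)]
      ring
    · rw [add_pow_expChar, e2, e2', t2, iter_add D _ (D.liftKaehlerDifferential a + η₂)]
      ring
    · rw [t1, t2, map_add θ, map_add D, e3, e3']
  · rintro a _ ⟨η₁, η₂, e1, e2, e3⟩
    have hneg : ∀ z : E, (-z) ^ p = -z ^ p := fun z => by
      rcases hp.out.eq_two_or_odd' with h2 | ho
      · subst h2
        have : (-z) ^ 2 = z ^ 2 := by ring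
        rw [this]
        exact (CharTwo.neg_eq _).symm
      · exact ho.neg_pow z
    refine ⟨-η₁, -η₂, ?_, ?_, ?_⟩
    · rw [hneg, e1, map_neg,
        show -θ.liftKaehlerDifferential a + -η₁ = -(θ.liftKaehlerDifferential a + η₁) by ring,
        iter_neg]
      ring
    · rw [hneg, e2, map_neg,
        show -D.liftKaehlerDifferential a + -η₂ = -(D.liftKaehlerDifferential a + η₂) by ring,
        iter_neg]
    · rw [map_neg, map_neg,
        show -D.liftKaehlerDifferential a + -η₂ = -(D.liftKaehlerDifferential a + η₂) by ring,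
        show -θ.liftKaehlerDifferential a + -η₁ = -(θ.liftKaehlerDifferential a + η₁) by ring,
        map_neg, map_neg, e3]

end Pool.Agent.K3h46.AS
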