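import Pool.Agent.K3h46.AS.Fin
import Pool.Agent.K3h46.AS.Ext
import Pool.Agent.K3h46.AS.Der
import Pool.Agent.K3h46.AS.AN1
import Pool.Agent.K3h4.AS.Jac
import Pool.Agent.K3h4.AS.An2
import Pool.Agent.K3h17.AS.HEN
import Pool.Agent.K3h45.AS.LAU
import Pool.Agent.K3h60.AS.Eul
import Pool.Agent.K3h60.AS.Exa
import Pool.Agent.K3h85.AS.LOG
import Pool.Agent.K3h85.AS.DB
import Pool.Agent.K3h55.AS.Poi
import Pool.Agent.K3h16.AS.IND

/-! # Project AS: the main theorems -/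

set_option autoImplicit false
set_option linter.all false

open scoped KaehlerDifferential

namespace Pool.Agent.K3h46.AS

theorem br {p : ℕ} [hp : Fact p.Prime]
    {d : ℕ} (hd : 0 < d) (hdp : d ∣ p - 1) {F : Type} [Field F] [CharP F p] [PerfectRing F p]
    {f : MvPolynomial (Fin 2) F} (hf : Good p d f) (L : Type) [Field L]
    [Algebra (Cov p (toInf f)) L] [IsFractionRing (Cov p (toInf f)) L] (a b : Cov p f)
    (h : form (algebraMap (Cov p (toInf f)) L (mapInf p f (xB p f)))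
      (algebraMap (Cov p (toInf f)) L (mapInf p f (tB p f)))
      (algebraMap (Cov p (toInf f)) L (mapInf p f a))
      (algebraMap (Cov p (toInf f)) L (mapInf p f b)) ∈ Triv p L) : TrivB p f a b :=
  main_br DerKap.t_DER DerKap.t_KAP Pool.Agent.K3h17.AS.t_HEN Pool.Agent.K3h45.AS.t_LAU
    (t_EXT Pool.Agent.K3h4.AS.t_JAC) Pool.Agent.K3h60.AS.t_EUL t_AN1
    (Pool.Agent.K3h4.AS.t_AN2 Pool.Agent.K3h85.AS.t_LOG) Pool.Agent.K3h55.AS.t_POI
    Pool.Agent.K3h16.AS.t_IND hd hdp hf L a b h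

theorem picOf (hpic : S_PIC) {p : ℕ} [hp : Fact p.Prime]
    {d : ℕ} (hd : 0 < d) (hdp : d ∣ p - 1) {F : Type} [Field F] [CharP F p] [PerfectRing F p]
    {f : MvPolynomial (Fin 2) F} (hf : Good p d f) (P : CommRing.Pic (Cov p f)) :
    ∃ Q : CommRing.Pic (Cov p f), Q ^ p = P :=
  main_pic DerKap.t_DER DerKap.t_KAP Pool.Agent.K3h17.AS.t_HEN Pool.Agent.K3h45.AS.t_LAU
    (t_EXT Pool.Agent.K3h4.AS.t_JAC) Pool.Agent.K3h60.AS.t_EUL t_AN1
    (Pool.Agent.K3h4.AS.t_AN2 Pool.Agent.K3h85.AS.t_LOG) Pool.Agent.K3h55.AS.t_POI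
    Pool.Agent.K3h16.AS.t_IND Pool.Agent.K3h85.AS.t_DB hpic hd hdp hf P

end Pool.Agent.K3h46.AS
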