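import Pool.Agent.K3h46.AS.Stm2
import Pool.Agent.K3h46.AS.Main
import Pool.Agent.K3h4.AS.Pic

/-! # Project AS2: reduction to forms of degree `d - 1` -/

set_option autoImplicit false
set_option linter.all false

open scoped KaehlerDifferential

namespace Pool.Agent.K3h46.AS

/-- The bricks of the project AS2. -/
structure Bricks : Prop where
  gp1 : S_GP1
  gp2 : S_GP2
  gp3 : S_GP3
  an3 : S_AN3
  sub : S_SUB
  uni : S_UNI
  dim : S_DIM
  lin : S_LIN
  cnt : S_CNT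
  fld : S_FLD
  res : S_RES
  ldr : S_LDR

/-! ## Derivations, with the generic instances -/

/-- differential forms, with the generic instances -/
abbrev GOm (E : Type) [Field E] : Type := Ω[E⁄ℤ]

/-- derivations -/
def GDer (E : Type) [Field E] : Type := Derivation ℤ E E

namespace GDer

variable {E : Type} [Field E]

/-- the function -/
noncomputable def app (D : GDer E) (z : E) : E := (show Derivation ℤ E E from D) z

/-- the contraction -/
noncomputable def lft (D : GDer E) (η : Ω[E⁄ℤ]) : E :=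
  (show Derivation ℤ E E from D).liftKaehlerDifferential η

theorem lft_form (D : GDer E) (x t a b : E) :
    D.lft (form x t a b) = a * D.app x + b * D.app t := by
  unfold lft form app
  rw [map_add, map_smul, map_smul, Derivation.liftKaehlerDifferential_comp_D,
    Derivation.liftKaehlerDifferential_comp_D, smul_eq_mul, smul_eq_mul]

theorem lft_add (D : GDer E) (η ν : Ω[E⁄ℤ]) : D.lft (η + ν) = D.lft η + D.lft ν := by
  unfold lft; exact map_add _ _ _

theorem lft_sub (D : GDer E) (η ν : Ω[E⁄ℤ]) : D.lft (η - ν) = D.lft η - D.lft ν := by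
  unfold lft; exact map_sub _ _ _

theorem lft_zero (D : GDer E) : D.lft 0 = 0 := by
  unfold lft; exact map_zero _

theorem lft_nsmul (D : GDer E) (n : ℕ) (η : Ω[E⁄ℤ]) : D.lft (n • η) = n • D.lft η := by
  unfold lft; exact map_nsmul _ _ _

theorem lft_sum (D : GDer E) {s : Type} (S : Finset s) (η : s → Ω[E⁄ℤ]) :
    D.lft (∑ j ∈ S, η j) = ∑ j ∈ S, D.lft (η j) := by
  unfold lft; exact map_sum _ _ _

theorem exists_of {E : Type} [Field E] (D : E →+ E) (hD : ∀ a b, D (a * b) = a * D b + b * D a) :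
    ∃ D' : GDer E, ∀ z, D'.app z = D z := mkDer D hD

end GDer

theorem gp2' (gp2 : S_GP2) {p : ℕ} [Fact p.Prime] {E : Type} [Field E] [CharP E p]
    (T D : GDer E) (hT : ∀ z, T.app^[p] z = T.app z) (hD : ∀ z, D.app^[p] z = 0)
    (hc : ∀ z, T.app (D.app z) = D.app (T.app z)) (ω η : Ω[E⁄ℤ]) (h : (ω, η) ∈ GP p E) :
    T.lft η ^ p = (T.lft ω + T.lft η) - T.app^[p - 1] (T.lft ω + T.lft η) ∧
    D.lft η ^ p = -D.app^[p - 1] (D.lft ω + D.lft η) ∧
    T.app (D.lft ω + D.lft η) = D.app (T.lft ω + T.lft η) :=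
  gp2 p E T D hT hD hc ω η h

theorem gp3' (gp3 : S_GP3) {p : ℕ} [Fact p.Prime] {K E : Type} [Field K] [Field E] (Ψ : K →+* E)
    (D : GDer K) (D' : GDer E) (hD : ∀ z, D'.app (Ψ z) = Ψ (D.app z)) (x t a b : K) (η : Ω[K⁄ℤ])
    (h : (form x t a b, η) ∈ GP p K) :
    ∃ η' : Ω[E⁄ℤ], (form (Ψ x) (Ψ t) (Ψ a) (Ψ b), η') ∈ GP p E ∧ D'.lft η' = Ψ (D.lft η) :=
  gp3 p K E Ψ D D' hD x t a b η h

/-! ## The derivations of Laurent series -/

section ders

variable {κ : Type} [Field κ]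

/-- The derivations `ϖ d/dϖ` and `∂`. -/
structure Ders (p : ℕ) (δ : Derivation ℤ κ κ)
    (θ Δ : Derivation ℤ (LaurentSeries κ) (LaurentSeries κ)) (T D : GDer (LaurentSeries κ)) :
    Prop where
  hθ : ∀ (z : LaurentSeries κ) (n : ℤ), (θ z).coeff n = (n : κ) * z.coeff n
  hΔ : ∀ (z : LaurentSeries κ) (n : ℤ), (Δ z).coeff n = δ (z.coeff n)
  eT : ∀ z, T.app z = θ z
  eD : ∀ z, D.app z = Δ z
  hTp : ∀ z, T.app^[p] z = T.app z
  hDp : ∀ z, D.app^[p] z = 0
  hc : ∀ z, T.app (D.app z) = D.app (T.app z)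

theorem exists_ders {p : ℕ} [hp : Fact p.Prime] [CharP κ p] (δ : Derivation ℤ κ κ)
    (hδp : ∀ z, (⇑δ)^[p] z = 0) :
    ∃ (θ Δ : Derivation ℤ (LaurentSeries κ) (LaurentSeries κ)) (T D : GDer (LaurentSeries κ)),
      Ders p δ θ Δ T D := by
  obtain ⟨θ, Δ, hθ, hΔ⟩ := DerKap.t_DER κ δ
  have hθp : ∀ z : LaurentSeries κ, (⇑θ)^[p] z = θ z := by
    intro z
    refine HahnSeries.ext (funext fun m => ?_)
    rw [theta_iter' θ hθ, hθ, int_pow]
  have hΔp : ∀ z : LaurentSeries κ, (⇑Δ)^[p] z = 0 := by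
    intro z
    refine HahnSeries.ext (funext fun m => ?_)
    rw [theta_iter (p := p) δ Δ hΔ, hδp]; rfl
  have hcomm : ∀ z : LaurentSeries κ, θ (Δ z) = Δ (θ z) := by
    intro z
    refine HahnSeries.ext (funext fun m => ?_)
    have h0 : δ ((m : κ)) = 0 := Derivation.map_intCast δ m
    rw [hθ, hΔ, hΔ, hθ, Derivation.leibniz, h0, smul_zero, add_zero, smul_eq_mul]
  let T₀ : LaurentSeries κ →+ LaurentSeries κ :=
    { toFun := θ, map_zero' := map_zero θ, map_add' := map_add θ }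
  let D₀ : LaurentSeries κ →+ LaurentSeries κ :=
    { toFun := Δ, map_zero' := map_zero Δ, map_add' := map_add Δ }
  obtain ⟨T, hT⟩ := GDer.exists_of T₀ (fun a b => by
      show θ (a * b) = a * θ b + b * θ a
      rw [Derivation.leibniz, smul_eq_mul, smul_eq_mul])
  obtain ⟨D, hD⟩ := GDer.exists_of D₀ (fun a b => by
      show Δ (a * b) = a * Δ b + b * Δ a
      rw [Derivation.leibniz, smul_eq_mul, smul_eq_mul])
  have eT : ∀ z, T.app z = θ z := hT
  have eD : ∀ z, D.app z = Δ z := hD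
  have eT' : T.app = ⇑θ := funext eT
  have eD' : D.app = ⇑Δ := funext eD
  exact ⟨θ, Δ, T, D, ⟨hθ, hΔ, eT, eD, fun z => by rw [eT']; exact hθp z,
    fun z => by rw [eD']; exact hΔp z, fun z => by rw [eT', eD']; exact hcomm z⟩⟩

end ders

section ana

variable {p : ℕ} [hp : Fact p.Prime] {F : Type} [Field F] [CharP F p]

theorem ev_X0 {κ : Type} [Field κ] (ι : Polynomial F →+* κ) (x : LaurentSeries κ) :
    ev ι x (MvPolynomial.X 0) = x := by simp [ev]

theorem ev_X1 {κ : Type} [Field κ] (ι : Polynomial F →+* κ) (x : LaurentSeries κ) :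
    ev ι x (MvPolynomial.X 1) = HahnSeries.C (ι Polynomial.X) * x := by simp [ev]

theorem charP_laurent {κ : Type} [Field κ] [CharP κ p] : CharP (LaurentSeries κ) p :=
  charP_of_injective_ringHom (HahnSeries.C_injective (Γ := ℤ) (R := κ)) p

/-- The analysis of a pair at infinity. -/
theorem ana (B : Bricks) {d : ℕ} (hd : 0 < d) (hdp : d ∣ p - 1) {f : MvPolynomial (Fin 2) F}
    (hdeg : f.totalDegree ≤ d) (hl : lead d f ≠ 0) {κ : Type} [Field κ] [CharP κ p]
    (ι : Polynomial F →+* κ) (hι : Function.Injective ι) (δ : Derivation ℤ κ κ)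
    (hδ : ∀ g, δ (ι g) = ι (Polynomial.derivative g)) (hδp : ∀ z, (⇑δ)^[p] z = 0)
    {θ Δ : Derivation ℤ (LaurentSeries κ) (LaurentSeries κ)} {T D : GDer (LaurentSeries κ)}
    (hs : Ders p δ θ Δ T D) (x : LaurentSeries κ) (hx : IsPt p d f ι x) (n : ℕ)
    (a b : MvPolynomial (Fin 2) F) (ha : a.totalDegree ≤ n) (hb : b.totalDegree ≤ n)
    (η : GOm (LaurentSeries κ))
    (h : (form (ev ι x (MvPolynomial.X 0)) (ev ι x (MvPolynomial.X 1)) (ev ι x a) (ev ι x b), η) ∈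
      GP p (LaurentSeries κ)) :
    (d < n + 1 → gP n a b = 0) ∧
    (n + 1 < d → (Polynomial.derivative^[p - 1])
      (lead d f ^ ((n + 1) * ((p - 1) / d)) * gP n a b) = 0) ∧
    (n + 1 = d → gP n a b ^ p + (Polynomial.derivative^[p - 1])
        (lead d f ^ (p - 1) * gP n a b) = 0 ∧
      (∀ i : ℤ, i < -(d : ℤ) → (D.lft η).coeff i = 0) ∧
      (d : κ) * (D.lft η).coeff (-(d : ℤ)) = ι (lead d f ^ (p - 1) * gP n a b)) := by
  have cE : CharP (LaurentSeries κ) p := charP_laurent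
  obtain ⟨e1, e2, e3⟩ := gp2' B.gp2 T D hs.hTp hs.hDp hs.hc _ _ h
  have hfacts := t_AN1 p d F f hd hdp hdeg hl κ ι hι δ hδ θ Δ hs.hθ hs.hΔ (fun c => by
    rw [hδ, Polynomial.derivative_C, map_zero]) x hx n a b ha hb
  obtain ⟨g1, g2, g3⟩ := Pool.Agent.K3h60.AS.t_EUL p d F f a b n hd hdp
  rw [GDer.lft_form, ev_X0, ev_X1] at e1 e2 e3
  rw [GDer.lft_form] at e3
  have eT' : T.app = ⇑θ := funext hs.eT
  have eD' : D.app = ⇑Δ := funext hs.eD
  rw [eT'] at e1 e3
  rw [eD'] at e2 e3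
  exact B.an3 p d (n + 1) F hd hdp (Nat.le_add_left 1 n) (lead d f) (gP n a b) (jP d n f a b)
    (sP n a b) hl g3 κ ι hι δ hδ hδp θ Δ hs.hθ hs.hΔ _ _ (T.lft η) (D.lft η) hfacts e1 e2 e3

end ana

end Pool.Agent.K3h46.AS
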