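import Pool.Agent.K3h46.AS.Plane

/-! # Project AS: assembly -/

set_option autoImplicit false
set_option linter.all false

open scoped KaehlerDifferential

namespace Pool.Agent.K3h46.AS

theorem eqn_monic {p : ℕ} (hp : p.Prime) {R : Type} [CommRing R] [Nontrivial R] (f : R) :
    (eqn p f).Monic := by
  unfold eqn
  rw [sub_sub]
  refine Polynomial.monic_X_pow_sub ?_
  refine (Polynomial.degree_add_le _ _).trans_lt (max_lt ?_ ?_)
  · refine (Polynomial.degree_X_le).trans_lt ?_
    exact_mod_cast hp.one_lt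
  · refine (Polynomial.degree_C_le).trans_lt ?_
    exact_mod_cast hp.pos

theorem eqn_natDegree {p : ℕ} (hp : p.Prime) {R : Type} [CommRing R] [Nontrivial R] (f : R) :
    (eqn p f).degree = p := by
  unfold eqn
  rw [sub_sub, Polynomial.degree_sub_eq_left_of_degree_lt, Polynomial.degree_X_pow]
  rw [Polynomial.degree_X_pow]
  refine (Polynomial.degree_add_le _ _).trans_lt (max_lt ?_ ?_)
  · refine (Polynomial.degree_X_le).trans_lt ?_
    exact_mod_cast hp.one_lt
  · refine (Polynomial.degree_C_le).trans_lt ?_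
    exact_mod_cast hp.pos

theorem eqn_map {p : ℕ} {R S : Type} [CommRing R] [CommRing S] (φ : R →+* S) (f : R) :
    (eqn p f).map φ = eqn p (φ f) := by
  unfold eqn
  rw [Polynomial.map_sub, Polynomial.map_sub, Polynomial.map_pow, Polynomial.map_X,
    Polynomial.map_C]

section inf

variable {F : Type} [Field F]

theorem toInf_coeff (a : MvPolynomial (Fin 2) F) (m : Fin 2 →₀ ℕ) :
    ((toInf a).coeff (m 0)).coeff (-(m 1 : ℤ)) = a.coeff m := by
  induction a using MvPolynomial.induction_on' with
  | monomial s c =>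
    have e : toInf (MvPolynomial.monomial s c) =
        Polynomial.C (HahnSeries.single (-(s 1 : ℤ)) c) * Polynomial.X ^ (s 0) := by
      unfold toInf
      rw [MvPolynomial.coe_eval₂Hom, MvPolynomial.eval₂_monomial, Finsupp.prod_fintype _ _ (by simp)]
      simp only [Fin.prod_univ_two, Matrix.cons_val_zero, Matrix.cons_val_one]
      rw [← Polynomial.C_pow, HahnSeries.single_pow, RingHom.comp_apply, HahnSeries.C_apply]
      rw [mul_comm (Polynomial.X ^ s 0), ← mul_assoc, ← Polynomial.C_mul,
        HahnSeries.single_mul_single]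
      simp
    rw [e, Polynomial.coeff_C_mul, Polynomial.coeff_X_pow, MvPolynomial.coeff_monomial]
    by_cases h : s = m
    · subst h
      simp
    · rw [if_neg h]
      by_cases h0 : m 0 = s 0
      · rw [if_pos h0, mul_one, HahnSeries.coeff_single_of_ne]
        intro h1
        apply h
        ext i
        fin_cases i
        · exact h0.symm
        · simp at h1
          exact h1.symm
      · rw [if_neg h0, mul_zero, HahnSeries.coeff_zero]
  | add a b ha hb =>
    rw [map_add, Polynomial.coeff_add, HahnSeries.coeff_add, ha, hb, MvPolynomial.coeff_add]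

theorem toInf_injective : Function.Injective (toInf (F := F)) := by
  rw [injective_iff_map_eq_zero]
  intro a ha
  ext m
  rw [← toInf_coeff, ha, Polynomial.coeff_zero, HahnSeries.coeff_zero, MvPolynomial.coeff_zero]

end inf

/-- The homomorphism `F[x, t, w] / (w ^ p - w - f) → F((1 / t))[x, w] / (w ^ p - w - f)`. -/
noncomputable def mapInf (p : ℕ) {F : Type} [Field F] (f : MvPolynomial (Fin 2) F) :
    Cov p f →+* Cov p (toInf f) :=
  AdjoinRoot.lift ((AdjoinRoot.of (eqn p (toInf f))).comp toInf) (AdjoinRoot.root (eqn p (toInf f)))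
    (eval_eqn p f _ _ (eval_root p (toInf f)))

theorem mapInf_of (p : ℕ) {F : Type} [Field F] (f a : MvPolynomial (Fin 2) F) :
    mapInf p f (AdjoinRoot.of _ a) = AdjoinRoot.of _ (toInf a) := by
  unfold mapInf
  rw [AdjoinRoot.lift_of]; rfl

theorem mapInf_root (p : ℕ) {F : Type} [Field F] (f : MvPolynomial (Fin 2) F) :
    mapInf p f (AdjoinRoot.root _) = AdjoinRoot.root (eqn p (toInf f)) := by
  unfold mapInf
  rw [AdjoinRoot.lift_root]

theorem mapInf_mk (p : ℕ) {F : Type} [Field F] (f : MvPolynomial (Fin 2) F)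
    (q : Polynomial (MvPolynomial (Fin 2) F)) :
    mapInf p f (AdjoinRoot.mk _ q) = AdjoinRoot.mk (eqn p (toInf f)) (q.map toInf) := by
  unfold mapInf
  rw [AdjoinRoot.lift_mk, ← Polynomial.eval₂_map, ← AdjoinRoot.aeval_eq, Polynomial.aeval_def]
  rfl

theorem mapInf_injective {p : ℕ} (hp : p.Prime) {F : Type} [Field F]
    (f : MvPolynomial (Fin 2) F) : Function.Injective (mapInf p f) := by
  rw [injective_iff_map_eq_zero]
  intro z hz
  obtain ⟨q, rfl⟩ := AdjoinRoot.mk_surjective z
  rw [mapInf_mk, AdjoinRoot.mk_eq_zero] at hz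
  have hm := eqn_monic hp f
  have hm' := eqn_monic hp (toInf f)
  rw [AdjoinRoot.mk_eq_zero]
  rw [← Polynomial.modByMonic_eq_zero_iff_dvd hm'] at hz
  rw [← Polynomial.modByMonic_eq_zero_iff_dvd hm]
  rw [← eqn_map, ← Polynomial.map_modByMonic _ hm] at hz
  exact (Polynomial.map_eq_zero_iff toInf_injective).mp hz

section main

variable {p : ℕ} [hp : Fact p.Prime]

theorem charP_of_hom {R S : Type} [CommRing R] [CommRing S] [Nontrivial S] [CharP R p]
    (φ : R →+* S) : CharP S p := by
  refine (CharP.charP_iff_prime_eq_zero hp.out).mpr ?_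
  have h2 := congrArg φ (CharP.cast_eq_zero R p)
  rw [map_natCast, map_zero] at h2
  exact h2

theorem mkDerR {E : Type} [CommRing E] (D : E →+ E) (hD : ∀ a b, D (a * b) = a * D b + b * D a) :
    ∃ D' : Derivation ℤ E E, ∀ z, D' z = D z :=
  ⟨Derivation.mk' D.toIntLinearMap (fun a b => by
    simp only [AddMonoidHom.coe_toIntLinearMap, smul_eq_mul]
    exact hD a b), fun z => rfl⟩

theorem lift_form {E : Type} [CommRing E] (D : Derivation ℤ E E) (x t a b c g h : E)
    (e : form x t a b = exact c + form x t g h) :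
    a * D x + b * D t = D c + (g * D x + h * D t) := by
  have e1 := congrArg D.liftKaehlerDifferential e
  unfold form exact at e1
  simpa only [map_add, map_smul, Derivation.liftKaehlerDifferential_comp_D, smul_eq_mul] using e1

/-- The covering transformation `w ↦ w + 1`. -/
theorem exists_shift {R : Type} [CommRing R] [CharP R p] (f : R) :
    ∃ s : Cov p f →+* Cov p f, (∀ a, s (AdjoinRoot.of _ a) = AdjoinRoot.of _ a) ∧
      s (AdjoinRoot.root _) = AdjoinRoot.root _ + 1 ∧ Function.Injective s := by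
  have hc : (AdjoinRoot.root (eqn p f) + 1) ^ p - (AdjoinRoot.root (eqn p f) + 1) =
      AdjoinRoot.of (eqn p f) f := by
    rcases subsingleton_or_nontrivial (Cov p f) with hs | hs
    · exact Subsingleton.elim _ _
    have hcov : CharP (Cov p f) p := by
      refine (CharP.charP_iff_prime_eq_zero hp.out).mpr ?_
      have : ((p : R)) = 0 := CharP.cast_eq_zero R p
      have h2 := congrArg (AdjoinRoot.of (eqn p f)) this
      rw [map_natCast, map_zero] at h2
      exact h2
    have : ExpChar (Cov p f) p := ExpChar.prime hp.out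
    rw [add_pow_expChar, one_pow, add_sub_add_right_eq_sub, eval_root]
  have hcn : (AdjoinRoot.root (eqn p f) - 1) ^ p - (AdjoinRoot.root (eqn p f) - 1) =
      AdjoinRoot.of (eqn p f) f := by
    rcases subsingleton_or_nontrivial (Cov p f) with hs | hs
    · exact Subsingleton.elim _ _
    have hcov : CharP (Cov p f) p := by
      refine (CharP.charP_iff_prime_eq_zero hp.out).mpr ?_
      have : ((p : R)) = 0 := CharP.cast_eq_zero R p
      have h2 := congrArg (AdjoinRoot.of (eqn p f)) this
      rw [map_natCast, map_zero] at h2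
      exact h2
    have : ExpChar (Cov p f) p := ExpChar.prime hp.out
    rw [sub_pow_expChar, one_pow, sub_sub_sub_cancel_right, eval_root]
  let s : Cov p f →+* Cov p f := AdjoinRoot.lift (AdjoinRoot.of _) _ (eval_eqn p f _ _ hc)
  let s' : Cov p f →+* Cov p f := AdjoinRoot.lift (AdjoinRoot.of _) _ (eval_eqn p f _ _ hcn)
  have e1 : ∀ a, s (AdjoinRoot.of _ a) = AdjoinRoot.of _ a := fun a => AdjoinRoot.lift_of _
  have e2 : s (AdjoinRoot.root _) = AdjoinRoot.root _ + 1 := AdjoinRoot.lift_root _
  have e1' : ∀ a, s' (AdjoinRoot.of _ a) = AdjoinRoot.of _ a := fun a => AdjoinRoot.lift_of _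
  have e2' : s' (AdjoinRoot.root _) = AdjoinRoot.root _ - 1 := AdjoinRoot.lift_root _
  refine ⟨s, e1, e2, ?_⟩
  have hss : s'.comp s = RingHom.id _ := by
    refine AdjoinRoot.ringHom_ext (RingHom.ext fun a => ?_) ?_
    · simp only [RingHom.comp_apply, e1, e1', RingHom.id_apply]
    · rw [RingHom.comp_apply, e2, map_add, e2', map_one, RingHom.id_apply, sub_add_cancel]
  intro a b hab
  have := congrArg s' hab
  rw [← RingHom.comp_apply, ← RingHom.comp_apply, hss] at this
  exact this

/-- The covering transformation of a field of fractions. -/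
theorem exists_sigma {R : Type} [CommRing R] [CharP R p] (f : R) (L : Type) [Field L]
    [Algebra (Cov p f) L] [IsFractionRing (Cov p f) L] :
    ∃ σ : L →+* L, (∀ a, σ (algebraMap (Cov p f) L (AdjoinRoot.of _ a)) =
        algebraMap (Cov p f) L (AdjoinRoot.of _ a)) ∧
      σ (algebraMap (Cov p f) L (AdjoinRoot.root _)) =
        algebraMap (Cov p f) L (AdjoinRoot.root _) + 1 := by
  obtain ⟨s, s1, s2, s3⟩ := exists_shift (p := p) f
  have hs : Function.Injective ((algebraMap (Cov p f) L).comp s) :=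
    (IsFractionRing.injective (Cov p f) L).comp s3
  refine ⟨IsFractionRing.lift hs, fun a => ?_, ?_⟩
  · rw [IsFractionRing.lift_algebraMap, RingHom.comp_apply, s1]
  · rw [IsFractionRing.lift_algebraMap, RingHom.comp_apply, s2, map_add, map_one]

theorem charP_inf {F : Type} [Field F] [CharP F p] : CharP (Polynomial (LaurentSeries F)) p :=
  charP_of_hom ((Polynomial.C).comp (HahnSeries.C : F →+* LaurentSeries F))

theorem main_br (der : S_DER) (kap : S_KAP) (hen : S_HEN) (lau : S_LAU)
    (ext : S_EXT) (eul : S_EUL) (an1 : S_AN1) (an2 : S_AN2) (poi : S_POI) (ind : S_IND)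
    {d : ℕ} (hd : 0 < d) (hdp : d ∣ p - 1) {F : Type} [Field F] [CharP F p] [PerfectRing F p]
    {f : MvPolynomial (Fin 2) F} (hf : Good p d f) (L : Type) [Field L]
    [Algebra (Cov p (toInf f)) L] [IsFractionRing (Cov p (toInf f)) L] (a b : Cov p f)
    (h : form (algebraMap (Cov p (toInf f)) L (mapInf p f (xB p f)))
      (algebraMap (Cov p (toInf f)) L (mapInf p f (tB p f)))
      (algebraMap (Cov p (toInf f)) L (mapInf p f a))
      (algebraMap (Cov p (toInf f)) L (mapInf p f b)) ∈ Triv p L) : TrivB p f a b := by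
  have hcL : CharP L p := charP_of_hom ((((algebraMap (Cov p (toInf f)) L).comp
      (AdjoinRoot.of (eqn p (toInf f)))).comp toInf).comp MvPolynomial.C)
  have hcI : CharP (Polynomial (LaurentSeries F)) p := charP_inf
  obtain ⟨σ, hσ1, hσ2⟩ := exists_sigma (p := p) (toInf f) L
  have key := ind p F f L ((algebraMap (Cov p (toInf f)) L).comp (mapInf p f)) σ
    (fun a => by rw [RingHom.comp_apply, mapInf_of, hσ1])
    (by rw [RingHom.comp_apply, mapInf_root, hσ2])
  have key2 := key ?_ a b (by
    rw [RingHom.comp_apply, RingHom.comp_apply, RingHom.comp_apply, RingHom.comp_apply]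
    exact h)
  · exact key2
  · intro a b hab
    refine base der kap hen lau ext eul an1 an2 poi hd hdp hf L (max a.totalDegree b.totalDegree)
      a b (le_max_left _ _) (le_max_right _ _) ?_
    rw [RingHom.comp_apply, RingHom.comp_apply, RingHom.comp_apply, RingHom.comp_apply, xB, tB,
      mapInf_of, mapInf_of, mapInf_of, mapInf_of] at hab
    exact hab

theorem isDomain_inf (kap : S_KAP) (hen : S_HEN) (lau : S_LAU)
    {d : ℕ} (hd : 0 < d) (hdp : d ∣ p - 1) {F : Type} [Field F] [CharP F p]
    {f : MvPolynomial (Fin 2) F} (hf : Good p d f) : IsDomain (Cov p (toInf f)) := by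
  obtain ⟨κ, iκ, cκ, ι, δ, hι, hδ, hδp⟩ := kap p F
  obtain ⟨x, hx⟩ := hen p d F f hd hdp hf.deg hf.irr.ne_zero κ ι hι
  obtain ⟨J, hJ, hJe⟩ := lau p d F f hd hdp hf.irr.ne_zero κ ι hι x hx
  exact hJ.isDomain J

theorem main_pic (der : S_DER) (kap : S_KAP) (hen : S_HEN) (lau : S_LAU)
    (ext : S_EXT) (eul : S_EUL) (an1 : S_AN1) (an2 : S_AN2) (poi : S_POI) (ind : S_IND)
    (db : S_DB) (pic : S_PIC)
    {d : ℕ} (hd : 0 < d) (hdp : d ∣ p - 1) {F : Type} [Field F] [CharP F p] [PerfectRing F p]
    {f : MvPolynomial (Fin 2) F} (hf : Good p d f) (P : CommRing.Pic (Cov p f)) :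
    ∃ Q : CommRing.Pic (Cov p f), Q ^ p = P := by
  have hdom : IsDomain (Cov p (toInf f)) := isDomain_inf kap hen lau hd hdp hf
  have hinj := mapInf_injective hp.out f
  have hdomB : IsDomain (Cov p f) := hinj.isDomain (mapInf p f)
  have hcB : CharP (Cov p f) p := charP_of_hom ((AdjoinRoot.of (eqn p f)).comp MvPolynomial.C)
  obtain ⟨δ₁', δ₂', h1, h2, h3, h4, h5, h6, h7, h8⟩ := db p F f
  obtain ⟨δ₁, k1⟩ := mkDerR (E := Cov p f) (AddMonoidHom.mk' (⇑δ₁') (map_add δ₁')) (fun a b => by
      show δ₁' (a * b) = a * δ₁' b + b * δ₁' a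
      rw [Derivation.leibniz, smul_eq_mul, smul_eq_mul])
  obtain ⟨δ₂, k2⟩ := mkDerR (E := Cov p f) (AddMonoidHom.mk' (⇑δ₂') (map_add δ₂')) (fun a b => by
      show δ₂' (a * b) = a * δ₂' b + b * δ₂' a
      rw [Derivation.leibniz, smul_eq_mul, smul_eq_mul])
  have l1 : ∀ z, δ₁ z = δ₁' z := k1
  have l2 : ∀ z, δ₂ z = δ₂' z := k2
  have m1 : (⇑δ₁ : Cov p f → Cov p f) = ⇑δ₁' := funext l1
  have m2 : (⇑δ₂ : Cov p f → Cov p f) = ⇑δ₂' := funext l2
  have a1 : δ₁ (xB p f) = 1 := by rw [l1, h1]
  have a2 : δ₁ (tB p f) = 0 := by rw [l1, h2]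
  have a3 : δ₂ (xB p f) = 0 := by rw [l2, h3]
  have a4 : δ₂ (tB p f) = 1 := by rw [l2, h4]
  refine pic p (Cov p f) δ₁ δ₂ (xB p f) (tB p f) a1 a2 a3 a4
    (fun z => by rw [l1, l2, l2, l1]; exact h5 z) (by rw [m1]; exact h6) (by rw [m2]; exact h7)
    (fun z => by rw [l1, l2]; exact h8 z) (fun a b hab => ?_) P
  have hi2 : Function.Injective ((algebraMap (Cov p (toInf f)) (FractionRing (Cov p (toInf f)))).comp
      (mapInf p f)) :=
    (IsFractionRing.injective (Cov p (toInf f)) (FractionRing (Cov p (toInf f)))).comp hinj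
  have h9 := push (IsFractionRing.lift hi2 :
    FractionRing (Cov p f) →+* FractionRing (Cov p (toInf f))) hab
  rw [IsFractionRing.lift_algebraMap, IsFractionRing.lift_algebraMap,
      IsFractionRing.lift_algebraMap, IsFractionRing.lift_algebraMap, RingHom.comp_apply,
      RingHom.comp_apply, RingHom.comp_apply, RingHom.comp_apply] at h9
  obtain ⟨c, g, k, e⟩ := main_br der kap hen lau ext eul an1 an2 poi ind hd hdp hf
    (FractionRing (Cov p (toInf f))) a b h9
  have e1 := lift_form δ₁ _ _ _ _ _ _ _ e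
  have e2 := lift_form δ₂ _ _ _ _ _ _ _ e
  rw [a1, a2] at e1
  rw [a3, a4] at e2
  refine ⟨c, g, k, ?_, ?_⟩
  · linear_combination e1
  · linear_combination e2

end main

end Pool.Agent.K3h46.AS
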