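import Pool.Agent.K3h46.AS.Main2

/-! # Project AS2: the final statements -/

set_option autoImplicit false
set_option linter.all false

open scoped KaehlerDifferential

namespace Pool.Agent.K3h46.AS

section

variable {p : ℕ} [hp : Fact p.Prime] {F : Type} [Field F] [CharP F p] [PerfectRing F p]

theorem bad_card {d : ℕ} (hd : 0 < d) (hdp : d ∣ p - 1)
    {f : MvPolynomial (Fin 2) F} (hdeg : f.totalDegree ≤ d) (hnat : (lead d f).natDegree = d)
    (hsq : Squarefree (lead d f)) (ord : IsOrdinary p d (lead d f)) (e : F)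
    (he : ∀ a : F, a ^ p - a ≠ e) (T : Finset (ZMod p))
    (hT : ∀ t ∈ T, ∃ a : F, ¬ BaseOK p (f + MvPolynomial.C ((t.val : F) * e + (a ^ p - a)))) :
    T.card ≤ Multiset.card (UniqueFactorizationMonoid.factors (lead d f)) - 1 := by
  have hl : lead d f ≠ 0 := hsq.ne_zero
  have hdlt : d < p := by
    have := Nat.le_of_dvd (Nat.sub_pos_of_lt hp.out.one_lt) hdp
    have := hp.out.pos
    omega
  let en : Fin T.card ≃ T := T.equivFin.symm
  have h1 := fun j => hT (en j : ZMod p) (en j).2
  choose α hα using h1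
  have h2 := fun j => min_bad bricks hd hdp (deg_add_C hdeg _)
    (f := f + MvPolynomial.C ((((en j : ZMod p).val : ℕ) : F) * e + (α j ^ p - α j)))
    (by rw [lead_add_C hd]; exact hl) (by rw [lead_add_C hd]; exact ord) (hα j)
  choose a b ha hb hinf hne using h2
  have hlog : ∀ j, InLog p (lead d f) (gP (d - 1) (a j) (b j)) := fun j => by
    have := inLog_of bricks hd hdp (deg_add_C hdeg _)
      (f := f + MvPolynomial.C ((((en j : ZMod p).val : ℕ) : F) * e + (α j ^ p - α j)))
      (by rw [lead_add_C hd]; exact hnat) (by rw [lead_add_C hd]; exact hl) (a j) (b j)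
      (ha j) (hb j) (hinf j)
    rwa [lead_add_C hd] at this
  letI : Module (ZMod p) (Polynomial F) := AddCommGroup.zmodModule (fun x => by
    rw [nsmul_eq_mul, CharP.cast_eq_zero, zero_mul])
  have hsm : ∀ (z : ZMod p) (G : Polynomial F), z • G = (z.val : Polynomial F) * G := by
    intro z G
    conv_lhs => rw [← ZMod.natCast_zmod_val z]
    rw [Nat.cast_smul_eq_nsmul, nsmul_eq_mul]
  have hlin : LinearIndependent (ZMod p) fun j => gP (d - 1) (a j) (b j) := by
    refine bricks.lin p (Polynomial F) T.card _ (fun j => (en j : ZMod p))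
      (fun j k hjk => en.injective (Subtype.ext hjk)) hne (fun c hc => ?_)
    have h3 := key bricks hd hdp hdeg hnat hsq ord he (fun j => (en j : ZMod p).val) α a b ha hb hinf
      (fun j => (c j).val) (by
        rw [← hc]
        exact Finset.sum_congr rfl fun j _ => (hsm _ _).symm)
    rw [← h3]
    refine Finset.sum_congr rfl fun j _ => ?_
    rw [mul_smul, hsm, hsm]
  have h4 := bricks.dim p F (lead d f) hsq (by omega) (by omega) T.card _ hlog hlin
  omega

theorem perfect_fine {d : ℕ} (hd : 0 < d) (hdp : d ∣ p - 1)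
    {f : MvPolynomial (Fin 2) F} (hdeg : f.totalDegree ≤ d) (hnat : (lead d f).natDegree = d)
    (hsq : Squarefree (lead d f)) (ord : IsOrdinary p d (lead d f)) (e : F)
    (he : ∀ a : F, a ^ p - a ≠ e) : ∃ T : Finset (ZMod p),
      T.card ≤ Multiset.card (UniqueFactorizationMonoid.factors (lead d f)) - 1 ∧
      ∀ t : ZMod p, t ∉ T → ∀ a : F,
        Fine p (f + MvPolynomial.C ((t.val : F) * e + (a ^ p - a))) := by
  classical
  refine ⟨Finset.univ.filter fun t : ZMod p => ∃ a : F,
    ¬ BaseOK p (f + MvPolynomial.C ((t.val : F) * e + (a ^ p - a))),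
    bad_card hd hdp hdeg hnat hsq ord e he _ (fun t ht => (Finset.mem_filter.mp ht).2),
    fun t ht a => ?_⟩
  refine fine_of_base hd hdp (deg_add_C hdeg _) (by rw [lead_add_C hd]; exact hsq.ne_zero) ?_
  by_contra hcon
  exact ht (Finset.mem_filter.mpr ⟨Finset.mem_univ _, a, hcon⟩)

theorem binomial {d : ℕ} (hd : 0 < d) (hdp : d ∣ p - 1) (a b : F) (ha : a ≠ 0) (hb : b ≠ 0) :
    (Polynomial.C a + Polynomial.C b * Polynomial.X ^ d).natDegree = d ∧
      Squarefree (Polynomial.C a + Polynomial.C b * Polynomial.X ^ d) ∧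
      IsOrdinary p d (Polynomial.C a + Polynomial.C b * Polynomial.X ^ d) := by
  refine ⟨?_, ?_, Pool.Agent.K3h60.AS.t_EXA p d F a b hd hdp ha hb⟩
  · rw [add_comm]
    rw [Polynomial.natDegree_add_C, Polynomial.natDegree_C_mul_X_pow _ _ hb]
  · apply Polynomial.Separable.squarefree
    have hdF : (d : F) ≠ 0 := by
      intro h0
      have := (CharP.cast_eq_zero_iff F p d).mp h0
      have h2 := Nat.le_of_dvd (Nat.sub_pos_of_lt hp.out.one_lt) hdp
      have h3 := Nat.le_of_dvd hd this
      have := hp.out.pos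
      omega
    refine ⟨Polynomial.C a⁻¹, -(Polynomial.C (a⁻¹ * (d : F)⁻¹) * Polynomial.X), ?_⟩
    obtain ⟨k, rfl⟩ : ∃ k, d = k + 1 := ⟨d - 1, by omega⟩
    have e1 : Polynomial.derivative (Polynomial.C a + Polynomial.C b * Polynomial.X ^ (k + 1)) =
        Polynomial.C (b * ((k + 1 : ℕ) : F)) * Polynomial.X ^ k := by
      rw [Polynomial.derivative_add, Polynomial.derivative_C, zero_add,
        Polynomial.derivative_C_mul_X_pow, Nat.add_sub_cancel]
    have e2 : Polynomial.C (a⁻¹) * Polynomial.C a = 1 := by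
      rw [← Polynomial.C_mul, inv_mul_cancel₀ ha, Polynomial.C_1]
    have e3 : Polynomial.C (a⁻¹ * ((k + 1 : ℕ) : F)⁻¹) * Polynomial.C (b * ((k + 1 : ℕ) : F)) =
        Polynomial.C a⁻¹ * Polynomial.C b := by
      rw [← Polynomial.C_mul, ← Polynomial.C_mul]
      congr 1
      field_simp
    rw [e1]
    calc _ = Polynomial.C a⁻¹ * Polynomial.C a + Polynomial.C a⁻¹ * Polynomial.C b *
          Polynomial.X ^ (k + 1) - (Polynomial.C (a⁻¹ * ((k + 1 : ℕ) : F)⁻¹) *
          Polynomial.C (b * ((k + 1 : ℕ) : F))) * Polynomial.X ^ (k + 1) := by ring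
      _ = 1 := by rw [e2, e3]; ring

end

end Pool.Agent.K3h46.AS
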