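import Pool.Agent.K3h46.AS.Stm2
import Pool.Agent.K3h46.AS.Ext
import Pool.Agent.K3h46.AS.Base

/-! # Project AS2: brick GP -/

set_option autoImplicit false
set_option linter.all false

open scoped KaehlerDifferential

namespace Pool.Agent.K3h46.AS

section one

variable {p : ℕ} [hp : Fact p.Prime]

theorem gp_fst {E : Type} [Field E] (x : Ω[E⁄ℤ] × Ω[E⁄ℤ]) (hx : x ∈ GP p E) :
    x.1 ∈ Triv p E := by
  refine AddSubgroup.closure_induction (p := fun x _ => x.1 ∈ Triv p E) ?_ ?_ ?_ ?_ hx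
  · rintro x (⟨h, rfl⟩ | ⟨a, b, hb, rfl⟩)
    · exact AddSubgroup.subset_closure (Or.inl ⟨_, rfl⟩)
    · exact AddSubgroup.subset_closure (Or.inr ⟨a, b, hb, rfl⟩)
  · exact zero_mem _
  · intro a b _ _ ha hb
    exact add_mem ha hb
  · intro a _ ha
    exact neg_mem ha

theorem gp_exists {E : Type} [Field E] (ω : Ω[E⁄ℤ]) (hω : ω ∈ Triv p E) :
    ∃ η : Ω[E⁄ℤ], (ω, η) ∈ GP p E := by
  refine AddSubgroup.closure_induction (p := fun ω _ => ∃ η : Ω[E⁄ℤ], (ω, η) ∈ GP p E)
    ?_ ?_ ?_ ?_ hω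
  · rintro ω (⟨h, rfl⟩ | ⟨a, b, hb, rfl⟩)
    · exact ⟨0, AddSubgroup.subset_closure (Or.inl ⟨h, rfl⟩)⟩
    · exact ⟨_, AddSubgroup.subset_closure (Or.inr ⟨a, b, hb, rfl⟩)⟩
  · exact ⟨0, zero_mem _⟩
  · rintro a b _ _ ⟨η, ha⟩ ⟨η', hb⟩
    exact ⟨η + η', add_mem ha hb⟩
  · rintro a _ ⟨η, ha⟩
    exact ⟨-η, neg_mem ha⟩

theorem gp_one {L : Type} [Field L] (x g : L) :
    ((g ^ p * x ^ (p - 1) - g) • KaehlerDifferential.D ℤ L x,
      g • KaehlerDifferential.D ℤ L x) ∈ GP p L := by
  by_cases hx : x = 0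
  · rw [hx, map_zero, smul_zero, smul_zero]; exact zero_mem _
  · refine AddSubgroup.subset_closure (Or.inr ⟨g * x, x, hx, ?_⟩)
    have : x ^ p = x ^ (p - 1) * x := by
      rw [← pow_succ, Nat.sub_add_cancel hp.out.one_le]
    have e1 : g ^ p * x ^ (p - 1) - g = ((g * x) ^ p - g * x) * x⁻¹ := by
      rw [mul_pow, this]
      field_simp
    have e2 : g = g * x * x⁻¹ := by
      field_simp
    rw [e1]
    conv_lhs => rw [show g • KaehlerDifferential.D ℤ L x =
      (g * x * x⁻¹) • KaehlerDifferential.D ℤ L x by rw [← e2]]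

theorem gp_data {F : Type} [Field F] [CharP F p] [PerfectRing F p] {L : Type} [Field L]
    [CharP L p] (j : MvPolynomial (Fin 2) F →+* L) (c g h : MvPolynomial (Fin 2) F) :
    (form (j (MvPolynomial.X 0)) (j (MvPolynomial.X 1))
      (j (MvPolynomial.pderiv 0 c + g ^ p * MvPolynomial.X 0 ^ (p - 1) - g))
      (j (MvPolynomial.pderiv 1 c + h ^ p * MvPolynomial.X 1 ^ (p - 1) - h)),
     form (j (MvPolynomial.X 0)) (j (MvPolynomial.X 1)) (j g) (j h)) ∈ GP p L := by
  have e : (form (j (MvPolynomial.X 0)) (j (MvPolynomial.X 1))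
      (j (MvPolynomial.pderiv 0 c + g ^ p * MvPolynomial.X 0 ^ (p - 1) - g))
      (j (MvPolynomial.pderiv 1 c + h ^ p * MvPolynomial.X 1 ^ (p - 1) - h)),
      form (j (MvPolynomial.X 0)) (j (MvPolynomial.X 1)) (j g) (j h)) =
      (KaehlerDifferential.D ℤ L (j c), 0) +
      (((j g ^ p * j (MvPolynomial.X 0) ^ (p - 1) - j g) •
        KaehlerDifferential.D ℤ L (j (MvPolynomial.X 0)),
        j g • KaehlerDifferential.D ℤ L (j (MvPolynomial.X 0))) +
      ((j h ^ p * j (MvPolynomial.X 1) ^ (p - 1) - j h) •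
        KaehlerDifferential.D ℤ L (j (MvPolynomial.X 1)),
        j h • KaehlerDifferential.D ℤ L (j (MvPolynomial.X 1)))) := by
    rw [Prod.mk_add_mk, Prod.mk_add_mk, Prod.mk.injEq]
    constructor
    · rw [D_poly j c]
      unfold form
      simp only [map_add, map_sub, map_mul, map_pow]
      module
    · unfold form
      rw [zero_add]
  rw [e]
  exact add_mem (AddSubgroup.subset_closure (Or.inl ⟨_, rfl⟩))
    (add_mem (gp_one _ _) (gp_one _ _))

theorem t_GP1 : S_GP1 := by
  intro p hp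
  exact ⟨fun E _ ω hω => gp_exists ω hω, fun E _ ω η h => gp_fst (ω, η) h,
    fun F _ _ _ E _ _ j c g h => gp_data j c g h⟩

end one

theorem t_GP2 : S_JAC → S_GP2 := by
  intro jac p hp E _ _ θ D hθ hD hc ω η hω
  have : ExpChar E p := ExpChar.prime hp.out
  refine AddSubgroup.closure_induction (p := fun (x : Ω[E⁄ℤ] × Ω[E⁄ℤ]) _ =>
    (θ.liftKaehlerDifferential x.2) ^ p =
      (θ.liftKaehlerDifferential x.1 + θ.liftKaehlerDifferential x.2) -
      (⇑θ)^[p - 1] (θ.liftKaehlerDifferential x.1 + θ.liftKaehlerDifferential x.2) ∧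
    (D.liftKaehlerDifferential x.2) ^ p =
      -(⇑D)^[p - 1] (D.liftKaehlerDifferential x.1 + D.liftKaehlerDifferential x.2) ∧
    θ (D.liftKaehlerDifferential x.1 + D.liftKaehlerDifferential x.2) =
      D (θ.liftKaehlerDifferential x.1 + θ.liftKaehlerDifferential x.2))
    ?_ ?_ ?_ ?_ hω
  · rintro x (⟨h, rfl⟩ | ⟨a, b, hb, rfl⟩)
    · dsimp only
      refine ⟨?_, ?_, ?_⟩
      · rw [Derivation.liftKaehlerDifferential_comp_D, map_zero, zero_pow hp.out.ne_zero, add_zero,
          iter_sub_one, hθ, sub_self]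
      · rw [Derivation.liftKaehlerDifferential_comp_D, map_zero, zero_pow hp.out.ne_zero, add_zero,
          iter_sub_one, hD, neg_zero]
      · rw [Derivation.liftKaehlerDifferential_comp_D, Derivation.liftKaehlerDifferential_comp_D,
          map_zero, map_zero, add_zero, add_zero, hc]
    · dsimp only
      have l1 := log_pow (p := p) jac θ b hb
      have l2 := log_pow (p := p) jac D b hb
      rw [hθ] at l1
      rw [hD, zero_div] at l2
      have s1 : θ.liftKaehlerDifferential ((a * b⁻¹) • KaehlerDifferential.D ℤ E b) =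
          a * (θ b / b) := by
        rw [map_smul, Derivation.liftKaehlerDifferential_comp_D, smul_eq_mul]
        field_simp
      have s2 : D.liftKaehlerDifferential ((a * b⁻¹) • KaehlerDifferential.D ℤ E b) =
          a * (D b / b) := by
        rw [map_smul, Derivation.liftKaehlerDifferential_comp_D, smul_eq_mul]
        field_simp
      have e1 : θ.liftKaehlerDifferential (((a ^ p - a) * b⁻¹) • KaehlerDifferential.D ℤ E b) +
          a * (θ b / b) = a ^ p * (θ b / b) := by
        rw [map_smul, Derivation.liftKaehlerDifferential_comp_D, smul_eq_mul]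
        field_simp
        ring
      have e2 : D.liftKaehlerDifferential (((a ^ p - a) * b⁻¹) • KaehlerDifferential.D ℤ E b) +
          a * (D b / b) = a ^ p * (D b / b) := by
        rw [map_smul, Derivation.liftKaehlerDifferential_comp_D, smul_eq_mul]
        field_simp
        ring
      rw [s1, s2]
      refine ⟨?_, ?_, ?_⟩
      · rw [e1, iter_mul_const θ _ _ _ (pow_const θ a), mul_pow]
        linear_combination (a ^ p) * l1
      · rw [e2, iter_mul_const D _ _ _ (pow_const D a), mul_pow]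
        linear_combination (a ^ p) * l2
      · rw [e1, e2, Derivation.leibniz, Derivation.leibniz, pow_const, pow_const, smul_zero,
          smul_zero, add_zero, add_zero, smul_eq_mul, smul_eq_mul]
        congr 1
        rw [div_eq_mul_inv, div_eq_mul_inv, Derivation.leibniz, Derivation.leibniz,
          Derivation.leibniz_inv, Derivation.leibniz_inv, hc]
        simp only [smul_eq_mul]
        ring
  · dsimp only [Prod.fst_zero, Prod.snd_zero]
    refine ⟨?_, ?_, ?_⟩
    · rw [map_zero, add_zero, iter_zero, zero_pow hp.out.ne_zero, sub_zero]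
    · rw [map_zero, add_zero, iter_zero, zero_pow hp.out.ne_zero, neg_zero]
    · rw [map_zero, map_zero, add_zero, map_zero, map_zero]
  · rintro ⟨a, η₁⟩ ⟨b, η₁'⟩ _ _ ⟨e1, e2, e3⟩ ⟨e1', e2', e3'⟩
    dsimp only [Prod.mk_add_mk] at e1 e2 e3 e1' e2' e3' ⊢
    have t1 : θ.liftKaehlerDifferential (a + b) + θ.liftKaehlerDifferential (η₁ + η₁') =
        (θ.liftKaehlerDifferential a + θ.liftKaehlerDifferential η₁) +
          (θ.liftKaehlerDifferential b + θ.liftKaehlerDifferential η₁') := by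
      rw [map_add, map_add]; ring
    have t2 : D.liftKaehlerDifferential (a + b) + D.liftKaehlerDifferential (η₁ + η₁') =
        (D.liftKaehlerDifferential a + D.liftKaehlerDifferential η₁) +
          (D.liftKaehlerDifferential b + D.liftKaehlerDifferential η₁') := by
      rw [map_add, map_add]; ring
    refine ⟨?_, ?_, ?_⟩
    · rw [t1, iter_add θ _ (θ.liftKaehlerDifferential a + θ.liftKaehlerDifferential η₁),
        map_add θ.liftKaehlerDifferential η₁ η₁', add_pow_expChar, e1, e1']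
      ring
    · rw [t2, iter_add D _ (D.liftKaehlerDifferential a + D.liftKaehlerDifferential η₁),
        map_add D.liftKaehlerDifferential η₁ η₁', add_pow_expChar, e2, e2']
      ring
    · rw [t1, t2, map_add θ, map_add D, e3, e3']
  · rintro ⟨a, η₁⟩ _ ⟨e1, e2, e3⟩
    dsimp only [Prod.neg_mk] at e1 e2 e3 ⊢
    have hneg : ∀ z : E, (-z) ^ p = -z ^ p := fun z => by
      rcases hp.out.eq_two_or_odd' with h2 | ho
      · subst h2
        have : (-z) ^ 2 = z ^ 2 := by ring
        rw [this]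
        exact (CharTwo.neg_eq _).symm
      · exact ho.neg_pow z
    have t1 : θ.liftKaehlerDifferential (-a) + θ.liftKaehlerDifferential (-η₁) =
        -(θ.liftKaehlerDifferential a + θ.liftKaehlerDifferential η₁) := by
      rw [map_neg, map_neg]; ring
    have t2 : D.liftKaehlerDifferential (-a) + D.liftKaehlerDifferential (-η₁) =
        -(D.liftKaehlerDifferential a + D.liftKaehlerDifferential η₁) := by
      rw [map_neg, map_neg]; ring
    refine ⟨?_, ?_, ?_⟩
    · rw [t1, iter_neg, map_neg θ.liftKaehlerDifferential η₁, hneg, e1]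
      ring
    · rw [t2, iter_neg, map_neg D.liftKaehlerDifferential η₁, hneg, e2]
    · rw [t1, t2, map_neg, map_neg, e3]

theorem t_GP3 : S_GP3 := by
  intro p hp K E _ _ Ψ D D' hDD x t a b η h
  letI := Ψ.toAlgebra
  let M : Ω[K⁄ℤ] →ₗ[K] Ω[E⁄ℤ] := KaehlerDifferential.map ℤ ℤ K E
  have hM : ∀ z : K, M (KaehlerDifferential.D ℤ K z) = KaehlerDifferential.D ℤ E (Ψ z) :=
    fun z => KaehlerDifferential.map_D ℤ ℤ K E z
  have hs : ∀ (c : K) (ω : Ω[K⁄ℤ]), M (c • ω) = Ψ c • M ω := fun c ω => by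
    rw [map_smul]; rfl
  have key : ∀ y : Ω[K⁄ℤ] × Ω[K⁄ℤ], y ∈ GP p K → (M y.1, M y.2) ∈ GP p E ∧
      D'.liftKaehlerDifferential (M y.2) = Ψ (D.liftKaehlerDifferential y.2) := by
    intro y hy
    refine AddSubgroup.closure_induction (p := fun (y : Ω[K⁄ℤ] × Ω[K⁄ℤ]) _ =>
      (M y.1, M y.2) ∈ GP p E ∧
      D'.liftKaehlerDifferential (M y.2) = Ψ (D.liftKaehlerDifferential y.2)) ?_ ?_ ?_ ?_ hy
    · rintro y (⟨h, rfl⟩ | ⟨a, b, hb, rfl⟩)
      · dsimp only
        rw [hM, map_zero, map_zero, map_zero, map_zero]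
        exact ⟨AddSubgroup.subset_closure (Or.inl ⟨_, rfl⟩), rfl⟩
      · dsimp only
        rw [hs, hM, hs, hM]
        refine ⟨AddSubgroup.subset_closure (Or.inr ⟨Ψ a, Ψ b, ?_, ?_⟩), ?_⟩
        · exact fun h0 => hb (Ψ.injective (by rw [h0, map_zero]))
        · rw [map_mul, map_sub, map_pow, map_inv₀, map_mul, map_inv₀]
        · rw [map_smul, map_smul, Derivation.liftKaehlerDifferential_comp_D,
            Derivation.liftKaehlerDifferential_comp_D, smul_eq_mul, smul_eq_mul, hDD]
          simp only [map_mul]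
    · dsimp only [Prod.fst_zero, Prod.snd_zero]
      rw [map_zero, map_zero, map_zero, map_zero]
      exact ⟨zero_mem _, rfl⟩
    · rintro ⟨a, a'⟩ ⟨b, b'⟩ _ _ ⟨ha, ha'⟩ ⟨hb, hb'⟩
      dsimp only [Prod.mk_add_mk] at ha ha' hb hb' ⊢
      refine ⟨?_, ?_⟩
      · rw [map_add, map_add]
        exact add_mem ha hb
      · rw [map_add, map_add, map_add, map_add, ha', hb']
    · rintro ⟨a, a'⟩ _ ⟨ha, ha'⟩
      dsimp only [Prod.neg_mk] at ha ha' ⊢
      refine ⟨?_, ?_⟩
      · rw [map_neg, map_neg]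
        exact neg_mem ha
      · rw [map_neg, map_neg, map_neg, map_neg, ha']
  obtain ⟨h1, h2⟩ := key _ h
  refine ⟨M η, ?_, h2⟩
  have h3 : M (form x t a b) = form (Ψ x) (Ψ t) (Ψ a) (Ψ b) := by
    unfold form
    rw [map_add, hs, hs, hM, hM]
  dsimp only at h1
  rwa [h3] at h1

end Pool.Agent.K3h46.AS
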