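import Pool.Agent.K3h46.AS.Red2

/-! # Project AS2: the key relation, preparations -/

set_option autoImplicit false
set_option linter.all false

open scoped KaehlerDifferential

namespace Pool.Agent.K3h46.AS

/-! ## Coefficientwise maps -/

section lmap

variable {R S : Type} [Field R] [Field S]

/-- The coefficientwise map. -/
noncomputable def lmap (φ : R →+* S) : LaurentSeries R →+* LaurentSeries S where
  toFun z := HahnSeries.map z φ
  map_one' := HahnSeries.ext (funext fun n => by
    rw [HahnSeries.map_coeff, HahnSeries.coeff_one, HahnSeries.coeff_one]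
    split_ifs
    · exact map_one φ
    · exact map_zero φ)
  map_zero' := HahnSeries.ext (funext fun n => by
    rw [HahnSeries.map_coeff, HahnSeries.coeff_zero, HahnSeries.coeff_zero, map_zero])
  map_add' x y := HahnSeries.ext (funext fun n => by
    rw [HahnSeries.map_coeff, HahnSeries.coeff_add, HahnSeries.coeff_add, map_add,
      HahnSeries.map_coeff, HahnSeries.map_coeff])
  map_mul' x y := by
    have h := HahnSeries.map_mul (φ : R →ₙ+* S) (x := x) (y := y)
    exact h

theorem lmap_coeff (φ : R →+* S) (z : LaurentSeries R) (n : ℤ) :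
    (lmap φ z).coeff n = φ (z.coeff n) := rfl

theorem lmap_C (φ : R →+* S) (a : R) : lmap φ (HahnSeries.C a) = HahnSeries.C (φ a) := by
  refine HahnSeries.ext (funext fun n => ?_)
  rw [lmap_coeff, HahnSeries.C_apply, HahnSeries.C_apply, HahnSeries.coeff_single,
    HahnSeries.coeff_single]
  split_ifs
  · rfl
  · exact map_zero φ

theorem lmap_single (φ : R →+* S) (m : ℤ) (a : R) :
    lmap φ (HahnSeries.single m a) = HahnSeries.single m (φ a) := by
  refine HahnSeries.ext (funext fun n => ?_)
  rw [lmap_coeff, HahnSeries.coeff_single, HahnSeries.coeff_single]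
  split_ifs
  · rfl
  · exact map_zero φ

end lmap

section ev

variable {F κ κ' : Type} [Field F] [Field κ] [Field κ']

theorem ev_comp (ι : Polynomial F →+* κ) (I : κ →+* κ') (Θ : LaurentSeries κ →+* LaurentSeries κ')
    (hΘ : ∀ a, Θ (HahnSeries.C a) = HahnSeries.C (I a)) (x : LaurentSeries κ)
    (a : MvPolynomial (Fin 2) F) : Θ (ev ι x a) = ev (I.comp ι) (Θ x) a := by
  have h : Θ.comp (ev ι x) = ev (I.comp ι) (Θ x) := by
    refine MvPolynomial.ringHom_ext (fun c => ?_) (fun i => ?_)
    · simp only [RingHom.comp_apply, ev, MvPolynomial.coe_eval₂Hom, MvPolynomial.eval₂_C, hΘ]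
    · fin_cases i
      · simp [ev]
      · rw [RingHom.comp_apply]
        show Θ (ev ι x (MvPolynomial.X 1)) = ev (I.comp ι) (Θ x) (MvPolynomial.X 1)
        rw [ev_X1, ev_X1, map_mul, hΘ]; rfl
  rw [← h]; rfl

theorem point_map {p d : ℕ} {f : MvPolynomial (Fin 2) F} (ι : Polynomial F →+* κ) (I : κ →+* κ')
    {x : LaurentSeries κ} (hx : IsPt p d f ι x) : IsPt p d f (I.comp ι) (lmap I x) := by
  refine ⟨fun n hn => ?_, ?_, ?_⟩
  · rw [lmap_coeff, hx.low n hn, map_zero]
  · rw [lmap_coeff, hx.top, map_pow]; rfl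
  · rw [← ev_comp ι I (lmap I) (lmap_C I), hx.eq, map_sub, map_pow, lmap_single, map_pow]; rfl

end ev

/-! ## The coefficient of degree `0` -/

section coeff0

theorem coeff_order_ne {κ : Type} [Field κ] {b : LaurentSeries κ} (hb : b ≠ 0) :
    b.coeff b.order ≠ 0 := by
  exact fun h => hb (HahnSeries.coeff_order_eq_zero.mp h)

variable {p : ℕ} [hp : Fact p.Prime] {κ : Type} [Field κ] [CharP κ p]

theorem coeff_zero_pow (b : LaurentSeries κ) (hb : ∀ n : ℤ, n < 0 → b.coeff n = 0) :
    (b ^ p).coeff 0 = b.coeff 0 ^ p := by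
  have cE : CharP (LaurentSeries κ) p := charP_laurent
  have : ExpChar (LaurentSeries κ) p := ExpChar.prime hp.out
  have h1 : b = HahnSeries.C (b.coeff 0) + (b - HahnSeries.C (b.coeff 0)) := by ring
  have h2 : ∀ n : ℤ, n ≤ 0 → (b - HahnSeries.C (b.coeff 0)).coeff n = 0 := by
    intro n hn
    rw [HahnSeries.coeff_sub, HahnSeries.C_apply, HahnSeries.coeff_single]
    split_ifs with h
    · rw [h, sub_self]
    · rw [sub_zero]; exact hb n (lt_of_le_of_ne hn h)
  have h3 : ((b - HahnSeries.C (b.coeff 0)) ^ p).coeff 0 = 0 := by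
    by_cases h0 : b - HahnSeries.C (b.coeff 0) = 0
    · rw [h0, zero_pow hp.out.ne_zero, HahnSeries.coeff_zero]
    · apply HahnSeries.coeff_eq_zero_of_lt_order
      rw [HahnSeries.order_pow]
      have h4 : 0 < (b - HahnSeries.C (b.coeff 0)).order := by
        by_contra hcon
        exact coeff_order_ne h0 (h2 _ (not_lt.mp hcon))
      have : 0 < (p : ℤ) := by exact_mod_cast hp.out.pos
      simp only [nsmul_eq_mul]
      positivity
  conv_lhs => rw [h1]
  rw [add_pow_expChar, HahnSeries.coeff_add, h3, add_zero, ← map_pow, HahnSeries.C_apply,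
    HahnSeries.coeff_single_same]

theorem coeff_zero_eq (δ : Derivation ℤ κ κ)
    (Δ : Derivation ℤ (LaurentSeries κ) (LaurentSeries κ))
    (hΔ : ∀ (z : LaurentSeries κ) (n : ℤ), (Δ z).coeff n = δ (z.coeff n)) (b : LaurentSeries κ)
    (hb : b ^ p = -(⇑Δ)^[p - 1] b) : b.coeff 0 ^ p = -(⇑δ)^[p - 1] (b.coeff 0) := by
  have hz : ∀ k : ℕ, (⇑δ)^[k] 0 = 0 := by
    intro k
    induction k with
    | zero => rfl
    | succ k ih => rw [Function.iterate_succ_apply, map_zero, ih]
  have h1 : ∀ n : ℤ, n < 0 → b.coeff n = 0 := by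
    intro n hn
    by_contra hcon
    have h0 : b ≠ 0 := fun h => hcon (by rw [h, HahnSeries.coeff_zero])
    have h2 : b.order ≤ n := HahnSeries.order_le_of_coeff_ne_zero hcon
    have h3 : (b ^ p).coeff (b ^ p).order ≠ 0 :=
      coeff_order_ne (pow_ne_zero _ h0)
    apply h3
    rw [HahnSeries.order_pow, hb, HahnSeries.coeff_neg, theta_iter (p := p) δ Δ hΔ,
      HahnSeries.coeff_eq_zero_of_lt_order, hz, neg_zero]
    have h4 : (2 : ℤ) ≤ p := by exact_mod_cast hp.out.two_le
    simp only [nsmul_eq_mul]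
    nlinarith
  have h5 := congrArg (fun z : LaurentSeries κ => z.coeff 0) hb
  rw [coeff_zero_pow b h1, HahnSeries.coeff_neg, theta_iter (p := p) δ Δ hΔ] at h5
  exact h5

end coeff0

end Pool.Agent.K3h46.AS
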