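import Pool.Agent.K3h46.AS.Key2

/-! # Project AS2: the key relation, the local fields -/

set_option autoImplicit false
set_option linter.all false

open scoped KaehlerDifferential

namespace Pool.Agent.K3h46.AS

section pair

variable {p : ℕ} [hp : Fact p.Prime] {F : Type} [Field F] [CharP F p]

/-- The two fields `κ ⊂ κ'` attached to an irreducible factor `ψ` of `φ`. -/
structure Pair (p : ℕ) (e : F) (ψ : Polynomial F) {κ κ' : Type} [Field κ] [Field κ'] (I : κ →+* κ')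
    (ι : Polynomial F →+* κ) (δ : Derivation ℤ κ κ) (δ' : Derivation ℤ κ' κ') (θ₀ : κ') :
    Prop where
  hι : Function.Injective ι
  hδ : ∀ g, δ (ι g) = ι (Polynomial.derivative g)
  hδp : ∀ z, (⇑δ)^[p] z = 0
  hδp' : ∀ z, (⇑δ')^[p] z = 0
  hI : ∀ z, δ' (I z) = I (δ z)
  hθ : δ' θ₀ = 0
  hθ₀ : θ₀ ^ p - θ₀ = I (ι (Polynomial.C e))
  res : ∀ (φ G : Polynomial F) (y : κ), Squarefree φ → ψ ∣ φ →
    (I y + θ₀ * I (ι G / ι φ)) ^ p = -(⇑δ')^[p - 1] (I y + θ₀ * I (ι G / ι φ)) → ψ ∣ G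

theorem exists_pair (B : Bricks) [PerfectRing F p] (e : F) (he : ∀ a : F, a ^ p - a ≠ e)
    (ψ : Polynomial F) (hψ : Irreducible ψ) (hdψ : ψ.natDegree < p) :
    ∃ (κ κ' : Type) (_ : Field κ) (_ : Field κ') (_ : CharP κ p) (_ : CharP κ' p) (I : κ →+* κ')
      (ι : Polynomial F →+* κ) (δ : Derivation ℤ κ κ) (δ' : Derivation ℤ κ' κ') (θ₀ : κ'),
      Pair p e ψ I ι δ δ' θ₀ := by
  obtain ⟨F₁, F₂, _, _, _, _, i, j, ρ, θ₀, hρ, hθ₀, hnot⟩ := B.fld p F e ψ he hψ hdψ
  obtain ⟨ι, δ, hι, hιC, hιX, hδc, hδι, hδp, hres⟩ := B.ldr p F F₁ i ρ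
  obtain ⟨ι', δ', hι', hιC', hιX', hδc', hδι', hδp', -⟩ := B.ldr p F F₂ (j.comp i) (j ρ)
  have c1 : CharP (LaurentSeries F₁) p := charP_laurent
  have c2 : CharP (LaurentSeries F₂) p := charP_laurent
  let δ₀ : LaurentSeries F₁ →+ LaurentSeries F₁ :=
    { toFun := δ, map_zero' := map_zero δ, map_add' := map_add δ }
  let δ₀' : LaurentSeries F₂ →+ LaurentSeries F₂ :=
    { toFun := δ', map_zero' := map_zero δ', map_add' := map_add δ' }
  obtain ⟨D, hD⟩ := GDer.exists_of δ₀ (fun a b => by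
      show δ (a * b) = a * δ b + b * δ a
      rw [Derivation.leibniz, smul_eq_mul, smul_eq_mul])
  obtain ⟨D', hD'⟩ := GDer.exists_of δ₀' (fun a b => by
      show δ' (a * b) = a * δ' b + b * δ' a
      rw [Derivation.leibniz, smul_eq_mul, smul_eq_mul])
  have eD : ∀ z, D.app z = δ z := hD
  have eD' : ∀ z, D'.app z = δ' z := hD'
  have fD : D.app = ⇑δ := funext eD
  have fD' : D'.app = ⇑δ' := funext eD'
  have hcomp : ι' = (lmap j).comp ι := by
    refine Polynomial.ringHom_ext (fun a => ?_) ?_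
    · rw [hιC', RingHom.comp_apply (lmap j) ι, hιC, lmap_C]; rfl
    · rw [hιX', RingHom.comp_apply, hιX, map_add, lmap_C, lmap_single, map_one j]
  have k1 : ∀ g, D.app (ι g) = ι (Polynomial.derivative g) := fun g => by rw [eD, hδι]
  have k2 : ∀ z, D.app^[p] z = 0 := fun z => by rw [fD, hδp]
  have k3 : ∀ z, D'.app^[p] z = 0 := fun z => by rw [fD', hδp']
  have k4 : ∀ z, D'.app (lmap j z) = lmap j (D.app z) := fun z => by
    rw [eD, eD']
    refine HahnSeries.ext (funext fun n => ?_)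
    rw [hδc', lmap_coeff, lmap_coeff, hδc, map_mul, map_intCast]
  have k5 : D'.app (HahnSeries.C θ₀) = 0 := by
    rw [eD']
    refine HahnSeries.ext (funext fun n => ?_)
    rw [hδc', HahnSeries.C_apply, HahnSeries.coeff_single, HahnSeries.coeff_zero]
    split_ifs with h
    · rw [h, Int.cast_zero, zero_mul]
    · rw [mul_zero]
  have k6 : (HahnSeries.C θ₀ : LaurentSeries F₂) ^ p - HahnSeries.C θ₀ =
      lmap j (ι (Polynomial.C e)) := by
    rw [hιC, lmap_C, ← map_pow, ← map_sub, hθ₀]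
  have k7 : ∀ (φ G : Polynomial F) (y : LaurentSeries F₁), Squarefree φ → ψ ∣ φ →
      (lmap j y + HahnSeries.C θ₀ * lmap j (ι G / ι φ)) ^ p =
        -D'.app^[p - 1] (lmap j y + HahnSeries.C θ₀ * lmap j (ι G / ι φ)) → ψ ∣ G := by
    intro φ G y hφ hψφ hb
    rw [fD'] at hb
    obtain ⟨n, hn⟩ := B.res p F₂ δ' hδc' _ hb
    have hφρ : (φ.map i).eval ρ = 0 := by
      obtain ⟨χ, rfl⟩ := hψφ
      rw [Polynomial.map_mul, Polynomial.eval_mul, hρ, zero_mul]
    obtain ⟨r1, r2⟩ := hres φ G hφ inferInstance hφρ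
    have h1 : (HahnSeries.C θ₀ * lmap j (ι G / ι φ)).coeff (-1) =
        θ₀ * j ((ι G / ι φ).coeff (-1)) := by
      rw [HahnSeries.C_mul_eq_smul, HahnSeries.coeff_smul, smul_eq_mul, lmap_coeff]
    rw [HahnSeries.coeff_add, lmap_coeff, h1] at hn
    have h2 : (ι G / ι φ).coeff (-1) = 0 := by
      by_contra h0
      apply hnot (((n : F₁) - y.coeff (-1)) / (ι G / ι φ).coeff (-1))
      have h3 : j ((ι G / ι φ).coeff (-1)) ≠ 0 := fun h => h0 (j.injective (by rw [h, map_zero]))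
      rw [map_div₀, map_sub, map_natCast, div_eq_iff h3, ← hn]
      ring
    have h4 := r2 h2
    -- `ψ` divides `G`
    by_contra hdiv
    have hcop : IsCoprime ψ G := (hψ.coprime_iff_not_dvd).mpr hdiv
    obtain ⟨u, v, huv⟩ := hcop
    have h5 := congrArg (fun q : Polynomial F => (q.map i).eval ρ) huv
    simp only [Polynomial.map_add, Polynomial.map_mul, Polynomial.eval_add, Polynomial.eval_mul,
      Polynomial.map_one, Polynomial.eval_one, hρ, h4, mul_zero, add_zero] at h5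
    exact zero_ne_one h5
  exact ⟨LaurentSeries F₁, LaurentSeries F₂, inferInstance, inferInstance, c1, c2, lmap j, ι, D, D',
    HahnSeries.C θ₀, ⟨hι, k1, k2, k3, k4, k5, k6, k7⟩⟩

end pair

section transport

variable {p : ℕ} [hp : Fact p.Prime] {F : Type} [Field F] [CharP F p]

theorem lead_add_C {d : ℕ} (hd : 0 < d) (f : MvPolynomial (Fin 2) F) (c : F) :
    lead d (f + MvPolynomial.C c) = lead d f := by
  have h : MvPolynomial.homogeneousComponent d (MvPolynomial.C c : MvPolynomial (Fin 2) F) = 0 := by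
    rw [MvPolynomial.homogeneousComponent_of_mem (MvPolynomial.isHomogeneous_C (Fin 2) c),
      if_neg hd.ne']
  unfold lead
  rw [map_add (MvPolynomial.homogeneousComponent d), h, add_zero]

theorem deg_add_C {d : ℕ} {f : MvPolynomial (Fin 2) F} (hf : f.totalDegree ≤ d) (c : F) :
    (f + MvPolynomial.C c).totalDegree ≤ d :=
  (MvPolynomial.totalDegree_add _ _).trans (max_le hf (by rw [MvPolynomial.totalDegree_C]; simp))

theorem nat_pow (p : ℕ) [hp : Fact p.Prime] {κ : Type} [Field κ] [CharP κ p] (n : ℕ) :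
    (n : κ) ^ p = (n : κ) := by
  have h := int_pow (p := p) (κ := κ) (n : ℤ)
  simpa using h

theorem der_pow {κ : Type} [Field κ] [CharP κ p] (δ : Derivation ℤ κ κ) (z : κ) :
    δ (z ^ p) = 0 := by
  rw [Derivation.leibniz_pow, ← Nat.cast_smul_eq_nsmul κ, CharP.cast_eq_zero, zero_smul]

/-- The transport of a pair from the curve `f + c` to the curve `f` over `κ'`. -/
theorem transport (B : Bricks) {d : ℕ} (hd : 0 < d) (hdp : d ∣ p - 1)
    {f : MvPolynomial (Fin 2) F} (hdeg : f.totalDegree ≤ d) (hl : lead d f ≠ 0)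
    {e : F} {ψ : Polynomial F} {κ κ' : Type} [Field κ] [Field κ'] [CharP κ p] [CharP κ' p]
    {I : κ →+* κ'} {ι : Polynomial F →+* κ} {δ : Derivation ℤ κ κ} {δ' : Derivation ℤ κ' κ'}
    {θ₀ : κ'} (P : Pair p e ψ I ι δ δ' θ₀)
    {θ Δ : Derivation ℤ (LaurentSeries κ) (LaurentSeries κ)} {T D : GDer (LaurentSeries κ)}
    (hs : Ders p δ θ Δ T D)
    {θ' Δ' : Derivation ℤ (LaurentSeries κ') (LaurentSeries κ')} {T' D' : GDer (LaurentSeries κ')}
    (hs' : Ders p δ' θ' Δ' T' D') (X : LaurentSeries κ') (hX : IsPt p d f (I.comp ι) X)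
    (t : ℕ) (α : F) (a b : MvPolynomial (Fin 2) F) (ha : a.totalDegree ≤ d - 1)
    (hb : b.totalDegree ≤ d - 1)
    (h : InfTriv p (f + MvPolynomial.C ((t : F) * e + (α ^ p - α))) a b) :
    ∃ (η : GOm (LaurentSeries κ')) (y : κ),
      (form (ev (I.comp ι) X (MvPolynomial.X 0)) (ev (I.comp ι) X (MvPolynomial.X 1))
        (ev (I.comp ι) X a) (ev (I.comp ι) X b), η) ∈ GP p (LaurentSeries κ') ∧
      (d : κ') * (D'.lft η).coeff 0 =
        I y + θ₀ * I (ι ((t : Polynomial F) * gP (d - 1) a b) / ι (lead d f)) := by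
  set c₀ : F := (t : F) * e + (α ^ p - α) with hc₀
  have hl' : lead d (f + MvPolynomial.C c₀) = lead d f := lead_add_C hd f c₀
  have hl1 : lead d (f + MvPolynomial.C c₀) ≠ 0 := by rw [hl']; exact hl
  have hdeg' := deg_add_C hdeg c₀
  have hι' : Function.Injective (I.comp ι) := I.injective.comp P.hι
  have hlι : ι (lead d f) ≠ 0 := fun h => hl (P.hι (by rw [h, map_zero]))
  have hdκ : (d : κ') ≠ 0 := by
    intro h0
    have := (CharP.cast_eq_zero_iff κ' p d).mp h0
    have h2 := Nat.le_of_dvd (Nat.sub_pos_of_lt hp.out.one_lt) hdp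
    have h3 := Nat.le_of_dvd hd this
    have := hp.out.pos
    omega
  obtain ⟨x, hx⟩ := Pool.Agent.K3h17.AS.t_HEN p d F _ hd hdp hdeg' hl1 κ ι P.hι
  have h1 := infTriv_ev hd hdp hl1 h ι P.hι x hx
  obtain ⟨η, hη⟩ := (B.gp1 p).1 (LaurentSeries κ) _ h1
  have han := (ana B hd hdp hdeg' hl1 ι P.hι δ P.hδ P.hδp hs x hx (d - 1) a b ha hb η hη).2.2
    (by omega)
  obtain ⟨-, an1, an2⟩ := han
  -- the constant
  set θj : κ' := (t : κ') * θ₀ + I (ι (Polynomial.C α)) with hθj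
  have hθjeq : θj ^ p - θj = I (ι (Polynomial.C c₀)) := by
    have : ExpChar κ' p := ExpChar.prime hp.out
    rw [hθj, add_pow_expChar, mul_pow, nat_pow p, ← map_pow, ← map_pow, ← Polynomial.C_pow, hc₀]
    have h5 : I (ι (Polynomial.C ((t : F) * e + (α ^ p - α)))) =
        (t : κ') * I (ι (Polynomial.C e)) + (I (ι (Polynomial.C (α ^ p))) -
          I (ι (Polynomial.C α))) := by
      rw [Polynomial.C_add, Polynomial.C_mul, Polynomial.C_sub, map_natCast, map_add, map_mul,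
        map_sub, map_natCast, map_add, map_mul, map_sub, map_natCast]
    rw [h5, ← P.hθ₀]
    ring
  have hθjd : δ' θj = 0 := by
    rw [hθj, map_add, Derivation.leibniz, P.hθ, Derivation.map_natCast, smul_zero, smul_zero,
      add_zero, P.hI, P.hδ, Polynomial.derivative_C, map_zero, map_zero, add_zero]
  set c : κ' := θj * ((I (ι (lead d f)))⁻¹) ^ p with hc
  have hcd : δ' c = 0 := by
    rw [hc, Derivation.leibniz, der_pow, hθjd, smul_zero, smul_zero, add_zero]
  have hlI : I (ι (lead d f)) ≠ 0 := fun h => hlι (I.injective (by rw [h, map_zero]))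
  have hcI : c * I (ι (lead d f)) ^ p = θj := by
    rw [hc, mul_assoc, ← mul_pow, inv_mul_cancel₀ hlI, one_pow, mul_one]
  obtain ⟨Θ, t1, t2, t3, t4, t5⟩ := B.sub κ κ' I δ δ' c d P.hI hcd hd hdκ Δ Δ' hs.hΔ hs'.hΔ
  -- the image of the point
  have hW : Θ (HahnSeries.single (-(d : ℤ)) (ι (lead d f) ^ p)) =
      HahnSeries.single (-(d : ℤ)) (I (ι (lead d f)) ^ p) + HahnSeries.C θj := by
    rw [t2, map_pow, hcI]
  have hpt : IsPt p d f (I.comp ι) (Θ x) := by
    refine ⟨(t3 x (-(p : ℤ)) (fun n hn => hx.low n hn)).1, ?_, ?_⟩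
    · rw [(t3 x (-(p : ℤ)) (fun n hn => hx.low n hn)).2, hx.top, hl', map_pow]; rfl
    · have e1 := congrArg Θ hx.eq
      have cE : CharP (LaurentSeries κ') p := charP_laurent
      have : ExpChar (LaurentSeries κ') p := ExpChar.prime hp.out
      rw [hl', map_sub Θ, map_pow Θ, hW, map_add (ev ι x), map_add Θ, ev_comp ι I Θ t1,
        ev_comp ι I Θ t1, add_pow_expChar] at e1
      have e2 : ev (I.comp ι) (Θ x) (MvPolynomial.C c₀) = HahnSeries.C (θj ^ p - θj) := by
        rw [hθjeq]; simp [ev]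
      rw [e2, map_sub, map_pow] at e1
      rw [RingHom.comp_apply]
      linear_combination e1
  have hXx : Θ x = X := B.uni p d F f hd hdp hdeg hl κ' (I.comp ι) hι' _ _ hpt hX
  -- transport
  have hD : ∀ z, D'.app (Θ z) = Θ (D.app z) := fun z => by rw [hs'.eD, hs.eD, t5]
  obtain ⟨η', g1, g2⟩ := gp3' B.gp3 Θ D D' hD _ _ _ _ η hη
  rw [ev_comp ι I Θ t1, ev_comp ι I Θ t1, ev_comp ι I Θ t1, ev_comp ι I Θ t1, hXx] at g1
  have hlow : ∀ n : ℤ, n < -(d : ℤ) → (D.lft η).coeff n = 0 := an1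
  refine ⟨η', (d : κ) * (D.lft η).coeff 0 + ι (Polynomial.C α) *
    (ι (gP (d - 1) a b) / ι (lead d f)), g1, ?_⟩
  rw [g2, t4 _ hlow]
  rw [hl'] at an2
  have e3 : (d : κ') * (c * I ((D.lft η).coeff (-(d : ℤ)))) =
      θj * I (ι (gP (d - 1) a b) / ι (lead d f)) := by
    have e4 : (d : κ') * I ((D.lft η).coeff (-(d : ℤ))) =
        I (ι (lead d f)) ^ (p - 1) * I (ι (gP (d - 1) a b)) := by
      rw [← map_natCast I, ← map_mul, an2, map_mul, map_mul, map_pow, map_pow]
    have e5 : c * I (ι (lead d f)) ^ (p - 1) * I (ι (lead d f)) = θj := by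
      rw [mul_assoc, ← pow_succ, Nat.sub_add_cancel hp.out.one_le, hcI]
    rw [map_div₀, mul_div_assoc', eq_div_iff hlI]
    calc (d : κ') * (c * I ((D.lft η).coeff (-(d : ℤ)))) * I (ι (lead d f))
        = c * ((d : κ') * I ((D.lft η).coeff (-(d : ℤ)))) * I (ι (lead d f)) := by ring
      _ = c * I (ι (lead d f)) ^ (p - 1) * I (ι (lead d f)) * I (ι (gP (d - 1) a b)) := by
          rw [e4]; ring
      _ = θj * I (ι (gP (d - 1) a b)) := by rw [e5]
  rw [mul_add, e3, hθj, map_add, map_mul, map_natCast, map_mul, map_mul ι, map_natCast,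
    map_div₀ I, map_div₀ I, map_mul I (t : κ), map_natCast]
  ring

end transport

end Pool.Agent.K3h46.AS
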