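import Pool.Agent.K3h46.AS.Key3

/-! # Project AS2: the key relation and the count -/

set_option autoImplicit false
set_option linter.all false

open scoped KaehlerDifferential

namespace Pool.Agent.K3h46.AS

section sums

theorem form_sum {S : Type} [CommRing S] (x t : S) {s : ℕ} (c : Fin s → ℕ) (a b : Fin s → S) :
    form x t (∑ j, (c j : S) * a j) (∑ j, (c j : S) * b j) = ∑ j, c j • form x t (a j) (b j) := by
  unfold form
  simp only [smul_add, Finset.sum_add_distrib, Finset.sum_smul]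
  congr 1
  · refine Finset.sum_congr rfl fun j _ => ?_
    rw [mul_smul, Nat.cast_smul_eq_nsmul]
  · refine Finset.sum_congr rfl fun j _ => ?_
    rw [mul_smul, Nat.cast_smul_eq_nsmul]

variable {F : Type} [Field F]

theorem gP_sum (n : ℕ) {s : ℕ} (c : Fin s → ℕ) (a b : Fin s → MvPolynomial (Fin 2) F) :
    gP n (∑ j, (c j : MvPolynomial (Fin 2) F) * a j) (∑ j, (c j : MvPolynomial (Fin 2) F) * b j) =
      ∑ j, (c j : Polynomial F) * gP n (a j) (b j) := by
  unfold gP hc
  simp only [← nsmul_eq_mul, map_sum, map_nsmul, map_sub, smul_sub, Finset.sum_sub_distrib]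

theorem deg_sum {n : ℕ} {s : ℕ} (c : Fin s → ℕ) (a : Fin s → MvPolynomial (Fin 2) F)
    (ha : ∀ j, (a j).totalDegree ≤ n) :
    (∑ j, (c j : MvPolynomial (Fin 2) F) * a j).totalDegree ≤ n := by
  refine (MvPolynomial.totalDegree_finset_sum _ _).trans (Finset.sup_le fun j _ => ?_)
  refine (MvPolynomial.totalDegree_mul _ _).trans ?_
  have : ((c j : ℕ) : MvPolynomial (Fin 2) F) = MvPolynomial.C (c j : F) := by simp
  rw [this, MvPolynomial.totalDegree_C, zero_add]
  exact ha j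

theorem dvd_of_irr {φ G : Polynomial F} (hsq : Squarefree φ)
    (h : ∀ ψ : Polynomial F, Irreducible ψ → ψ ∣ φ → ψ ∣ G) : φ ∣ G := by
  classical
  obtain ⟨k, hk⟩ := EuclideanDomain.gcd_dvd_left φ G
  have hφ0 : φ ≠ 0 := hsq.ne_zero
  have hk0 : k ≠ 0 := by
    rintro rfl
    rw [mul_zero] at hk
    exact hφ0 hk
  by_cases hu : IsUnit k
  · obtain ⟨v, hv⟩ := hu.exists_right_inv
    have h1 : φ * v = EuclideanDomain.gcd φ G := by
      conv_lhs => rw [hk]
      rw [mul_assoc, hv, mul_one]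
    have h2 : φ ∣ EuclideanDomain.gcd φ G := ⟨v, h1.symm⟩
    exact h2.trans (EuclideanDomain.gcd_dvd_right φ G)
  · exfalso
    obtain ⟨ψ, hψ, hψk⟩ := WfDvdMonoid.exists_irreducible_factor hu hk0
    have h1 : ψ ∣ φ := by rw [hk]; exact hψk.mul_left _
    have h2 := EuclideanDomain.dvd_gcd h1 (h ψ hψ h1)
    have h3 : ψ * ψ ∣ φ := by
      conv_rhs => rw [hk]
      exact mul_dvd_mul h2 hψk
    exact hψ.not_isUnit (hsq ψ h3)

end sums

section key

variable {p : ℕ} [hp : Fact p.Prime] {F : Type} [Field F] [CharP F p] [PerfectRing F p]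

theorem key_root (B : Bricks) {d : ℕ} (hd : 0 < d) (hdp : d ∣ p - 1)
    {f : MvPolynomial (Fin 2) F} (hdeg : f.totalDegree ≤ d) (hl : lead d f ≠ 0)
    (hsq : Squarefree (lead d f)) (ord : IsOrdinary p d (lead d f))
    {e : F} {ψ : Polynomial F} {κ κ' : Type} [Field κ] [Field κ'] [CharP κ p] [CharP κ' p]
    {I : κ →+* κ'} {ι : Polynomial F →+* κ} {δ : Derivation ℤ κ κ} {δ' : Derivation ℤ κ' κ'}
    {θ₀ : κ'} (P : Pair p e ψ I ι δ δ' θ₀) (hψ : ψ ∣ lead d f) {s : ℕ} (t : Fin s → ℕ)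
    (α : Fin s → F) (a b : Fin s → MvPolynomial (Fin 2) F)
    (ha : ∀ j, (a j).totalDegree ≤ d - 1) (hb : ∀ j, (b j).totalDegree ≤ d - 1)
    (h : ∀ j, InfTriv p (f + MvPolynomial.C ((t j : F) * e + (α j ^ p - α j))) (a j) (b j))
    (c : Fin s → ℕ) (h0 : ∑ j, (c j : Polynomial F) * gP (d - 1) (a j) (b j) = 0) :
    ψ ∣ ∑ j, (c j : Polynomial F) * ((t j : Polynomial F) * gP (d - 1) (a j) (b j)) := by
  obtain ⟨θ, Δ, T, D, hs⟩ := exists_ders (p := p) δ P.hδp
  obtain ⟨θ', Δ', T', D', hs'⟩ := exists_ders (p := p) δ' P.hδp'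
  obtain ⟨x, hx⟩ := Pool.Agent.K3h17.AS.t_HEN p d F f hd hdp hdeg hl κ ι P.hι
  have hX := point_map ι I hx
  have hι' : Function.Injective (I.comp ι) := I.injective.comp P.hι
  have hδ' : ∀ g, δ' ((I.comp ι) g) = (I.comp ι) (Polynomial.derivative g) := fun g => by
    rw [RingHom.comp_apply, P.hI, P.hδ]; rfl
  have hj := fun j => transport B hd hdp hdeg hl P hs hs' (lmap I x) hX (t j) (α j) (a j) (b j)
    (ha j) (hb j) (h j)
  choose η y hη hy using hj
  have cE : CharP (LaurentSeries κ') p := charP_laurent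
  set jj : MvPolynomial (Fin 2) F →+* LaurentSeries κ' := ev (I.comp ι) (lmap I x) with hjj
  set A : MvPolynomial (Fin 2) F := ∑ j, (c j : MvPolynomial (Fin 2) F) * a j with hA
  set Bp : MvPolynomial (Fin 2) F := ∑ j, (c j : MvPolynomial (Fin 2) F) * b j with hBp
  have hsum : ∑ j, c j • ((form (jj (MvPolynomial.X 0)) (jj (MvPolynomial.X 1)) (jj (a j))
      (jj (b j)), η j) : GOm (LaurentSeries κ') × GOm (LaurentSeries κ')) ∈
      GP p (LaurentSeries κ') :=
    sum_mem fun j _ => nsmul_mem (hη j) _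
  have hpair : (form (jj (MvPolynomial.X 0)) (jj (MvPolynomial.X 1)) (jj A) (jj Bp),
      ∑ j, c j • η j) ∈ GP p (LaurentSeries κ') := by
    have e1 : ((form (jj (MvPolynomial.X 0)) (jj (MvPolynomial.X 1)) (jj A) (jj Bp),
      ∑ j, c j • η j) : GOm (LaurentSeries κ') × GOm (LaurentSeries κ')) =
      ∑ j, c j • ((form (jj (MvPolynomial.X 0)) (jj (MvPolynomial.X 1)) (jj (a j))
      (jj (b j)), η j) : GOm (LaurentSeries κ') × GOm (LaurentSeries κ')) := by
      refine Prod.ext ?_ ?_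
      · rw [Prod.fst_sum, hA, hBp, map_sum, map_sum]
        simp only [map_mul, map_natCast, Prod.smul_fst]
        exact form_sum _ _ _ _ _
      · rw [Prod.snd_sum]
        simp only [Prod.smul_snd]
    rw [e1]; exact hsum
  have hTriv : TrivE p jj A Bp := (B.gp1 p).2.1 _ _ _ hpair
  have hcl : MvPolynomial.pderiv 0 (hc (d - 1) Bp) = MvPolynomial.pderiv 1 (hc (d - 1) A) := by
    apply (Pool.Agent.K3h60.AS.t_EUL p d F f A Bp (d - 1) hd hdp).2.1
    rw [hA, hBp, gP_sum]
    exact h0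
  obtain ⟨c₁, g, k, eA, eB⟩ := ind_triv jj (d - 1) (fun m hm a b ha hb h =>
    closed_ne B hd hdp hdeg hl ord (I.comp ι) hι' δ' hδ' P.hδp' (lmap I x) hX m (by omega) a b
      ha hb h) A Bp (deg_sum c a ha) (deg_sum c b hb) hTriv hcl
  have hdata := (B.gp1 p).2.2 F (LaurentSeries κ') jj c₁ g k
  rw [← eA, ← eB] at hdata
  have hν := sub_mem hpair hdata
  rw [Prod.mk_sub_mk, sub_self] at hν
  obtain ⟨-, hb2, -⟩ := gp2' B.gp2 T' D' hs'.hTp hs'.hDp hs'.hc _ _ hν
  rw [GDer.lft_zero, zero_add, funext hs'.eD] at hb2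
  have hb3 := coeff_zero_eq δ' Δ' hs'.hΔ _ hb2
  -- the coefficient of degree `0`
  have hev : ∀ z : MvPolynomial (Fin 2) F, jj z = lmap I (ev ι x z) := fun z =>
    (ev_comp ι I (lmap I) (lmap_C I) x z).symm
  have hDl : ∀ z, D'.app (lmap I z) = lmap I (D.app z) := fun z => by
    rw [hs'.eD, hs.eD]
    refine HahnSeries.ext (funext fun n => ?_)
    rw [hs'.hΔ, lmap_coeff, lmap_coeff, hs.hΔ, P.hI]
  set y' : κ := (ev ι x g * D.app (ev ι x (MvPolynomial.X 0)) +
    ev ι x k * D.app (ev ι x (MvPolynomial.X 1))).coeff 0 with hy'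
  have hb0 : (D'.lft (∑ j, c j • η j - form (jj (MvPolynomial.X 0)) (jj (MvPolynomial.X 1)) (jj g)
      (jj k))).coeff 0 = ∑ j, (c j : κ') * (D'.lft (η j)).coeff 0 - I y' := by
    rw [GDer.lft_sub, GDer.lft_sum, GDer.lft_form, HahnSeries.coeff_sub, HahnSeries.coeff_sum]
    congr 1
    · refine Finset.sum_congr rfl fun j _ => ?_
      rw [GDer.lft_nsmul, HahnSeries.coeff_nsmul, Pi.smul_apply, nsmul_eq_mul]
    · rw [hev, hev, hev, hev, hDl, hDl, ← map_mul, ← map_mul, ← map_add, lmap_coeff]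
  rw [hb0] at hb3
  have hkey : (d : κ') * (∑ j, (c j : κ') * (D'.lft (η j)).coeff 0 - I y') =
      I (∑ j, (c j : κ) * y j - (d : κ) * y') + θ₀ * I (ι (∑ j, (c j : Polynomial F) *
        ((t j : Polynomial F) * gP (d - 1) (a j) (b j))) / ι (lead d f)) := by
    rw [mul_sub, Finset.mul_sum]
    have e1 : ∀ j, (d : κ') * ((c j : κ') * (D'.lft (η j)).coeff 0) =
        (c j : κ') * I (y j) + (c j : κ') * (θ₀ * I (ι ((t j : Polynomial F) *
          gP (d - 1) (a j) (b j)) / ι (lead d f))) := fun j => by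
      rw [mul_left_comm, hy j, mul_add]
    rw [Finset.sum_congr rfl fun j _ => e1 j, Finset.sum_add_distrib]
    have e2 : I (∑ j, (c j : κ) * y j - (d : κ) * y') =
        ∑ j, (c j : κ') * I (y j) - (d : κ') * I y' := by
      rw [map_sub, map_sum, map_mul, map_natCast]
      simp only [map_mul, map_natCast]
    have e3 : θ₀ * I (ι (∑ j, (c j : Polynomial F) *
        ((t j : Polynomial F) * gP (d - 1) (a j) (b j))) / ι (lead d f)) =
        ∑ j, (c j : κ') * (θ₀ * I (ι ((t j : Polynomial F) *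
          gP (d - 1) (a j) (b j)) / ι (lead d f))) := by
      rw [map_sum, Finset.sum_div, map_sum, Finset.mul_sum]
      refine Finset.sum_congr rfl fun j _ => ?_
      rw [map_mul ι, map_natCast, mul_div_assoc, map_mul I, map_natCast]
      ring
    rw [e2, e3]; ring
  refine P.res (lead d f) _ (∑ j, (c j : κ) * y j - (d : κ) * y') hsq hψ ?_
  rw [← hkey, mul_pow, nat_pow p, hb3, iter_mul_const δ' (p - 1) _ (d : κ')
    (Derivation.map_natCast δ' d)]
  ring

theorem key (B : Bricks) {d : ℕ} (hd : 0 < d) (hdp : d ∣ p - 1)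
    {f : MvPolynomial (Fin 2) F} (hdeg : f.totalDegree ≤ d) (hnat : (lead d f).natDegree = d)
    (hsq : Squarefree (lead d f)) (ord : IsOrdinary p d (lead d f))
    {e : F} (he : ∀ a : F, a ^ p - a ≠ e) {s : ℕ} (t : Fin s → ℕ)
    (α : Fin s → F) (a b : Fin s → MvPolynomial (Fin 2) F)
    (ha : ∀ j, (a j).totalDegree ≤ d - 1) (hb : ∀ j, (b j).totalDegree ≤ d - 1)
    (h : ∀ j, InfTriv p (f + MvPolynomial.C ((t j : F) * e + (α j ^ p - α j))) (a j) (b j))
    (c : Fin s → ℕ) (h0 : ∑ j, (c j : Polynomial F) * gP (d - 1) (a j) (b j) = 0) :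
    ∑ j, (c j : Polynomial F) * ((t j : Polynomial F) * gP (d - 1) (a j) (b j)) = 0 := by
  have hl : lead d f ≠ 0 := hsq.ne_zero
  have hdlt : d < p := by
    have := Nat.le_of_dvd (Nat.sub_pos_of_lt hp.out.one_lt) hdp
    have := hp.out.pos
    omega
  have hdvd : lead d f ∣
      ∑ j, (c j : Polynomial F) * ((t j : Polynomial F) * gP (d - 1) (a j) (b j)) := by
    refine dvd_of_irr hsq fun ψ hψ hψφ => ?_
    have hnψ : ψ.natDegree < p :=
      ((Polynomial.natDegree_le_of_dvd hψφ hl).trans hnat.le).trans_lt hdlt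
    obtain ⟨κ, κ', _, _, _, _, I, ι, δ, δ', θ₀, P⟩ := exists_pair B e he ψ hψ hnψ
    exact key_root B hd hdp hdeg hl hsq ord P hψφ t α a b ha hb h c h0
  refine Polynomial.eq_zero_of_dvd_of_degree_lt hdvd ?_
  rw [Polynomial.degree_eq_natDegree hl, hnat]
  have hmem : ∑ j, (c j : Polynomial F) * ((t j : Polynomial F) * gP (d - 1) (a j) (b j)) ∈
      Polynomial.degreeLT F d := by
    refine sum_mem fun j _ => ?_
    rw [← nsmul_eq_mul, ← nsmul_eq_mul]
    refine nsmul_mem (nsmul_mem ?_ _) _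
    rw [Polynomial.mem_degreeLT]
    refine (Pool.Agent.K3h60.AS.t_EUL p d F f (a j) (b j) (d - 1) hd hdp).1.trans ?_
    exact_mod_cast Nat.sub_lt hd one_pos
  exact Polynomial.mem_degreeLT.mp hmem

theorem inLog_of (B : Bricks) {d : ℕ} (hd : 0 < d) (hdp : d ∣ p - 1)
    {f : MvPolynomial (Fin 2) F} (hdeg : f.totalDegree ≤ d) (hnat : (lead d f).natDegree = d)
    (hl : lead d f ≠ 0) (a b : MvPolynomial (Fin 2) F) (ha : a.totalDegree ≤ d - 1)
    (hb : b.totalDegree ≤ d - 1) (h : InfTriv p f a b) :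
    InLog p (lead d f) (gP (d - 1) a b) := by
  obtain ⟨κ, iκ, cκ, ι, δ, hι, hδ, hδp⟩ := DerKap.t_KAP p F
  obtain ⟨x, hx⟩ := Pool.Agent.K3h17.AS.t_HEN p d F f hd hdp hdeg hl κ ι hι
  obtain ⟨θ, Δ, T, D, hs⟩ := exists_ders (p := p) δ hδp
  obtain ⟨η, hη⟩ := (B.gp1 p).1 (LaurentSeries κ) _ (infTriv_ev hd hdp hl h ι hι x hx)
  have h1 := (ana B hd hdp hdeg hl ι hι δ hδ hδp hs x hx (d - 1) a b ha hb η hη).2.2 (by omega)
  refine ⟨?_, h1.1⟩
  rw [hnat]
  exact (Pool.Agent.K3h60.AS.t_EUL p d F f a b (d - 1) hd hdp).1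

end key

section count

variable {p : ℕ} [hp : Fact p.Prime] {F : Type} [Field F] [CharP F p] [PerfectRing F p]

theorem count_bad (B : Bricks) [Finite F] {d : ℕ} (hd : 0 < d) (hdp : d ∣ p - 1)
    {f : MvPolynomial (Fin 2) F} (hdeg : f.totalDegree ≤ d) (hnat : (lead d f).natDegree = d)
    (hsq : Squarefree (lead d f)) (ord : IsOrdinary p d (lead d f)) :
    p * {c : F | ¬ BaseOK p (f + MvPolynomial.C c)}.ncard ≤
      (Multiset.card (UniqueFactorizationMonoid.factors (lead d f)) - 1) * Nat.card F := by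
  have hl : lead d f ≠ 0 := hsq.ne_zero
  have hdlt : d < p := by
    have := Nat.le_of_dvd (Nat.sub_pos_of_lt hp.out.one_lt) hdp
    have := hp.out.pos
    omega
  apply B.cnt p F
  intro e he T hT
  let en : Fin T.card ≃ T := T.equivFin.symm
  have h1 := fun j => hT (en j : ZMod p) (en j).2
  choose α hα using h1
  have h2 := fun j => min_bad B hd hdp (deg_add_C hdeg _)
    (f := f + MvPolynomial.C ((((en j : ZMod p).val : ℕ) : F) * e + (α j ^ p - α j)))
    (by rw [lead_add_C hd]; exact hl) (by rw [lead_add_C hd]; exact ord) (hα j)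
  choose a b ha hb hinf hne using h2
  have hlog : ∀ j, InLog p (lead d f) (gP (d - 1) (a j) (b j)) := fun j => by
    have := inLog_of B hd hdp (deg_add_C hdeg _)
      (f := f + MvPolynomial.C ((((en j : ZMod p).val : ℕ) : F) * e + (α j ^ p - α j)))
      (by rw [lead_add_C hd]; exact hnat) (by rw [lead_add_C hd]; exact hl) (a j) (b j)
      (ha j) (hb j) (hinf j)
    rwa [lead_add_C hd] at this
  letI : Module (ZMod p) (Polynomial F) := AddCommGroup.zmodModule (fun x => by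
    rw [nsmul_eq_mul, CharP.cast_eq_zero, zero_mul])
  have hsm : ∀ (z : ZMod p) (G : Polynomial F), z • G = (z.val : Polynomial F) * G := by
    intro z G
    conv_lhs => rw [← ZMod.natCast_zmod_val z]
    rw [Nat.cast_smul_eq_nsmul, nsmul_eq_mul]
  have hlin : LinearIndependent (ZMod p) fun j => gP (d - 1) (a j) (b j) := by
    refine B.lin p (Polynomial F) T.card _ (fun j => (en j : ZMod p))
      (fun j k hjk => en.injective (Subtype.ext hjk)) hne (fun c hc => ?_)
    have h3 := key B hd hdp hdeg hnat hsq ord he (fun j => (en j : ZMod p).val) α a b ha hb hinf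
      (fun j => (c j).val) (by
        rw [← hc]
        exact Finset.sum_congr rfl fun j _ => (hsm _ _).symm)
    rw [← h3]
    refine Finset.sum_congr rfl fun j _ => ?_
    rw [mul_smul, hsm, hsm]
  have h4 := B.dim p F (lead d f) hsq (by omega) (by omega) T.card _ hlog hlin
  omega

/-- The conclusion. -/
def Fine (p : ℕ) (f : MvPolynomial (Fin 2) F) : Prop :=
  (∀ P : CommRing.Pic (Cov p f), ∃ Q : CommRing.Pic (Cov p f), Q ^ p = P) ∧
  ∀ (L : Type) [Field L] [Algebra (Cov p (toInf f)) L] [IsFractionRing (Cov p (toInf f)) L]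
    (a b : Cov p f),
    form (algebraMap (Cov p (toInf f)) L (mapInf p f (xB p f)))
      (algebraMap (Cov p (toInf f)) L (mapInf p f (tB p f)))
      (algebraMap (Cov p (toInf f)) L (mapInf p f a))
      (algebraMap (Cov p (toInf f)) L (mapInf p f b)) ∈ Triv p L → TrivB p f a b

theorem fine_of_base {d : ℕ} (hd : 0 < d) (hdp : d ∣ p - 1)
    {f : MvPolynomial (Fin 2) F} (hdeg : f.totalDegree ≤ d) (hl : lead d f ≠ 0)
    (hok : BaseOK p f) : Fine p f :=
  ⟨pic_of_base hd hdp hdeg hl hok, fun L _ _ _ a b h => br_of_base hok L a b h⟩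

theorem count_fine (B : Bricks) [Finite F] {d : ℕ} (hd : 0 < d) (hdp : d ∣ p - 1)
    {f : MvPolynomial (Fin 2) F} (hdeg : f.totalDegree ≤ d) (hnat : (lead d f).natDegree = d)
    (hsq : Squarefree (lead d f)) (ord : IsOrdinary p d (lead d f)) :
    p * {c : F | ¬ Fine p (f + MvPolynomial.C c)}.ncard ≤
      (Multiset.card (UniqueFactorizationMonoid.factors (lead d f)) - 1) * Nat.card F := by
  refine le_trans (Nat.mul_le_mul_left p ?_) (count_bad B hd hdp hdeg hnat hsq ord)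
  refine Set.ncard_le_ncard (fun c hc => ?_) (Set.toFinite _)
  intro hok
  exact hc (fine_of_base hd hdp (deg_add_C hdeg c) (by rw [lead_add_C hd]; exact hsq.ne_zero) hok)

end count

end Pool.Agent.K3h46.AS
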