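import Pool.Agent.K3h46.AS.Plane

/-!
# Project AS2 (MP_bd895b_nt): all but few constants, leading form with `r` factors: statements
-/

set_option autoImplicit false

open scoped KaehlerDifferential

namespace Pool.Agent.K3h46.AS

/-- Pairs `(ω, η)` of differential forms with `ω = dh + ∑ (a_j ^ p - a_j) db_j / b_j`,
`η = ∑ a_j db_j / b_j`. -/
noncomputable def GP (p : ℕ) (E : Type) [Field E] : AddSubgroup (Ω[E⁄ℤ] × Ω[E⁄ℤ]) :=
  AddSubgroup.closure ({ω | ∃ h : E, ω = (KaehlerDifferential.D ℤ E h, 0)} ∪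
    {ω | ∃ a b : E, b ≠ 0 ∧ ω = (((a ^ p - a) * b⁻¹) • KaehlerDifferential.D ℤ E b,
      (a * b⁻¹) • KaehlerDifferential.D ℤ E b)})

/-- GP1: existence of the second component, trivial pairs of polynomial data. -/
def S_GP1 : Prop := ∀ (p : ℕ) [Fact p.Prime],
  (∀ (E : Type) [Field E], ∀ ω ∈ Triv p E, ∃ η : Ω[E⁄ℤ], (ω, η) ∈ GP p E) ∧
  (∀ (E : Type) [Field E], ∀ ω η : Ω[E⁄ℤ], (ω, η) ∈ GP p E → ω ∈ Triv p E) ∧
  (∀ (F : Type) [Field F] [CharP F p] [PerfectRing F p] (E : Type) [Field E] [CharP E p]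
    (j : MvPolynomial (Fin 2) F →+* E) (c g h : MvPolynomial (Fin 2) F),
    (form (j (MvPolynomial.X 0)) (j (MvPolynomial.X 1))
      (j (MvPolynomial.pderiv 0 c + g ^ p * MvPolynomial.X 0 ^ (p - 1) - g))
      (j (MvPolynomial.pderiv 1 c + h ^ p * MvPolynomial.X 1 ^ (p - 1) - h)),
     form (j (MvPolynomial.X 0)) (j (MvPolynomial.X 1)) (j g) (j h)) ∈ GP p E)

/-- GP2: the equations. -/
def S_GP2 : Prop := ∀ (p : ℕ) [Fact p.Prime] (E : Type) [Field E] [CharP E p]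
  (θ D : Derivation ℤ E E), (∀ z, (⇑θ)^[p] z = θ z) → (∀ z, (⇑D)^[p] z = 0) →
  (∀ z, θ (D z) = D (θ z)) → ∀ ω η : Ω[E⁄ℤ], (ω, η) ∈ GP p E →
    (θ.liftKaehlerDifferential η) ^ p =
      (θ.liftKaehlerDifferential ω + θ.liftKaehlerDifferential η) -
      (⇑θ)^[p - 1] (θ.liftKaehlerDifferential ω + θ.liftKaehlerDifferential η) ∧
    (D.liftKaehlerDifferential η) ^ p =
      -(⇑D)^[p - 1] (D.liftKaehlerDifferential ω + D.liftKaehlerDifferential η) ∧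
    θ (D.liftKaehlerDifferential ω + D.liftKaehlerDifferential η) =
      D (θ.liftKaehlerDifferential ω + θ.liftKaehlerDifferential η)

/-- GP3: functoriality. -/
def S_GP3 : Prop := ∀ (p : ℕ) [Fact p.Prime] (K E : Type) [Field K] [Field E] (Ψ : K →+* E)
  (D : Derivation ℤ K K) (D' : Derivation ℤ E E), (∀ z, D' (Ψ z) = Ψ (D z)) →
  ∀ (x t a b : K) (η : Ω[K⁄ℤ]), (form x t a b, η) ∈ GP p K →
    ∃ η' : Ω[E⁄ℤ], (form (Ψ x) (Ψ t) (Ψ a) (Ψ b), η') ∈ GP p E ∧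
      D'.liftKaehlerDifferential η' = Ψ (D.liftKaehlerDifferential η)

/-- AN3: the conclusion at infinity, without conditions on `φ`. -/
def S_AN3 : Prop := ∀ (p : ℕ) [Fact p.Prime] (d m : ℕ) (F : Type) [Field F] [CharP F p],
  0 < d → d ∣ p - 1 → 1 ≤ m →
  ∀ (φ g J s : Polynomial F), φ ≠ 0 →
  ((m : ℕ) : Polynomial F) * (φ ^ (m * ((p - 1) / d) - 1) * J) =
    (d : Polynomial F) * (φ ^ (m * ((p - 1) / d)) * g) +
    (d : Polynomial F) * Polynomial.derivative (φ ^ (m * ((p - 1) / d)) * s) →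
  ∀ (κ : Type) [Field κ] [CharP κ p] (ι : Polynomial F →+* κ), Function.Injective ι →
  ∀ (δ : Derivation ℤ κ κ), (∀ g, δ (ι g) = ι (Polynomial.derivative g)) →
    (∀ z, (⇑δ)^[p] z = 0) →
  ∀ (θ Δ : Derivation ℤ (LaurentSeries κ) (LaurentSeries κ)),
    (∀ (z : LaurentSeries κ) (n : ℤ), (θ z).coeff n = (n : κ) * z.coeff n) →
    (∀ (z : LaurentSeries κ) (n : ℤ), (Δ z).coeff n = δ (z.coeff n)) →
  ∀ β₁ β₂ η₁ η₂ : LaurentSeries κ, Facts p d m φ g J ι θ Δ β₁ β₂ →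
    η₁ ^ p = (β₁ + η₁) - (⇑θ)^[p - 1] (β₁ + η₁) →
    η₂ ^ p = -(⇑Δ)^[p - 1] (β₂ + η₂) →
    θ (β₂ + η₂) = Δ (β₁ + η₁) →
    (d < m → g = 0) ∧
    (m < d → (Polynomial.derivative^[p - 1]) (φ ^ (m * ((p - 1) / d)) * g) = 0) ∧
    (m = d → g ^ p + (Polynomial.derivative^[p - 1]) (φ ^ (p - 1) * g) = 0 ∧
      (∀ i : ℤ, i < -(d : ℤ) → η₂.coeff i = 0) ∧
      (d : κ) * η₂.coeff (-(d : ℤ)) = ι (φ ^ (p - 1) * g))

/-- SUB: the substitution `ϖ ↦ ϖ (1 + c ϖ ^ d) ^ (-1 / d)`. -/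
def S_SUB : Prop := ∀ (κ κ' : Type) [Field κ] [Field κ'] (i : κ →+* κ') (δ : Derivation ℤ κ κ)
  (δ' : Derivation ℤ κ' κ') (c : κ') (d : ℕ), (∀ z, δ' (i z) = i (δ z)) → δ' c = 0 → 0 < d →
  (d : κ') ≠ 0 →
  ∀ (Δ : Derivation ℤ (LaurentSeries κ) (LaurentSeries κ))
    (Δ' : Derivation ℤ (LaurentSeries κ') (LaurentSeries κ')),
    (∀ (z : LaurentSeries κ) (n : ℤ), (Δ z).coeff n = δ (z.coeff n)) →
    (∀ (z : LaurentSeries κ') (n : ℤ), (Δ' z).coeff n = δ' (z.coeff n)) →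
  ∃ Θ : LaurentSeries κ →+* LaurentSeries κ',
    (∀ a : κ, Θ (HahnSeries.C a) = HahnSeries.C (i a)) ∧
    (∀ a : κ, Θ (HahnSeries.single (-(d : ℤ)) a) =
      HahnSeries.single (-(d : ℤ)) (i a) + HahnSeries.C (c * i a)) ∧
    (∀ (z : LaurentSeries κ) (N : ℤ), (∀ n < N, z.coeff n = 0) →
      (∀ n < N, (Θ z).coeff n = 0) ∧ (Θ z).coeff N = i (z.coeff N)) ∧
    (∀ z : LaurentSeries κ, (∀ n : ℤ, n < -(d : ℤ) → z.coeff n = 0) →
      (Θ z).coeff 0 = i (z.coeff 0) + c * i (z.coeff (-(d : ℤ)))) ∧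
    (∀ z, Δ' (Θ z) = Θ (Δ z))

/-- UNI: uniqueness of the point at infinity. -/
def S_UNI : Prop := ∀ (p : ℕ) [Fact p.Prime] (d : ℕ) (F : Type) [Field F] [CharP F p]
  (f : MvPolynomial (Fin 2) F), 0 < d → d ∣ p - 1 → f.totalDegree ≤ d → lead d f ≠ 0 →
  ∀ (κ : Type) [Field κ] [CharP κ p] (ι : Polynomial F →+* κ), Function.Injective ι →
    ∀ x x' : LaurentSeries κ, IsPt p d f ι x → IsPt p d f ι x' → x = x'

/-- The solutions `G` of `G ^ p + (φ ^ (p - 1) G) ^ ((p - 1)) = 0` of degree at most `d - 2`. -/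
def InLog (p : ℕ) {F : Type} [Field F] (φ G : Polynomial F) : Prop :=
  G.degree < ((φ.natDegree - 1 : ℕ) : WithBot ℕ) ∧
    G ^ p + (Polynomial.derivative^[p - 1]) (φ ^ (p - 1) * G) = 0

/-- DIM: the dimension of the space of these `G`. -/
def S_DIM : Prop := ∀ (p : ℕ) [Fact p.Prime] (F : Type) [Field F] [CharP F p] [PerfectRing F p]
  (φ : Polynomial F), Squarefree φ → 0 < φ.natDegree → φ.natDegree < p →
  ∀ [Module (ZMod p) (Polynomial F)] (s : ℕ) (G : Fin s → Polynomial F),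
    (∀ j, InLog p φ (G j)) → LinearIndependent (ZMod p) G →
    s + 1 ≤ Multiset.card (UniqueFactorizationMonoid.factors φ)

/-- LIN: eigenvectors. -/
def S_LIN : Prop := ∀ (p : ℕ) [Fact p.Prime] (V : Type) [AddCommGroup V] [Module (ZMod p) V]
  (s : ℕ) (G : Fin s → V) (t : Fin s → ZMod p), Function.Injective t → (∀ j, G j ≠ 0) →
  (∀ c : Fin s → ZMod p, ∑ j, c j • G j = 0 → ∑ j, (c j * t j) • G j = 0) →
  LinearIndependent (ZMod p) G

/-- CNT: counting constants. -/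
def S_CNT : Prop := ∀ (p : ℕ) [Fact p.Prime] (F : Type) [Field F] [Finite F] [CharP F p]
  (S : Set F) (k : ℕ),
  (∀ e : F, (∀ a : F, a ^ p - a ≠ e) → ∀ T : Finset (ZMod p),
    (∀ t ∈ T, ∃ a : F, (t.val : F) * e + (a ^ p - a) ∈ S) → T.card ≤ k) →
  p * S.ncard ≤ k * Nat.card F

/-- FLD: the field of a root of an irreducible polynomial, and a root of `X ^ p - X - e`. -/
def S_FLD : Prop := ∀ (p : ℕ) [Fact p.Prime] (F : Type) [Field F] [CharP F p] [PerfectRing F p]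
  (e : F) (ψ : Polynomial F), (∀ a : F, a ^ p - a ≠ e) → Irreducible ψ → ψ.natDegree < p →
  ∃ (F₁ F₂ : Type) (_ : Field F₁) (_ : Field F₂) (_ : CharP F₁ p) (_ : CharP F₂ p)
    (i : F →+* F₁) (j : F₁ →+* F₂) (ρ : F₁) (θ : F₂), (ψ.map i).eval ρ = 0 ∧
    θ ^ p - θ = j (i e) ∧ ∀ z : F₁, j z ≠ θ

/-- RES: the residue of a logarithmic form, on `F₂((s))`. -/
def S_RES : Prop := ∀ (p : ℕ) [Fact p.Prime] (K : Type) [Field K] [CharP K p]
  (δ : Derivation ℤ (LaurentSeries K) (LaurentSeries K)),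
  (∀ (z : LaurentSeries K) (n : ℤ), (δ z).coeff n = ((n + 1 : ℤ) : K) * z.coeff (n + 1)) →
  ∀ b : LaurentSeries K, b ^ p = -(⇑δ)^[p - 1] b →
    ∃ n : ℕ, b.coeff (-1) = (n : K)

/-- LDR: the local field at a root `ρ` of `φ`: `u = ρ + s`. -/
def S_LDR : Prop := ∀ (p : ℕ) [Fact p.Prime] (F K : Type) [Field F] [Field K] [CharP F p]
  [CharP K p] (i : F →+* K) (ρ : K),
  ∃ (ι : Polynomial F →+* LaurentSeries K)
    (δ : Derivation ℤ (LaurentSeries K) (LaurentSeries K)),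
    Function.Injective ι ∧ (∀ c : F, ι (Polynomial.C c) = HahnSeries.C (i c)) ∧
    ι Polynomial.X = HahnSeries.C ρ + HahnSeries.single 1 1 ∧
    (∀ (z : LaurentSeries K) (n : ℤ), (δ z).coeff n = ((n + 1 : ℤ) : K) * z.coeff (n + 1)) ∧
    (∀ g, δ (ι g) = ι (Polynomial.derivative g)) ∧ (∀ z, (⇑δ)^[p] z = 0) ∧
    (∀ (φ g : Polynomial F), Squarefree φ → PerfectRing F p → (φ.map i).eval ρ = 0 →
      (∀ n : ℤ, n < -1 → (ι g / ι φ).coeff n = 0) ∧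
      ((ι g / ι φ).coeff (-1) = 0 → (g.map i).eval ρ = 0))

end Pool.Agent.K3h46.AS
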