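import Pool.Agent.K3h46.AS.Key4
import Pool.Agent.K3h46.AS.GP
import Pool.Agent.K3h58.AS.AN3
import Pool.Agent.K3h10.AS.SUB
import Pool.Agent.K3h73.AS.UNI
import Pool.Agent.K3h93.AS.DIM
import Pool.Agent.K3h73.AS.LIN
import Pool.Agent.K3h95.AS.CNT
import Pool.Agent.K3h95.AS.FLD
import Pool.Agent.K3h12.AS2.Res
import Pool.Agent.K3h12.AS2.Ldr

/-! # Project AS2: the bricks -/

set_option autoImplicit false

namespace Pool.Agent.K3h46.AS

theorem bricks : Bricks where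
  gp1 := t_GP1
  gp2 := t_GP2 Pool.Agent.K3h4.AS.t_JAC
  gp3 := t_GP3
  an3 := Pool.Agent.K3h58.AS.t_AN3
  sub := Pool.Agent.K3h10.AS.t_SUB
  uni := Pool.Agent.K3h73.AS.t_UNI
  dim := Pool.Agent.K3h93.AS.t_DIM
  lin := Pool.Agent.K3h73.AS.t_LIN
  cnt := Pool.Agent.K3h95.AS.t_CNT
  fld := Pool.Agent.K3h95.AS.t_FLD
  res := Pool.Agent.K3h12.AS2.t_RES
  ldr := Pool.Agent.K3h12.AS2.t_LDR

end Pool.Agent.K3h46.AS
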