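import Pool.Agent.K3h46.AS.Red3
import Pool.Agent.K3h40.AS.Henp
import Pool.Agent.K3h33.AS.AN1P
import Pool.Agent.K3h25.AS.Eulw
import Pool.Agent.K3h25.AS.Facw
import Pool.Agent.K3h86.AS.LOGW
import Pool.Agent.K3h86.AS.MONW
import Pool.Agent.K3h24.AS.Poiw
import Pool.Agent.K3h40.AS.Topw
import Pool.Agent.K3h23.AS.LAUW

/-! # Project AS3: the bricks -/

set_option autoImplicit false

namespace Pool.Agent.K3h46.AS

theorem bricks3 : Bricks3 where
  henp := Pool.Agent.K3h40.AS.t_HENP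
  lauw := Pool.Agent.K3h23.AS.t_LAUW
  facw := Pool.Agent.K3h25.AS.t_FACW Pool.Agent.K3h33.AS.t_AN1P
  eulw := Pool.Agent.K3h25.AS.t_EULW
  monw := Pool.Agent.K3h86.AS.t_MONW
  logw := Pool.Agent.K3h86.AS.t_LOGW
  poiw := Pool.Agent.K3h24.AS.t_POIW
  topw := Pool.Agent.K3h40.AS.t_TOPW

theorem fine3 {p : ℕ} [hp : Fact p.Prime] {F : Type} [Field F] [CharP F p] [PerfectRing F p]
    {M L : ℕ} (hM : 0 < M) (hL : 0 < L)
    (hdvd : Nat.lcm M L ∣ p - 1) (f : MvPolynomial (Fin 2) F)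
    (ha : f.coeff (Finsupp.single 0 M) ≠ 0) (hb : f.coeff (Finsupp.single 1 L) ≠ 0)
    (hbelow : ∀ s ∈ f.support, s ≠ Finsupp.single 0 M → s ≠ Finsupp.single 1 L →
      L * s 0 + M * s 1 < M * L)
    (hirr : Irreducible (Polynomial.C (f.coeff (Finsupp.single 0 M)) +
      Polynomial.C (f.coeff (Finsupp.single 1 L)) * Polynomial.X ^ (Nat.gcd M L))) :
    Fine p f := fineW bricks3 hM hL hdvd f ha hb hbelow hirr

end Pool.Agent.K3h46.AS
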