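import Pool.Agent.K3h46.AS.Base

/-! # Project AS: the forms on the plane, end of the induction -/

set_option autoImplicit false
set_option linter.all false

open scoped KaehlerDifferential

namespace Pool.Agent.K3h46.AS

theorem theta_iter {κ : Type} [Field κ] {p : ℕ} (δ : Derivation ℤ κ κ)
    (Δ : Derivation ℤ (LaurentSeries κ) (LaurentSeries κ))
    (hΔ : ∀ (z : LaurentSeries κ) (n : ℤ), (Δ z).coeff n = δ (z.coeff n)) (z : LaurentSeries κ)
    (k : ℕ) (n : ℤ) : ((⇑Δ)^[k] z).coeff n = (⇑δ)^[k] (z.coeff n) := by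
  induction k generalizing z with
  | zero => rfl
  | succ k ih => rw [Function.iterate_succ_apply, ih, hΔ, ← Function.iterate_succ_apply]

theorem theta_iter' {κ : Type} [Field κ]
    (θ : Derivation ℤ (LaurentSeries κ) (LaurentSeries κ))
    (hθ : ∀ (z : LaurentSeries κ) (n : ℤ), (θ z).coeff n = (n : κ) * z.coeff n)
    (z : LaurentSeries κ) (k : ℕ) (n : ℤ) : ((⇑θ)^[k] z).coeff n = (n : κ) ^ k * z.coeff n := by
  induction k generalizing z with
  | zero => simp
  | succ k ih => rw [Function.iterate_succ_apply, ih, hθ]; ring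

section core

variable {p : ℕ} [hp : Fact p.Prime]

theorem int_pow {κ : Type} [Field κ] [CharP κ p] (n : ℤ) : (n : κ) ^ p = (n : κ) := by
  have h1 := ZMod.pow_card (n : ZMod p)
  have h2 := congrArg (ZMod.castHom (dvd_refl p) κ) h1
  rw [map_pow, map_intCast] at h2
  exact h2

theorem mkDer {E : Type} [Field E] (D : E →+ E) (hD : ∀ a b, D (a * b) = a * D b + b * D a) :
    ∃ D' : Derivation ℤ E E, ∀ z, D' z = D z :=
  ⟨Derivation.mk' D.toIntLinearMap (fun a b => by
    simp only [AddMonoidHom.coe_toIntLinearMap, smul_eq_mul]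
    exact hD a b), fun z => rfl⟩

theorem ext_step (ext : S_EXT) {E : Type} [Field E] [CharP E p] (T D : E →+ E)
    (hT : ∀ a b, T (a * b) = a * T b + b * T a) (hD : ∀ a b, D (a * b) = a * D b + b * D a)
    (hTp : ∀ z, (⇑T)^[p] z = T z) (hDp : ∀ z, (⇑D)^[p] z = 0) (hc : ∀ z, T (D z) = D (T z))
    (x t a b : E) (h : form x t a b ∈ Triv p E) : ∃ η₁ η₂ : E,
      η₁ ^ p = ((a * T x + b * T t) + η₁) - (⇑T)^[p - 1] ((a * T x + b * T t) + η₁) ∧
      η₂ ^ p = -(⇑D)^[p - 1] ((a * D x + b * D t) + η₂) ∧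
      T ((a * D x + b * D t) + η₂) = D ((a * T x + b * T t) + η₁) := by
  obtain ⟨T', hT'⟩ := mkDer T hT
  obtain ⟨D', hD'⟩ := mkDer D hD
  have eT : (⇑T' : E → E) = ⇑T := funext hT'
  have eD : (⇑D' : E → E) = ⇑D := funext hD'
  obtain ⟨η₁, η₂, e1, e2, e3⟩ := ext p E T' D' (by rw [eT]; exact hTp) (by rw [eD]; exact hDp)
    (fun z => by rw [hT', hD', hD', hT']; exact hc z) _ h
  have hl : ∀ D : Derivation ℤ E E,
      D.liftKaehlerDifferential (form x t a b) = a * D x + b * D t := by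
    intro D
    unfold form
    rw [map_add, map_smul, map_smul, Derivation.liftKaehlerDifferential_comp_D,
      Derivation.liftKaehlerDifferential_comp_D, smul_eq_mul, smul_eq_mul]
  rw [hl, hl] at e3
  rw [hl] at e1 e2
  rw [hT', hT', eT] at e1
  rw [hD', hD', eD] at e2
  rw [hT', hD', hD', hD', hT', hT'] at e3
  exact ⟨η₁, η₂, e1, e2, e3⟩

/-- A trivial form on the plane has closed top component. -/
theorem closed_top (der : S_DER) (kap : S_KAP) (hen : S_HEN) (lau : S_LAU)
    (ext : S_EXT) (eul : S_EUL) (an1 : S_AN1) (an2 : S_AN2)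
    {d : ℕ} (hd : 0 < d) (hdp : d ∣ p - 1) {F : Type} [Field F] [CharP F p]
    {f : MvPolynomial (Fin 2) F} (hf : Good p d f) (L : Type) [Field L]
    [Algebra (Cov p (toInf f)) L] [IsFractionRing (Cov p (toInf f)) L]
    (n : ℕ) (a b : MvPolynomial (Fin 2) F) (ha : a.totalDegree ≤ n) (hb : b.totalDegree ≤ n)
    (h : form (algebraMap (Cov p (toInf f)) L (AdjoinRoot.of _ (toInf (MvPolynomial.X 0))))
      (algebraMap (Cov p (toInf f)) L (AdjoinRoot.of _ (toInf (MvPolynomial.X 1))))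
      (algebraMap (Cov p (toInf f)) L (AdjoinRoot.of _ (toInf a)))
      (algebraMap (Cov p (toInf f)) L (AdjoinRoot.of _ (toInf b))) ∈ Triv p L) :
    MvPolynomial.pderiv 0 (hc n b) = MvPolynomial.pderiv 1 (hc n a) := by
  have hlead : lead d f ≠ 0 := hf.irr.ne_zero
  obtain ⟨κ, iκ, cκ, ι, δ, hι, hδ, hδp⟩ := kap p F
  obtain ⟨θ, Δ, hθ, hΔ⟩ := der κ δ
  obtain ⟨x, hx⟩ := hen p d F f hd hdp hf.deg hlead κ ι hι
  obtain ⟨J, hJ, hJe⟩ := lau p d F f hd hdp hlead κ ι hι x hx
  have cE : CharP (LaurentSeries κ) p :=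
    charP_of_injective_ringHom (HahnSeries.C_injective (Γ := ℤ) (R := κ)) p
  have h1 : form (ev ι x (MvPolynomial.X 0)) (ev ι x (MvPolynomial.X 1)) (ev ι x a)
      (ev ι x b) ∈ Triv p (LaurentSeries κ) := by
    have h2 := push (IsFractionRing.lift hJ : L →+* LaurentSeries κ) h
    rw [IsFractionRing.lift_algebraMap, IsFractionRing.lift_algebraMap,
      IsFractionRing.lift_algebraMap, IsFractionRing.lift_algebraMap, hJe, hJe, hJe, hJe] at h2
    exact h2
  have hX0 : ev ι x (MvPolynomial.X 0) = x := by simp [ev]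
  have hX1 : ev ι x (MvPolynomial.X 1) = HahnSeries.C (ι Polynomial.X) * x := by simp [ev]
  rw [hX0, hX1] at h1
  have hθp : ∀ z : LaurentSeries κ, (⇑θ)^[p] z = θ z := by
    intro z
    refine HahnSeries.ext (funext fun m => ?_)
    rw [theta_iter' θ hθ, hθ, int_pow]
  have hΔp : ∀ z : LaurentSeries κ, (⇑Δ)^[p] z = 0 := by
    intro z
    refine HahnSeries.ext (funext fun m => ?_)
    rw [theta_iter (p := p) δ Δ hΔ, hδp]; rfl
  have hcomm : ∀ z : LaurentSeries κ, θ (Δ z) = Δ (θ z) := by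
    intro z
    refine HahnSeries.ext (funext fun m => ?_)
    have h0 : δ ((m : κ)) = 0 := Derivation.map_intCast δ m
    rw [hθ, hΔ, hΔ, hθ, Derivation.leibniz, h0, smul_zero, add_zero, smul_eq_mul]
  let T : LaurentSeries κ →+ LaurentSeries κ :=
    { toFun := θ, map_zero' := map_zero θ, map_add' := map_add θ }
  let D : LaurentSeries κ →+ LaurentSeries κ :=
    { toFun := Δ, map_zero' := map_zero Δ, map_add' := map_add Δ }
  obtain ⟨η₁, η₂, e1, e2, e3⟩ := ext_step ext T D (fun a b => by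
      show θ (a * b) = a * θ b + b * θ a
      rw [Derivation.leibniz, smul_eq_mul, smul_eq_mul]) (fun a b => by
      show Δ (a * b) = a * Δ b + b * Δ a
      rw [Derivation.leibniz, smul_eq_mul, smul_eq_mul]) hθp hΔp hcomm _ _ _ _ h1
  have hfacts := an1 p d F f hd hdp hf.deg hlead κ ι hι δ hδ θ Δ hθ hΔ (fun c => by
    rw [hδ, Polynomial.derivative_C, map_zero]) x hx n a b ha hb
  obtain ⟨g1, g2, g3⟩ := eul p d F f a b n hd hdp
  exact g2 (an2 p d (n + 1) F hd hdp (Nat.le_add_left 1 n) (lead d f) (gP n a b) (jP d n f a b)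
    (sP n a b) hf.nat hf.irr hf.ord g1 g3 κ ι hι δ hδ hδp θ Δ hθ hΔ _ _ η₁ η₂ hfacts e1 e2 e3)

/-- The polynomial without its component of degree `n`. -/
theorem sub_hc {F : Type} [Field F] (n : ℕ) (z : MvPolynomial (Fin 2) F) (hz : z.totalDegree ≤ n) :
    (n = 0 → z - hc n z = 0) ∧ (0 < n → (z - hc n z).totalDegree ≤ n - 1) := by
  refine ⟨fun h0 => ?_, fun hn => ?_⟩
  · subst h0
    have := MvPolynomial.totalDegree_eq_zero_iff_eq_C.mp (Nat.le_zero.mp hz)
    rw [hc, MvPolynomial.homogeneousComponent_zero, ← this, sub_self]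
  · refine Finset.sup_le fun m hm => ?_
    rw [MvPolynomial.mem_support_iff, MvPolynomial.coeff_sub, hc,
      MvPolynomial.coeff_homogeneousComponent] at hm
    have h1 : m.degree ≠ n := by
      intro h1
      rw [if_pos h1, sub_self] at hm
      exact hm rfl
    rw [if_neg h1, sub_zero] at hm
    have h2 : m.degree ≤ n :=
      (MvPolynomial.le_totalDegree (MvPolynomial.mem_support_iff.mpr hm)).trans hz
    have h3 : (m.sum fun _ e => e) = m.degree := rfl
    omega

/-- Trivial forms on the plane. -/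
theorem base (der : S_DER) (kap : S_KAP) (hen : S_HEN) (lau : S_LAU)
    (ext : S_EXT) (eul : S_EUL) (an1 : S_AN1) (an2 : S_AN2) (poi : S_POI)
    {d : ℕ} (hd : 0 < d) (hdp : d ∣ p - 1) {F : Type} [Field F] [CharP F p] [PerfectRing F p]
    {f : MvPolynomial (Fin 2) F} (hf : Good p d f) (L : Type) [Field L] [CharP L p]
    [Algebra (Cov p (toInf f)) L] [IsFractionRing (Cov p (toInf f)) L] :
    ∀ (n : ℕ) (a b : MvPolynomial (Fin 2) F), a.totalDegree ≤ n → b.totalDegree ≤ n →
    form (algebraMap (Cov p (toInf f)) L (AdjoinRoot.of _ (toInf (MvPolynomial.X 0))))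
      (algebraMap (Cov p (toInf f)) L (AdjoinRoot.of _ (toInf (MvPolynomial.X 1))))
      (algebraMap (Cov p (toInf f)) L (AdjoinRoot.of _ (toInf a)))
      (algebraMap (Cov p (toInf f)) L (AdjoinRoot.of _ (toInf b))) ∈ Triv p L → TrivA p a b := by
  intro n
  induction n using Nat.strong_induction_on with
  | _ n ih =>
  intro a b ha hb h
  have hcl := closed_top der kap hen lau ext eul an1 an2 hd hdp hf L n a b ha hb h
  obtain ⟨c, g, k, e1, e2, e3, e4⟩ := poi p F n (hc n a) (hc n b)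
    (MvPolynomial.homogeneousComponent_isHomogeneous n a)
    (MvPolynomial.homogeneousComponent_isHomogeneous n b) hcl
  let jj : MvPolynomial (Fin 2) F →+* L :=
    ((algebraMap (Cov p (toInf f)) L).comp (AdjoinRoot.of (eqn p (toInf f)))).comp toInf
  have hdata := mem_data (p := p) (F := F) jj c g k
  -- the remaining form
  have htriv : TrivA p (MvPolynomial.pderiv 0 c + g ^ p * MvPolynomial.X 0 ^ (p - 1) - g)
      (MvPolynomial.pderiv 1 c + k ^ p * MvPolynomial.X 1 ^ (p - 1) - k) :=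
    ⟨c, g, k, rfl, rfl⟩
  have ea : a = (MvPolynomial.pderiv 0 c + g ^ p * MvPolynomial.X 0 ^ (p - 1) - g) +
      (a - hc n a + g) := by rw [← e1]; ring
  have eb : b = (MvPolynomial.pderiv 1 c + k ^ p * MvPolynomial.X 1 ^ (p - 1) - k) +
      (b - hc n b + k) := by rw [← e2]; ring
  have hrest : form (jj (MvPolynomial.X 0)) (jj (MvPolynomial.X 1)) (jj (a - hc n a + g))
      (jj (b - hc n b + k)) ∈ Triv p L := by
    have ea' : a - hc n a + g =
      a - (MvPolynomial.pderiv 0 c + g ^ p * MvPolynomial.X 0 ^ (p - 1) - g) := by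
      rw [← e1]; ring
    have eb' : b - hc n b + k =
      b - (MvPolynomial.pderiv 1 c + k ^ p * MvPolynomial.X 1 ^ (p - 1) - k) := by
      rw [← e2]; ring
    rw [ea', eb', map_sub jj a, map_sub jj b, form_sub]
    exact sub_mem h hdata
  have hlow : ∀ (z y : MvPolynomial (Fin 2) F), z.totalDegree ≤ n → (y = 0 ∨ y.totalDegree < n) →
      (n = 0 → z - hc n z + y = 0) ∧ (0 < n → (z - hc n z + y).totalDegree ≤ n - 1) := by
    intro z y hz hy
    obtain ⟨z0, z1⟩ := sub_hc n z hz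
    refine ⟨fun h0 => ?_, fun hn => ?_⟩
    · rw [z0 h0]
      rcases hy with hy | hy
      · rw [hy, add_zero]
      · omega
    · refine (MvPolynomial.totalDegree_add _ _).trans (max_le (z1 hn) ?_)
      rcases hy with hy | hy
      · rw [hy]; simp
      · omega
  obtain ⟨a0, a1⟩ := hlow a g ha e3
  obtain ⟨b0, b1⟩ := hlow b k hb e4
  rw [ea, eb]
  refine trivA_add htriv ?_
  rcases Nat.eq_zero_or_pos n with h0 | hn
  · rw [a0 h0, b0 h0]
    exact ⟨0, 0, 0, by simp [hp.out.ne_zero], by simp [hp.out.ne_zero]⟩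
  · exact ih (n - 1) (by omega) _ _ (a1 hn) (b1 hn) hrest

end core

end Pool.Agent.K3h46.AS
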