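import Pool.Agent.K3h46.AS.Base2

/-! # Project AS2: reduction to forms of degree `d - 1`, 2 -/

set_option autoImplicit false
set_option linter.all false

open scoped KaehlerDifferential

namespace Pool.Agent.K3h46.AS

section red

variable {p : ℕ} [hp : Fact p.Prime] {F : Type} [Field F]

/-- The form `a dx + b dt` over `E` is trivial. -/
def TrivE (p : ℕ) {E : Type} [Field E] (jj : MvPolynomial (Fin 2) F →+* E)
    (a b : MvPolynomial (Fin 2) F) : Prop :=
  form (jj (MvPolynomial.X 0)) (jj (MvPolynomial.X 1)) (jj a) (jj b) ∈ Triv p E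

theorem ind_triv [CharP F p] [PerfectRing F p] {E : Type} [Field E] [CharP E p]
    (jj : MvPolynomial (Fin 2) F →+* E) (n : ℕ) :
    (∀ m, m < n → ∀ a b : MvPolynomial (Fin 2) F, a.totalDegree ≤ m → b.totalDegree ≤ m →
      TrivE p jj a b → MvPolynomial.pderiv 0 (hc m b) = MvPolynomial.pderiv 1 (hc m a)) →
    ∀ a b : MvPolynomial (Fin 2) F, a.totalDegree ≤ n → b.totalDegree ≤ n → TrivE p jj a b →
      MvPolynomial.pderiv 0 (hc n b) = MvPolynomial.pderiv 1 (hc n a) → TrivA p a b := by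
  induction n using Nat.strong_induction_on with
  | _ n ih =>
  intro H a b ha hb h hcl
  obtain ⟨c, g, k, e1, e2, e3, e4⟩ := Pool.Agent.K3h55.AS.t_POI p F n (hc n a) (hc n b)
    (MvPolynomial.homogeneousComponent_isHomogeneous n a)
    (MvPolynomial.homogeneousComponent_isHomogeneous n b) hcl
  have hdata := mem_data (p := p) (F := F) jj c g k
  have htriv : TrivA p (MvPolynomial.pderiv 0 c + g ^ p * MvPolynomial.X 0 ^ (p - 1) - g)
      (MvPolynomial.pderiv 1 c + k ^ p * MvPolynomial.X 1 ^ (p - 1) - k) :=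
    ⟨c, g, k, rfl, rfl⟩
  have ea : a = (MvPolynomial.pderiv 0 c + g ^ p * MvPolynomial.X 0 ^ (p - 1) - g) +
      (a - hc n a + g) := by rw [← e1]; ring
  have eb : b = (MvPolynomial.pderiv 1 c + k ^ p * MvPolynomial.X 1 ^ (p - 1) - k) +
      (b - hc n b + k) := by rw [← e2]; ring
  have hrest : TrivE p jj (a - hc n a + g) (b - hc n b + k) := by
    have ea' : a - hc n a + g =
      a - (MvPolynomial.pderiv 0 c + g ^ p * MvPolynomial.X 0 ^ (p - 1) - g) := by
      rw [← e1]; ring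
    have eb' : b - hc n b + k =
      b - (MvPolynomial.pderiv 1 c + k ^ p * MvPolynomial.X 1 ^ (p - 1) - k) := by
      rw [← e2]; ring
    unfold TrivE
    rw [ea', eb', map_sub jj a, map_sub jj b, form_sub]
    exact sub_mem h hdata
  have hlow : ∀ (z y : MvPolynomial (Fin 2) F), z.totalDegree ≤ n → (y = 0 ∨ y.totalDegree < n) →
      (n = 0 → z - hc n z + y = 0) ∧ (0 < n → (z - hc n z + y).totalDegree ≤ n - 1) := by
    intro z y hz hy
    obtain ⟨z0, z1⟩ := sub_hc n z hz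
    refine ⟨fun h0 => ?_, fun hn => ?_⟩
    · rw [z0 h0]
      rcases hy with hy | hy
      · rw [hy, add_zero]
      · omega
    · refine (MvPolynomial.totalDegree_add _ _).trans (max_le (z1 hn) ?_)
      rcases hy with hy | hy
      · rw [hy]; simp
      · omega
  obtain ⟨a0, a1⟩ := hlow a g ha e3
  obtain ⟨b0, b1⟩ := hlow b k hb e4
  rw [ea, eb]
  refine trivA_add htriv ?_
  rcases Nat.eq_zero_or_pos n with h0 | hn
  · rw [a0 h0, b0 h0]
    exact ⟨0, 0, 0, by simp [hp.out.ne_zero], by simp [hp.out.ne_zero]⟩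
  · exact ih (n - 1) (by omega) (fun m hm => H m (by omega)) _ _ (a1 hn) (b1 hn) hrest
      (H (n - 1) (by omega) _ _ (a1 hn) (b1 hn) hrest)

/-- the homomorphism to a field of fractions at infinity -/
noncomputable def toL (p : ℕ) (f : MvPolynomial (Fin 2) F) (L : Type) [Field L]
    [Algebra (Cov p (toInf f)) L] : MvPolynomial (Fin 2) F →+* L :=
  ((algebraMap (Cov p (toInf f)) L).comp (AdjoinRoot.of (eqn p (toInf f)))).comp toInf

/-- The form `a dx + b dt` is trivial at infinity. -/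
def InfTriv (p : ℕ) (f a b : MvPolynomial (Fin 2) F) : Prop :=
  ∃ (L : Type) (_ : Field L) (_ : Algebra (Cov p (toInf f)) L)
    (_ : IsFractionRing (Cov p (toInf f)) L), TrivE p (toL p f L) a b

theorem infTriv_ev [CharP F p] {d : ℕ} (hd : 0 < d) (hdp : d ∣ p - 1)
    {f : MvPolynomial (Fin 2) F} (hl : lead d f ≠ 0) {a b : MvPolynomial (Fin 2) F}
    (h : InfTriv p f a b) {κ : Type} [Field κ] [CharP κ p] (ι : Polynomial F →+* κ)
    (hι : Function.Injective ι) (x : LaurentSeries κ) (hx : IsPt p d f ι x) :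
    TrivE p (ev ι x) a b := by
  obtain ⟨L, i1, i2, i3, h⟩ := h
  obtain ⟨J, hJ, hJe⟩ := Pool.Agent.K3h45.AS.t_LAU p d F f hd hdp hl κ ι hι x hx
  have h2 := push (IsFractionRing.lift hJ : L →+* LaurentSeries κ) h
  unfold toL at h2
  rw [RingHom.comp_apply, RingHom.comp_apply, RingHom.comp_apply, RingHom.comp_apply,
    RingHom.comp_apply, RingHom.comp_apply, RingHom.comp_apply, RingHom.comp_apply,
    IsFractionRing.lift_algebraMap, IsFractionRing.lift_algebraMap,
    IsFractionRing.lift_algebraMap, IsFractionRing.lift_algebraMap, hJe, hJe, hJe, hJe] at h2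
  exact h2

/-- The conclusion for forms on the plane. -/
def BaseOK (p : ℕ) (f : MvPolynomial (Fin 2) F) : Prop :=
  ∀ a b : MvPolynomial (Fin 2) F, InfTriv p f a b → TrivA p a b

/-- For `m ≠ d` the trivial forms have closed top component. -/
theorem closed_ne (B : Bricks) {d : ℕ} (hd : 0 < d) (hdp : d ∣ p - 1) [CharP F p]
    {f : MvPolynomial (Fin 2) F}
    (hdeg : f.totalDegree ≤ d) (hl : lead d f ≠ 0) (ord : IsOrdinary p d (lead d f))
    {κ : Type} [Field κ] [CharP κ p]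
    (ι : Polynomial F →+* κ) (hι : Function.Injective ι) (δ : Derivation ℤ κ κ)
    (hδ : ∀ g, δ (ι g) = ι (Polynomial.derivative g)) (hδp : ∀ z, (⇑δ)^[p] z = 0)
    (x : LaurentSeries κ) (hx : IsPt p d f ι x) (n : ℕ) (hn : n + 1 ≠ d)
    (a b : MvPolynomial (Fin 2) F) (ha : a.totalDegree ≤ n) (hb : b.totalDegree ≤ n)
    (h : TrivE p (ev ι x) a b) :
    MvPolynomial.pderiv 0 (hc n b) = MvPolynomial.pderiv 1 (hc n a) := by
  obtain ⟨θ, Δ, T, D, hs⟩ := exists_ders (p := p) δ hδp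
  obtain ⟨η, hη⟩ := (B.gp1 p).1 (LaurentSeries κ) _ h
  obtain ⟨h1, h2, h3⟩ := ana B hd hdp hdeg hl ι hι δ hδ hδp hs x hx n a b ha hb η hη
  obtain ⟨g1, g2, g3⟩ := Pool.Agent.K3h60.AS.t_EUL p d F f a b n hd hdp
  apply g2
  rcases lt_or_gt_of_ne hn with hlt | hgt
  · exact ord (n + 1) hlt _ g1 (h2 hlt)
  · exact h1 hgt

/-- The obstruction is a form of degree `d - 1`. -/
theorem min_bad (B : Bricks) {d : ℕ} (hd : 0 < d) (hdp : d ∣ p - 1) [CharP F p] [PerfectRing F p]
    {f : MvPolynomial (Fin 2) F}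
    (hdeg : f.totalDegree ≤ d) (hl : lead d f ≠ 0) (ord : IsOrdinary p d (lead d f))
    (hbad : ¬ BaseOK p f) :
    ∃ a b : MvPolynomial (Fin 2) F, a.totalDegree ≤ d - 1 ∧ b.totalDegree ≤ d - 1 ∧
      InfTriv p f a b ∧ gP (d - 1) a b ≠ 0 := by
  by_contra hcon
  apply hbad
  obtain ⟨κ, iκ, cκ, ι, δ, hι, hδ, hδp⟩ := DerKap.t_KAP p F
  obtain ⟨x, hx⟩ := Pool.Agent.K3h17.AS.t_HEN p d F f hd hdp hdeg hl κ ι hι
  have hcl : ∀ (L : Type) [Field L] [Algebra (Cov p (toInf f)) L]
      [IsFractionRing (Cov p (toInf f)) L] (n : ℕ) (a b : MvPolynomial (Fin 2) F),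
      a.totalDegree ≤ n → b.totalDegree ≤ n → TrivE p (toL p f L) a b →
      MvPolynomial.pderiv 0 (hc n b) = MvPolynomial.pderiv 1 (hc n a) := by
    intro L _ _ _ n a b ha hb h
    have h' : InfTriv p f a b := ⟨L, inferInstance, inferInstance, inferInstance, h⟩
    by_cases hn : n + 1 = d
    · have hn' : n = d - 1 := by omega
      subst hn'
      apply (Pool.Agent.K3h60.AS.t_EUL p d F f a b (d - 1) hd hdp).2.1
      by_contra h0
      exact hcon ⟨a, b, ha, hb, h', h0⟩
    · exact closed_ne B hd hdp hdeg hl ord ι hι δ hδ hδp x hx n hn a b ha hb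
        (infTriv_ev hd hdp hl h' ι hι x hx)
  rintro a b ⟨L, i1, i2, i3, h⟩
  have hcL : CharP L p := charP_of_hom ((((algebraMap (Cov p (toInf f)) L).comp
      (AdjoinRoot.of (eqn p (toInf f)))).comp toInf).comp MvPolynomial.C)
  exact ind_triv (toL p f L) (max a.totalDegree b.totalDegree)
    (fun m _ a b ha hb h => hcl L m a b ha hb h) a b (le_max_left _ _) (le_max_right _ _) h
    (hcl L _ a b (le_max_left _ _) (le_max_right _ _) h)

/-! ## From the plane to the surface -/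

theorem isDomain_inf' [CharP F p] {d : ℕ} (hd : 0 < d) (hdp : d ∣ p - 1)
    {f : MvPolynomial (Fin 2) F} (hdeg : f.totalDegree ≤ d) (hl : lead d f ≠ 0) :
    IsDomain (Cov p (toInf f)) := by
  obtain ⟨κ, iκ, cκ, ι, δ, hι, hδ, hδp⟩ := DerKap.t_KAP p F
  obtain ⟨x, hx⟩ := Pool.Agent.K3h17.AS.t_HEN p d F f hd hdp hdeg hl κ ι hι
  obtain ⟨J, hJ, hJe⟩ := Pool.Agent.K3h45.AS.t_LAU p d F f hd hdp hl κ ι hι x hx
  exact hJ.isDomain J

theorem br_of_base [CharP F p] [PerfectRing F p] {f : MvPolynomial (Fin 2) F} (hok : BaseOK p f)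
    (L : Type) [Field L]
    [Algebra (Cov p (toInf f)) L] [IsFractionRing (Cov p (toInf f)) L] (a b : Cov p f)
    (h : form (algebraMap (Cov p (toInf f)) L (mapInf p f (xB p f)))
      (algebraMap (Cov p (toInf f)) L (mapInf p f (tB p f)))
      (algebraMap (Cov p (toInf f)) L (mapInf p f a))
      (algebraMap (Cov p (toInf f)) L (mapInf p f b)) ∈ Triv p L) : TrivB p f a b := by
  have hcL : CharP L p := charP_of_hom ((((algebraMap (Cov p (toInf f)) L).comp
      (AdjoinRoot.of (eqn p (toInf f)))).comp toInf).comp MvPolynomial.C)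
  have hcI : CharP (Polynomial (LaurentSeries F)) p := charP_inf
  obtain ⟨σ, hσ1, hσ2⟩ := exists_sigma (p := p) (toInf f) L
  have key := Pool.Agent.K3h16.AS.t_IND p F f L ((algebraMap (Cov p (toInf f)) L).comp (mapInf p f)) σ
    (fun a => by rw [RingHom.comp_apply, mapInf_of, hσ1])
    (by rw [RingHom.comp_apply, mapInf_root, hσ2])
  have key2 := key ?_ a b (by
    rw [RingHom.comp_apply, RingHom.comp_apply, RingHom.comp_apply, RingHom.comp_apply]
    exact h)
  · exact key2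
  · intro a b hab
    refine hok a b ⟨L, inferInstance, inferInstance, inferInstance, ?_⟩
    rw [RingHom.comp_apply, RingHom.comp_apply, RingHom.comp_apply, RingHom.comp_apply, xB, tB,
      mapInf_of, mapInf_of, mapInf_of, mapInf_of] at hab
    exact hab

theorem pic_of_base [CharP F p] [PerfectRing F p] {d : ℕ} (hd : 0 < d) (hdp : d ∣ p - 1)
    {f : MvPolynomial (Fin 2) F} (hdeg : f.totalDegree ≤ d) (hl : lead d f ≠ 0)
    (hok : BaseOK p f) (P : CommRing.Pic (Cov p f)) : ∃ Q : CommRing.Pic (Cov p f), Q ^ p = P := by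
  have hdom : IsDomain (Cov p (toInf f)) := isDomain_inf' hd hdp hdeg hl
  have hinj := mapInf_injective hp.out f
  have hdomB : IsDomain (Cov p f) := hinj.isDomain (mapInf p f)
  have hcB : CharP (Cov p f) p := charP_of_hom ((AdjoinRoot.of (eqn p f)).comp MvPolynomial.C)
  obtain ⟨δ₁', δ₂', h1, h2, h3, h4, h5, h6, h7, h8⟩ := Pool.Agent.K3h85.AS.t_DB p F f
  obtain ⟨δ₁, k1⟩ := mkDerR (E := Cov p f) (AddMonoidHom.mk' (⇑δ₁') (map_add δ₁')) (fun a b => by
      show δ₁' (a * b) = a * δ₁' b + b * δ₁' a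
      rw [Derivation.leibniz, smul_eq_mul, smul_eq_mul])
  obtain ⟨δ₂, k2⟩ := mkDerR (E := Cov p f) (AddMonoidHom.mk' (⇑δ₂') (map_add δ₂')) (fun a b => by
      show δ₂' (a * b) = a * δ₂' b + b * δ₂' a
      rw [Derivation.leibniz, smul_eq_mul, smul_eq_mul])
  have l1 : ∀ z, δ₁ z = δ₁' z := k1
  have l2 : ∀ z, δ₂ z = δ₂' z := k2
  have m1 : (⇑δ₁ : Cov p f → Cov p f) = ⇑δ₁' := funext l1
  have m2 : (⇑δ₂ : Cov p f → Cov p f) = ⇑δ₂' := funext l2
  have a1 : δ₁ (xB p f) = 1 := by rw [l1, h1]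
  have a2 : δ₁ (tB p f) = 0 := by rw [l1, h2]
  have a3 : δ₂ (xB p f) = 0 := by rw [l2, h3]
  have a4 : δ₂ (tB p f) = 1 := by rw [l2, h4]
  refine Pool.Agent.K3h4.AS.t_PIC' p (Cov p f) δ₁ δ₂ (xB p f) (tB p f) a1 a2 a3 a4
    (fun z => by rw [l1, l2, l2, l1]; exact h5 z) (by rw [m1]; exact h6) (by rw [m2]; exact h7)
    (fun z => by rw [l1, l2]; exact h8 z) (fun a b hab => ?_) P
  have hi2 : Function.Injective ((algebraMap (Cov p (toInf f)) (FractionRing (Cov p (toInf f)))).comp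
      (mapInf p f)) :=
    (IsFractionRing.injective (Cov p (toInf f)) (FractionRing (Cov p (toInf f)))).comp hinj
  have h9 := push (IsFractionRing.lift hi2 :
    FractionRing (Cov p f) →+* FractionRing (Cov p (toInf f))) hab
  rw [IsFractionRing.lift_algebraMap, IsFractionRing.lift_algebraMap,
      IsFractionRing.lift_algebraMap, IsFractionRing.lift_algebraMap, RingHom.comp_apply,
      RingHom.comp_apply, RingHom.comp_apply, RingHom.comp_apply] at h9
  obtain ⟨c, g, k, e⟩ := br_of_base hok (FractionRing (Cov p (toInf f))) a b h9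
  have e1 := lift_form δ₁ _ _ _ _ _ _ _ e
  have e2 := lift_form δ₂ _ _ _ _ _ _ _ e
  rw [a1, a2] at e1
  rw [a3, a4] at e2
  refine ⟨c, g, k, ?_, ?_⟩
  · linear_combination e1
  · linear_combination e2

end red

end Pool.Agent.K3h46.AS
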