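import Pool.Agent.K3h46.AS.Stm3
import Pool.Agent.K3h46.AS.Main2

/-! # Project AS3: assembly -/

set_option autoImplicit false
set_option linter.all false

open scoped KaehlerDifferential

namespace Pool.Agent.K3h46.AS

/-- The bricks of the project AS3. -/
structure Bricks3 : Prop where
  henp : S_HENP
  lauw : S_LAUW
  facw : S_FACW
  eulw : S_EULW
  monw : S_MONW
  logw : S_LOGW
  poiw : S_POIW
  topw : S_TOPW

section red

variable {p : ℕ} [hp : Fact p.Prime] {F : Type} [Field F]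

/-- the conditions on `f` -/
structure OKW (p : ℕ) (W : Wt) (f : MvPolynomial (Fin 2) F) (a b : F) : Prop where
  dvd : W.d ∣ p - 1
  deg : (toZ W f).natDegree ≤ W.d
  top : (toZ W f).coeff W.d = topW W a b
  ha : a ≠ 0
  hb : b ≠ 0
  irr : Irreducible (Polynomial.C a + Polynomial.C b * Polynomial.X ^ W.g)

theorem Wt.d_pos (W : Wt) : 0 < W.d := by
  unfold Wt.d
  exact Nat.mul_pos (Nat.mul_pos W.hg W.hm) W.hn

theorem OKW.ne {W : Wt} {f : MvPolynomial (Fin 2) F} {a b : F} (h : OKW p W f a b) :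
    (toZ W f).coeff W.d ≠ 0 := by
  rw [h.top]
  unfold topW
  refine mul_ne_zero (pow_ne_zero _ Polynomial.X_ne_zero) h.irr.ne_zero

theorem evz_comp_X0 {κ : Type} [Field κ] (W : Wt) (ι : Polynomial F →+* κ) (z : LaurentSeries κ) :
    ((evz ι z).comp (toZ W)) (MvPolynomial.X 0) = evz ι z (toZ W (MvPolynomial.X 0)) := rfl

/-- The analysis of a form at infinity. -/
theorem closedW (B : Bricks3) [CharP F p] {W : Wt} {f : MvPolynomial (Fin 2) F} {a₀ b₀ : F}
    (hf : OKW p W f a₀ b₀) {κ : Type} [Field κ] [CharP κ p]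
    (ι : Polynomial F →+* κ) (hι : Function.Injective ι) (δ : Derivation ℤ κ κ)
    (hδ : ∀ g, δ (ι g) = ι (Polynomial.derivative g)) (hδp : ∀ z, (⇑δ)^[p] z = 0)
    (z : LaurentSeries κ) (hz : IsPtP p W.d (toZ W f) ι z) (N : ℕ) (hN : 1 ≤ N)
    (a b : MvPolynomial (Fin 2) F) (ha : (toZ W (MvPolynomial.X 0 * a)).natDegree ≤ N)
    (hb : (toZ W (MvPolynomial.X 1 * b)).natDegree ≤ N)
    (h : TrivE p ((evz ι z).comp (toZ W)) a b) : (toZ W (curl a b)).coeff N = 0 := by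
  obtain ⟨θ, Δ, T, D, hs⟩ := exists_ders (p := p) δ hδp
  have cE : CharP (LaurentSeries κ) p := charP_laurent
  obtain ⟨η, hη⟩ := (bricks.gp1 p).1 (LaurentSeries κ) _ h
  obtain ⟨e1, e2, e3⟩ := gp2' bricks.gp2 T D hs.hTp hs.hDp hs.hc _ _ hη
  have hfacts := B.facw p W F f hf.dvd hf.deg hf.ne κ ι hι δ hδ θ Δ hs.hθ hs.hΔ z hz N a b hN ha hb
  obtain ⟨g1, g2⟩ := B.eulw p W F f a b N hN hf.dvd
  rw [GDer.lft_form] at e1 e2 e3
  rw [GDer.lft_form] at e3
  have eT' : T.app = ⇑θ := funext hs.eT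
  have eD' : D.app = ⇑Δ := funext hs.eD
  rw [eT'] at e1 e3
  rw [eD'] at e2 e3
  obtain ⟨h1, h2, h3⟩ := bricks.an3 p W.d N F W.d_pos hf.dvd hN _ (gW W N a b) (jW W N f a b)
    (sW W N a b) hf.ne g1 κ ι hι δ hδ hδp θ Δ hs.hθ hs.hΔ _ _ (T.lft η) (D.lft η) hfacts e1 e2 e3
  have hg : gW W N a b = 0 := by
    rcases lt_trichotomy N W.d with hlt | heq | hgt
    · have h4 := h2 hlt
      rw [hf.top] at h4
      exact B.monw p W F a₀ b₀ hf.ha hf.hb hf.dvd N _ _ hlt g2 h4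
    · have h4 := (h3 heq).1
      rw [hf.top] at h4
      rw [heq] at g2 h4 ⊢
      exact B.logw p W F a₀ b₀ hf.irr hf.hb hf.dvd _ _ g2 h4
    · exact h1 hgt
  rw [← g2, hg, mul_zero]

theorem eq_zero_of_weight {W : Wt} (a : MvPolynomial (Fin 2) F) (i : Fin 2)
    (h : (toZ W (MvPolynomial.X i * a)).natDegree ≤ 0) : a = 0 := by
  rw [toZ_natDegree] at h
  by_contra hne
  obtain ⟨s, hs⟩ := MvPolynomial.support_nonempty.mpr hne
  have h1 : s + Finsupp.single i 1 ∈ (MvPolynomial.X i * a).support := by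
    rw [MvPolynomial.mem_support_iff, mul_comm, MvPolynomial.coeff_mul_X]
    exact MvPolynomial.mem_support_iff.mp hs
  have h2 := h _ h1
  have hm := W.hm
  have hn := W.hn
  fin_cases i
  · simp at h2
    omega
  · simp at h2
    omega

theorem ind_trivW (B : Bricks3) [CharP F p] [PerfectRing F p] {W : Wt} {E : Type} [Field E]
    [CharP E p] (jj : MvPolynomial (Fin 2) F →+* E)
    (H : ∀ N, 1 ≤ N → ∀ a b : MvPolynomial (Fin 2) F,
      (toZ W (MvPolynomial.X 0 * a)).natDegree ≤ N → (toZ W (MvPolynomial.X 1 * b)).natDegree ≤ N →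
      TrivE p jj a b → (toZ W (curl a b)).coeff N = 0) (N : ℕ) :
    ∀ a b : MvPolynomial (Fin 2) F,
      (toZ W (MvPolynomial.X 0 * a)).natDegree ≤ N → (toZ W (MvPolynomial.X 1 * b)).natDegree ≤ N →
      TrivE p jj a b → TrivA p a b := by
  induction N with
  | zero =>
    intro a b ha hb _
    rw [eq_zero_of_weight a 0 ha, eq_zero_of_weight b 1 hb]
    exact ⟨0, 0, 0, by simp [hp.out.ne_zero], by simp [hp.out.ne_zero]⟩
  | succ N ih =>
    intro a b ha hb h
    have hcl := H (N + 1) (by omega) a b ha hb h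
    obtain ⟨c, g, k, e1, e2, e3, e4⟩ := B.poiw p W F N a b ha hb hcl
    have hdata := mem_data (p := p) (F := F) jj c g k
    have htriv : TrivA p (MvPolynomial.pderiv 0 c + g ^ p * MvPolynomial.X 0 ^ (p - 1) - g)
        (MvPolynomial.pderiv 1 c + k ^ p * MvPolynomial.X 1 ^ (p - 1) - k) :=
      ⟨c, g, k, rfl, rfl⟩
    have ea : a = (MvPolynomial.pderiv 0 c + g ^ p * MvPolynomial.X 0 ^ (p - 1) - g) +
        (a - (MvPolynomial.pderiv 0 c + g ^ p * MvPolynomial.X 0 ^ (p - 1)) + g) := by ring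
    have eb : b = (MvPolynomial.pderiv 1 c + k ^ p * MvPolynomial.X 1 ^ (p - 1) - k) +
        (b - (MvPolynomial.pderiv 1 c + k ^ p * MvPolynomial.X 1 ^ (p - 1)) + k) := by ring
    have hrest : TrivE p jj
        (a - (MvPolynomial.pderiv 0 c + g ^ p * MvPolynomial.X 0 ^ (p - 1)) + g)
        (b - (MvPolynomial.pderiv 1 c + k ^ p * MvPolynomial.X 1 ^ (p - 1)) + k) := by
      have ea' : a - (MvPolynomial.pderiv 0 c + g ^ p * MvPolynomial.X 0 ^ (p - 1)) + g =
        a - (MvPolynomial.pderiv 0 c + g ^ p * MvPolynomial.X 0 ^ (p - 1) - g) := by ring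
      have eb' : b - (MvPolynomial.pderiv 1 c + k ^ p * MvPolynomial.X 1 ^ (p - 1)) + k =
        b - (MvPolynomial.pderiv 1 c + k ^ p * MvPolynomial.X 1 ^ (p - 1) - k) := by ring
      unfold TrivE
      rw [ea', eb', map_sub jj a, map_sub jj b, form_sub]
      exact sub_mem h hdata
    have hlow : ∀ (i : Fin 2) (y y' : MvPolynomial (Fin 2) F),
        (toZ W (MvPolynomial.X i * y)).natDegree ≤ N →
        (toZ W (MvPolynomial.X i * y')).natDegree ≤ N →
        (toZ W (MvPolynomial.X i * (y + y'))).natDegree ≤ N := by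
      intro i y y' h1 h2
      rw [mul_add, map_add]
      exact (Polynomial.natDegree_add_le _ _).trans (max_le h1 h2)
    rw [ea, eb]
    exact trivA_add htriv (ih _ _ (hlow 0 _ _ e1 e3) (hlow 1 _ _ e2 e4) hrest)

theorem infTriv_evW (B : Bricks3) [CharP F p] {W : Wt} {f : MvPolynomial (Fin 2) F} {a₀ b₀ : F}
    (hf : OKW p W f a₀ b₀) {a b : MvPolynomial (Fin 2) F}
    (h : InfTriv p f a b) {κ : Type} [Field κ] [CharP κ p] (ι : Polynomial F →+* κ)
    (hι : Function.Injective ι) (z : LaurentSeries κ) (hz : IsPtP p W.d (toZ W f) ι z) :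
    TrivE p ((evz ι z).comp (toZ W)) a b := by
  obtain ⟨L, i1, i2, i3, h⟩ := h
  obtain ⟨J, hJ, hJe⟩ := B.lauw p W F f hf.dvd hf.deg hf.ne κ ι hι z hz
  have h2 := push (IsFractionRing.lift hJ : L →+* LaurentSeries κ) h
  unfold toL at h2
  rw [RingHom.comp_apply, RingHom.comp_apply, RingHom.comp_apply, RingHom.comp_apply,
    RingHom.comp_apply, RingHom.comp_apply, RingHom.comp_apply, RingHom.comp_apply,
    IsFractionRing.lift_algebraMap, IsFractionRing.lift_algebraMap,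
    IsFractionRing.lift_algebraMap, IsFractionRing.lift_algebraMap, hJe, hJe, hJe, hJe] at h2
  exact h2

theorem baseW (B : Bricks3) [CharP F p] [PerfectRing F p] {W : Wt} {f : MvPolynomial (Fin 2) F}
    {a₀ b₀ : F} (hf : OKW p W f a₀ b₀) : BaseOK p f := by
  obtain ⟨κ, iκ, cκ, ι, δ, hι, hδ, hδp⟩ := DerKap.t_KAP p F
  obtain ⟨z, hz⟩ := B.henp p W.d F (toZ W f) W.d_pos hf.dvd hf.deg hf.ne κ ι hι
  have cE : CharP (LaurentSeries κ) p := charP_laurent
  intro a b h
  refine ind_trivW B ((evz ι z).comp (toZ W)) (fun N hN a b ha hb h =>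
    closedW B hf ι hι δ hδ hδp z hz N hN a b ha hb h)
    (max (toZ W (MvPolynomial.X 0 * a)).natDegree (toZ W (MvPolynomial.X 1 * b)).natDegree) a b
    (le_max_left _ _) (le_max_right _ _) (infTriv_evW B hf h ι hι z hz)

theorem isDomainW (B : Bricks3) [CharP F p] {W : Wt} {f : MvPolynomial (Fin 2) F}
    {a₀ b₀ : F} (hf : OKW p W f a₀ b₀) : IsDomain (Cov p (toInf f)) := by
  obtain ⟨κ, iκ, cκ, ι, δ, hι, hδ, hδp⟩ := DerKap.t_KAP p F
  obtain ⟨z, hz⟩ := B.henp p W.d F (toZ W f) W.d_pos hf.dvd hf.deg hf.ne κ ι hι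
  obtain ⟨J, hJ, hJe⟩ := B.lauw p W F f hf.dvd hf.deg hf.ne κ ι hι z hz
  exact hJ.isDomain J

theorem pic_of_base' [CharP F p] [PerfectRing F p]
    {f : MvPolynomial (Fin 2) F} (hdom : IsDomain (Cov p (toInf f)))
    (hok : BaseOK p f) (P : CommRing.Pic (Cov p f)) : ∃ Q : CommRing.Pic (Cov p f), Q ^ p = P := by
  have hinj := mapInf_injective hp.out f
  have hdomB : IsDomain (Cov p f) := hinj.isDomain (mapInf p f)
  have hcB : CharP (Cov p f) p := charP_of_hom ((AdjoinRoot.of (eqn p f)).comp MvPolynomial.C)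
  obtain ⟨δ₁', δ₂', h1, h2, h3, h4, h5, h6, h7, h8⟩ := Pool.Agent.K3h85.AS.t_DB p F f
  obtain ⟨δ₁, k1⟩ := mkDerR (E := Cov p f) (AddMonoidHom.mk' (⇑δ₁') (map_add δ₁')) (fun a b => by
      show δ₁' (a * b) = a * δ₁' b + b * δ₁' a
      rw [Derivation.leibniz, smul_eq_mul, smul_eq_mul])
  obtain ⟨δ₂, k2⟩ := mkDerR (E := Cov p f) (AddMonoidHom.mk' (⇑δ₂') (map_add δ₂')) (fun a b => by
      show δ₂' (a * b) = a * δ₂' b + b * δ₂' a
      rw [Derivation.leibniz, smul_eq_mul, smul_eq_mul])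
  have l1 : ∀ z, δ₁ z = δ₁' z := k1
  have l2 : ∀ z, δ₂ z = δ₂' z := k2
  have m1 : (⇑δ₁ : Cov p f → Cov p f) = ⇑δ₁' := funext l1
  have m2 : (⇑δ₂ : Cov p f → Cov p f) = ⇑δ₂' := funext l2
  have a1 : δ₁ (xB p f) = 1 := by rw [l1, h1]
  have a2 : δ₁ (tB p f) = 0 := by rw [l1, h2]
  have a3 : δ₂ (xB p f) = 0 := by rw [l2, h3]
  have a4 : δ₂ (tB p f) = 1 := by rw [l2, h4]
  refine Pool.Agent.K3h4.AS.t_PIC' p (Cov p f) δ₁ δ₂ (xB p f) (tB p f) a1 a2 a3 a4
    (fun z => by rw [l1, l2, l2, l1]; exact h5 z) (by rw [m1]; exact h6) (by rw [m2]; exact h7)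
    (fun z => by rw [l1, l2]; exact h8 z) (fun a b hab => ?_) P
  have hi2 : Function.Injective ((algebraMap (Cov p (toInf f)) (FractionRing (Cov p (toInf f)))).comp
      (mapInf p f)) :=
    (IsFractionRing.injective (Cov p (toInf f)) (FractionRing (Cov p (toInf f)))).comp hinj
  have h9 := push (IsFractionRing.lift hi2 :
    FractionRing (Cov p f) →+* FractionRing (Cov p (toInf f))) hab
  rw [IsFractionRing.lift_algebraMap, IsFractionRing.lift_algebraMap,
      IsFractionRing.lift_algebraMap, IsFractionRing.lift_algebraMap, RingHom.comp_apply,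
      RingHom.comp_apply, RingHom.comp_apply, RingHom.comp_apply] at h9
  obtain ⟨c, g, k, e⟩ := br_of_base hok (FractionRing (Cov p (toInf f))) a b h9
  have e1 := lift_form δ₁ _ _ _ _ _ _ _ e
  have e2 := lift_form δ₂ _ _ _ _ _ _ _ e
  rw [a1, a2] at e1
  rw [a3, a4] at e2
  refine ⟨c, g, k, ?_, ?_⟩
  · linear_combination e1
  · linear_combination e2

/-- The conclusion for `f = a x ^ M + b t ^ L + `terms below the segment. -/
theorem fineW (B : Bricks3) [CharP F p] [PerfectRing F p] {M L : ℕ} (hM : 0 < M) (hL : 0 < L)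
    (hdvd : Nat.lcm M L ∣ p - 1) (f : MvPolynomial (Fin 2) F)
    (ha : f.coeff (Finsupp.single 0 M) ≠ 0) (hb : f.coeff (Finsupp.single 1 L) ≠ 0)
    (hbelow : ∀ s ∈ f.support, s ≠ Finsupp.single 0 M → s ≠ Finsupp.single 1 L →
      L * s 0 + M * s 1 < M * L)
    (hirr : Irreducible (Polynomial.C (f.coeff (Finsupp.single 0 M)) +
      Polynomial.C (f.coeff (Finsupp.single 1 L)) * Polynomial.X ^ (Nat.gcd M L))) :
    Fine p f := by
  obtain ⟨W, -, -, hg, hd, hW⟩ := B.topw M L hM hL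
  obtain ⟨h1, h2⟩ := hW F f hbelow
  have hf : OKW p W f (f.coeff (Finsupp.single 0 M)) (f.coeff (Finsupp.single 1 L)) :=
    ⟨by rw [hd]; exact hdvd, h1, h2, ha, hb, by rw [hg]; exact hirr⟩
  have hok := baseW B hf
  exact ⟨pic_of_base' (isDomainW B hf) hok, fun L _ _ _ a b h => br_of_base hok L a b h⟩

end red

end Pool.Agent.K3h46.AS
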