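import Mathlib

/-!
# Project AS (MP_bd895b_nt): Artin-Schreier curves `w ^ p - w = f(x, t)` over `F(t)`: statements

`F` is a perfect field of characteristic `p`, `V` the affine surface `w ^ p - w = f(x, t)`.
-/

set_option autoImplicit false

open scoped KaehlerDifferential

namespace Pool.Agent.K3h46.AS

/-! ## Definitions of the statement -/

/-- The polynomial `w ^ p - w - f` in the variable `w`. -/
noncomputable def eqn (p : ℕ) {R : Type} [CommRing R] (f : R) : Polynomial R :=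
  Polynomial.X ^ p - Polynomial.X - Polynomial.C f

/-- The ring `R[w] / (w ^ p - w - f)`. -/
abbrev Cov (p : ℕ) {R : Type} [CommRing R] (f : R) : Type := AdjoinRoot (eqn p f)

theorem eval_root (p : ℕ) {R : Type} [CommRing R] (f : R) :
    AdjoinRoot.root (eqn p f) ^ p - AdjoinRoot.root (eqn p f) = AdjoinRoot.of (eqn p f) f := by
  have h := AdjoinRoot.eval₂_root (eqn p f)
  unfold eqn at h
  rw [Polynomial.eval₂_sub, Polynomial.eval₂_sub, Polynomial.eval₂_X_pow, Polynomial.eval₂_X,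
    Polynomial.eval₂_C, sub_eq_zero] at h
  exact h

theorem eval_eqn (p : ℕ) {R S : Type} [CommRing R] [CommRing S] (f : R) (φ : R →+* S) (w : S)
    (h : w ^ p - w = φ f) : Polynomial.eval₂ φ w (eqn p f) = 0 := by
  unfold eqn
  rw [Polynomial.eval₂_sub, Polynomial.eval₂_sub, Polynomial.eval₂_X_pow, Polynomial.eval₂_X,
    Polynomial.eval₂_C, sub_eq_zero]
  exact h

/-- The homomorphism `R[w] / (w ^ p - w - f) → S[w] / (w ^ p - w - φ f)` given by `φ : R → S` and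
`w ↦ w`. -/
noncomputable def mapCov (p : ℕ) {R S : Type} [CommRing R] [CommRing S] (φ : R →+* S) (f : R) :
    Cov p f →+* Cov p (φ f) :=
  AdjoinRoot.lift ((AdjoinRoot.of (eqn p (φ f))).comp φ) (AdjoinRoot.root (eqn p (φ f)))
    (eval_eqn p f _ _ (eval_root p (φ f)))

section inf

variable {F : Type} [Field F]

/-- The homomorphism `F[x, t] → F((1 / t))[x]`: the completion of `F(t)` at `t = ∞` is the field of
Laurent series in `T = 1 / t`. -/
noncomputable def toInf : MvPolynomial (Fin 2) F →+* Polynomial (LaurentSeries F) :=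
  MvPolynomial.eval₂Hom ((Polynomial.C).comp (HahnSeries.C : F →+* LaurentSeries F))
    ![Polynomial.X, Polynomial.C (HahnSeries.single (-1 : ℤ) (1 : F))]

/-- `h(1, u)` for a polynomial `h(x, t)`. -/
noncomputable def dehom : MvPolynomial (Fin 2) F →+* Polynomial F :=
  MvPolynomial.eval₂Hom Polynomial.C ![1, Polynomial.X]

/-- `f_d(1, u)`, `f_d` the component of degree `d` of `f(x, t)`. -/
noncomputable def lead (d : ℕ) (f : MvPolynomial (Fin 2) F) : Polynomial F :=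
  dehom (MvPolynomial.homogeneousComponent d f)

/-- `φ` is ordinary: for `m < d` there is no polynomial `G ≠ 0` of degree at most `m - 2` such that the
`(p - 1)`-th derivative of `φ ^ (m (p - 1) / d) G` is zero. -/
def IsOrdinary (p d : ℕ) (φ : Polynomial F) : Prop :=
  ∀ m : ℕ, m < d → ∀ G : Polynomial F, G.degree < ((m - 1 : ℕ) : WithBot ℕ) →
    (Polynomial.derivative^[p - 1]) (φ ^ (m * ((p - 1) / d)) * G) = 0 → G = 0

/-- The conditions on `f`: the degree is `d`, and `φ = f_d(1, u)` is irreducible of degree `d` and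
ordinary. -/
structure Good (p d : ℕ) (f : MvPolynomial (Fin 2) F) : Prop where
  deg : f.totalDegree ≤ d
  nat : (lead d f).natDegree = d
  irr : Irreducible (lead d f)
  ord : IsOrdinary p d (lead d f)

end inf

/-- The differential form `a dx + b dt`. -/
noncomputable def form {S : Type} [CommRing S] (x t a b : S) : Ω[S⁄ℤ] :=
  a • KaehlerDifferential.D ℤ S x + b • KaehlerDifferential.D ℤ S t

/-- The exact form `dc`. -/
noncomputable def exact {S : Type} [CommRing S] (c : S) : Ω[S⁄ℤ] := KaehlerDifferential.D ℤ S c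

/-- The subgroup of `Ω[E⁄ℤ]` generated by the exact forms and the forms `(a ^ p - a) db / b`. For a field
`E` of characteristic `p` the quotient is the `p`-torsion of the Brauer group of `E`; the class of
`a db / b` is the class of the cyclic algebra `[a, b)`. -/
noncomputable def Triv (p : ℕ) (E : Type) [Field E] : AddSubgroup (Ω[E⁄ℤ]) :=
  AddSubgroup.closure ({ω | ∃ h : E, ω = KaehlerDifferential.D ℤ E h} ∪
    {ω | ∃ a b : E, b ≠ 0 ∧ ω = ((a ^ p - a) * b⁻¹) • KaehlerDifferential.D ℤ E b})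

/-- `x` and `t` on the surface. -/
noncomputable def xB (p : ℕ) {F : Type} [Field F] (f : MvPolynomial (Fin 2) F) : Cov p f :=
  AdjoinRoot.of (eqn p f) (MvPolynomial.X 0)

noncomputable def tB (p : ℕ) {F : Type} [Field F] (f : MvPolynomial (Fin 2) F) : Cov p f :=
  AdjoinRoot.of (eqn p f) (MvPolynomial.X 1)

/-! ## Bricks -/

/-- JAC: Jacobson's identity. -/
def S_JAC : Prop := ∀ (p : ℕ) [Fact p.Prime] (R : Type) [CommRing R] [CharP R p]
  (δ : Derivation ℤ R R) (a r : R),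
  (fun s : R => δ s + a * s)^[p] r = (⇑δ)^[p] r + (a ^ p + (⇑δ)^[p - 1] a) * r

/-- DER: the derivations `ϖ d/dϖ` and `∂` (coefficientwise) of Laurent series. -/
def S_DER : Prop := ∀ (κ : Type) [Field κ] (δ : Derivation ℤ κ κ),
  ∃ θ Δ : Derivation ℤ (LaurentSeries κ) (LaurentSeries κ),
    (∀ (z : LaurentSeries κ) (n : ℤ), (θ z).coeff n = (n : κ) * z.coeff n) ∧
    (∀ (z : LaurentSeries κ) (n : ℤ), (Δ z).coeff n = δ (z.coeff n))

/-- KAP: a field with a derivation extending the derivation of `F[u]`. -/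
def S_KAP : Prop := ∀ (p : ℕ) [Fact p.Prime] (F : Type) [Field F] [CharP F p],
  ∃ (κ : Type) (_ : Field κ) (_ : CharP κ p) (ι : Polynomial F →+* κ) (δ : Derivation ℤ κ κ),
    Function.Injective ι ∧ (∀ g, δ (ι g) = ι (Polynomial.derivative g)) ∧ ∀ z, (⇑δ)^[p] z = 0

section ev

variable {F κ : Type} [Field F] [Field κ]

/-- The homomorphism `F[x, t] → κ((ϖ))`, `x ↦ x`, `t ↦ u x`. -/
noncomputable def ev (ι : Polynomial F →+* κ) (x : LaurentSeries κ) :
    MvPolynomial (Fin 2) F →+* LaurentSeries κ :=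
  MvPolynomial.eval₂Hom ((HahnSeries.C : κ →+* LaurentSeries κ).comp (ι.comp Polynomial.C))
    ![x, HahnSeries.C (ι Polynomial.X) * x]

/-- The point at infinity: `x = φ ^ (k (p + 1)) ϖ ^ (-p) + …`, `k = (p - 1) / d`, and
`w = φ ^ p ϖ ^ (-d)`, with `w ^ p - w = f(x, u x)`. -/
structure IsPt (p d : ℕ) (f : MvPolynomial (Fin 2) F) (ι : Polynomial F →+* κ)
    (x : LaurentSeries κ) : Prop where
  low : ∀ n : ℤ, n < -(p : ℤ) → x.coeff n = 0
  top : x.coeff (-(p : ℤ)) = ι (lead d f) ^ ((p - 1) / d * (p + 1))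
  eq : ev ι x f = (HahnSeries.single (-(d : ℤ)) (ι (lead d f) ^ p)) ^ p -
    HahnSeries.single (-(d : ℤ)) (ι (lead d f) ^ p)

end ev

/-- HEN: existence of the point (Hensel). -/
def S_HEN : Prop := ∀ (p : ℕ) [Fact p.Prime] (d : ℕ) (F : Type) [Field F] [CharP F p]
  (f : MvPolynomial (Fin 2) F), 0 < d → d ∣ p - 1 → f.totalDegree ≤ d → lead d f ≠ 0 →
  ∀ (κ : Type) [Field κ] [CharP κ p] (ι : Polynomial F →+* κ), Function.Injective ι →
    ∃ x : LaurentSeries κ, IsPt p d f ι x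

/-- LAU: the homomorphism from the coordinate ring over `F((1 / t))`. -/
def S_LAU : Prop := ∀ (p : ℕ) [Fact p.Prime] (d : ℕ) (F : Type) [Field F] [CharP F p]
  (f : MvPolynomial (Fin 2) F), 0 < d → d ∣ p - 1 → lead d f ≠ 0 →
  ∀ (κ : Type) [Field κ] [CharP κ p] (ι : Polynomial F →+* κ), Function.Injective ι →
  ∀ x : LaurentSeries κ, IsPt p d f ι x →
    ∃ J : Cov p (toInf f) →+* LaurentSeries κ, Function.Injective J ∧
      ∀ a : MvPolynomial (Fin 2) F, J (AdjoinRoot.of (eqn p (toInf f)) (toInf a)) = ev ι x a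

/-- EXT: trivial forms. -/
def S_EXT : Prop := ∀ (p : ℕ) [Fact p.Prime] (E : Type) [Field E] [CharP E p]
  (θ D : Derivation ℤ E E), (∀ z, (⇑θ)^[p] z = θ z) → (∀ z, (⇑D)^[p] z = 0) →
  (∀ z, θ (D z) = D (θ z)) → ∀ ω ∈ Triv p E, ∃ η₁ η₂ : E,
    η₁ ^ p = (θ.liftKaehlerDifferential ω + η₁) -
      (⇑θ)^[p - 1] (θ.liftKaehlerDifferential ω + η₁) ∧
    η₂ ^ p = -(⇑D)^[p - 1] (D.liftKaehlerDifferential ω + η₂) ∧
    θ (D.liftKaehlerDifferential ω + η₂) = D (θ.liftKaehlerDifferential ω + η₁)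

section comp

variable {F : Type} [Field F]

/-- The component of degree `n`. -/
noncomputable def hc (n : ℕ) (a : MvPolynomial (Fin 2) F) : MvPolynomial (Fin 2) F :=
  MvPolynomial.homogeneousComponent n a

/-- `g = (∂b_n/∂x - ∂a_n/∂t)(1, u)`. -/
noncomputable def gP (n : ℕ) (a b : MvPolynomial (Fin 2) F) : Polynomial F :=
  dehom (MvPolynomial.pderiv 0 (hc n b) - MvPolynomial.pderiv 1 (hc n a))

/-- `J = (b_n ∂f_d/∂x - a_n ∂f_d/∂t)(1, u)`. -/
noncomputable def jP (d n : ℕ) (f a b : MvPolynomial (Fin 2) F) : Polynomial F :=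
  dehom (hc n b * MvPolynomial.pderiv 0 (hc d f) - hc n a * MvPolynomial.pderiv 1 (hc d f))

/-- `s = a_n(1, u) + u b_n(1, u)`. -/
noncomputable def sP (n : ℕ) (a b : MvPolynomial (Fin 2) F) : Polynomial F :=
  dehom (hc n a) + Polynomial.X * dehom (hc n b)

end comp

/-- EUL: consequences of Euler's identity. -/
def S_EUL : Prop := ∀ (p : ℕ) [Fact p.Prime] (d : ℕ) (F : Type) [Field F] [CharP F p]
  (f a b : MvPolynomial (Fin 2) F) (n : ℕ), 0 < d → d ∣ p - 1 →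
  (gP n a b).degree < (n : WithBot ℕ) ∧
  (gP n a b = 0 → MvPolynomial.pderiv 0 (hc n b) = MvPolynomial.pderiv 1 (hc n a)) ∧
  ((n + 1 : ℕ) : Polynomial F) * (lead d f ^ ((n + 1) * ((p - 1) / d) - 1) * jP d n f a b) =
    (d : Polynomial F) * (lead d f ^ ((n + 1) * ((p - 1) / d)) * gP n a b) +
    (d : Polynomial F) * Polynomial.derivative
      (lead d f ^ ((n + 1) * ((p - 1) / d)) * sP n a b)

/-- The facts on `β₁` and `β₂`: `m = n + 1`. -/
structure Facts {F κ : Type} [Field F] [Field κ] (p d m : ℕ) (φ g J : Polynomial F)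
    (ι : Polynomial F →+* κ) (θ Δ : Derivation ℤ (LaurentSeries κ) (LaurentSeries κ))
    (β₁ β₂ : LaurentSeries κ) : Prop where
  b1 : ∀ i : ℤ, i < -((p : ℤ) * m + d - p * d) → β₁.coeff i = 0
  b2 : ∀ i : ℤ, i < -((p : ℤ) * m) → β₂.coeff i = 0
  b2t : (d : κ) * β₂.coeff (-((p : ℤ) * m)) =
    ι φ ^ ((p - 1) / d * p * m) * ι (φ ^ (m * ((p - 1) / d) - 1) * J)
  b3 : ∀ i : ℤ, i < -((p : ℤ) * m - d * (p - 1)) → (Δ β₁ - θ β₂).coeff i = 0
  b3t : (Δ β₁ - θ β₂).coeff (-((p : ℤ) * m - d * (p - 1))) * ι φ ^ (p ^ 2 - 1) =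
    -(ι φ ^ ((p - 1) / d * (p + 1) * m) * ι φ ^ (p - 1) * ι g)

/-- AN1: the facts hold for `a dx + b dt`. -/
def S_AN1 : Prop := ∀ (p : ℕ) [Fact p.Prime] (d : ℕ) (F : Type) [Field F] [CharP F p]
  (f : MvPolynomial (Fin 2) F), 0 < d → d ∣ p - 1 → f.totalDegree ≤ d → lead d f ≠ 0 →
  ∀ (κ : Type) [Field κ] [CharP κ p] (ι : Polynomial F →+* κ), Function.Injective ι →
  ∀ (δ : Derivation ℤ κ κ), (∀ g, δ (ι g) = ι (Polynomial.derivative g)) →
  ∀ (θ Δ : Derivation ℤ (LaurentSeries κ) (LaurentSeries κ)),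
    (∀ (z : LaurentSeries κ) (n : ℤ), (θ z).coeff n = (n : κ) * z.coeff n) →
    (∀ (z : LaurentSeries κ) (n : ℤ), (Δ z).coeff n = δ (z.coeff n)) →
    (∀ c : F, δ (ι (Polynomial.C c)) = 0) →
  ∀ x : LaurentSeries κ, IsPt p d f ι x →
  ∀ (n : ℕ) (a b : MvPolynomial (Fin 2) F), a.totalDegree ≤ n → b.totalDegree ≤ n →
    Facts p d (n + 1) (lead d f) (gP n a b) (jP d n f a b) ι θ Δ
      (ev ι x a * θ x + ev ι x b * θ (HahnSeries.C (ι Polynomial.X) * x))
      (ev ι x a * Δ x + ev ι x b * Δ (HahnSeries.C (ι Polynomial.X) * x))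

/-- LOG: an irreducible polynomial. -/
def S_LOG : Prop := ∀ (p : ℕ) [Fact p.Prime] (F : Type) [Field F] [CharP F p]
  (φ g : Polynomial F), Irreducible φ → ¬ p ∣ φ.natDegree → 
  g.degree < ((φ.natDegree - 1 : ℕ) : WithBot ℕ) →
  g ^ p + (Polynomial.derivative^[p - 1]) (φ ^ (p - 1) * g) = 0 → g = 0

/-- AN2: the conclusion at infinity. -/
def S_AN2 : Prop := ∀ (p : ℕ) [Fact p.Prime] (d m : ℕ) (F : Type) [Field F] [CharP F p],
  0 < d → d ∣ p - 1 → 1 ≤ m →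
  ∀ (φ g J s : Polynomial F), φ.natDegree = d → Irreducible φ → IsOrdinary p d φ →
  g.degree < ((m - 1 : ℕ) : WithBot ℕ) →
  ((m : ℕ) : Polynomial F) * (φ ^ (m * ((p - 1) / d) - 1) * J) =
    (d : Polynomial F) * (φ ^ (m * ((p - 1) / d)) * g) +
    (d : Polynomial F) * Polynomial.derivative (φ ^ (m * ((p - 1) / d)) * s) →
  ∀ (κ : Type) [Field κ] [CharP κ p] (ι : Polynomial F →+* κ), Function.Injective ι →
  ∀ (δ : Derivation ℤ κ κ), (∀ g, δ (ι g) = ι (Polynomial.derivative g)) →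
    (∀ z, (⇑δ)^[p] z = 0) →
  ∀ (θ Δ : Derivation ℤ (LaurentSeries κ) (LaurentSeries κ)),
    (∀ (z : LaurentSeries κ) (n : ℤ), (θ z).coeff n = (n : κ) * z.coeff n) →
    (∀ (z : LaurentSeries κ) (n : ℤ), (Δ z).coeff n = δ (z.coeff n)) →
  ∀ β₁ β₂ η₁ η₂ : LaurentSeries κ, Facts p d m φ g J ι θ Δ β₁ β₂ →
    η₁ ^ p = (β₁ + η₁) - (⇑θ)^[p - 1] (β₁ + η₁) →
    η₂ ^ p = -(⇑Δ)^[p - 1] (β₂ + η₂) →
    θ (β₂ + η₂) = Δ (β₁ + η₁) → g = 0

/-- POI: closed homogeneous polynomial forms. -/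
def S_POI : Prop := ∀ (p : ℕ) [Fact p.Prime] (F : Type) [Field F] [CharP F p] [PerfectRing F p]
  (n : ℕ) (a b : MvPolynomial (Fin 2) F), a.IsHomogeneous n → b.IsHomogeneous n →
  MvPolynomial.pderiv 0 b = MvPolynomial.pderiv 1 a →
  ∃ c g h : MvPolynomial (Fin 2) F,
    a = MvPolynomial.pderiv 0 c + g ^ p * MvPolynomial.X 0 ^ (p - 1) ∧
    b = MvPolynomial.pderiv 1 c + h ^ p * MvPolynomial.X 1 ^ (p - 1) ∧
    (g = 0 ∨ g.totalDegree < n) ∧ (h = 0 ∨ h.totalDegree < n)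

/-- The form `a dx + b dt` on the plane is `(1 - C)` of a closed form. -/
def TrivA (p : ℕ) {F : Type} [Field F] (a b : MvPolynomial (Fin 2) F) : Prop :=
  ∃ c g h : MvPolynomial (Fin 2) F,
    a = MvPolynomial.pderiv 0 c + g ^ p * MvPolynomial.X 0 ^ (p - 1) - g ∧
    b = MvPolynomial.pderiv 1 c + h ^ p * MvPolynomial.X 1 ^ (p - 1) - h

/-- The form `a dx + b dt` on the surface is `(1 - C)` of a closed form. -/
def TrivB (p : ℕ) {F : Type} [Field F] (f : MvPolynomial (Fin 2) F) (a b : Cov p f) : Prop :=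
  ∃ c g h : Cov p f, form (xB p f) (tB p f) a b = exact c +
    form (xB p f) (tB p f) (g ^ p * xB p f ^ (p - 1) - g) (h ^ p * tB p f ^ (p - 1) - h)

/-- IND: from the plane to the surface. -/
def S_IND : Prop := ∀ (p : ℕ) [Fact p.Prime] (F : Type) [Field F] [CharP F p] [PerfectRing F p]
  (f : MvPolynomial (Fin 2) F) (L : Type) [Field L] (j : Cov p f →+* L) (σ : L →+* L),
  (∀ a : MvPolynomial (Fin 2) F, σ (j (AdjoinRoot.of (eqn p f) a)) = j (AdjoinRoot.of (eqn p f) a)) →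
  σ (j (AdjoinRoot.root (eqn p f))) = j (AdjoinRoot.root (eqn p f)) + 1 →
  (∀ a b : MvPolynomial (Fin 2) F,
    form (j (xB p f)) (j (tB p f)) (j (AdjoinRoot.of (eqn p f) a)) (j (AdjoinRoot.of (eqn p f) b)) ∈
      Triv p L → TrivA p a b) →
  ∀ a b : Cov p f, form (j (xB p f)) (j (tB p f)) (j a) (j b) ∈ Triv p L → TrivB p f a b

/-- DB: the derivations of the surface. -/
def S_DB : Prop := ∀ (p : ℕ) [Fact p.Prime] (F : Type) [Field F] [CharP F p] [PerfectRing F p]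
  (f : MvPolynomial (Fin 2) F),
  ∃ δ₁ δ₂ : Derivation ℤ (Cov p f) (Cov p f),
    δ₁ (xB p f) = 1 ∧ δ₁ (tB p f) = 0 ∧ δ₂ (xB p f) = 0 ∧ δ₂ (tB p f) = 1 ∧
    (∀ z, δ₁ (δ₂ z) = δ₂ (δ₁ z)) ∧ (∀ z, (⇑δ₁)^[p] z = 0) ∧ (∀ z, (⇑δ₂)^[p] z = 0) ∧
    (∀ z, δ₁ z = 0 → δ₂ z = 0 → ∃ y, z = y ^ p)

/-- PIC: Cartier descent for invertible modules. -/
def S_PIC : Prop := ∀ (p : ℕ) [Fact p.Prime] (B : Type) [CommRing B] [IsDomain B] [CharP B p]
  (δ₁ δ₂ : Derivation ℤ B B) (x t : B), δ₁ x = 1 → δ₁ t = 0 → δ₂ x = 0 → δ₂ t = 1 →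
  (∀ z, δ₁ (δ₂ z) = δ₂ (δ₁ z)) → (∀ z, (⇑δ₁)^[p] z = 0) → (∀ z, (⇑δ₂)^[p] z = 0) →
  (∀ z, δ₁ z = 0 → δ₂ z = 0 → ∃ y, z = y ^ p) →
  (∀ a b : B, form (algebraMap B (FractionRing B) x) (algebraMap B (FractionRing B) t)
      (algebraMap B (FractionRing B) a) (algebraMap B (FractionRing B) b) ∈
        Triv p (FractionRing B) →
      ∃ c g h : B, a = δ₁ c + g ^ p * x ^ (p - 1) - g ∧ b = δ₂ c + h ^ p * t ^ (p - 1) - h) →
  ∀ P : CommRing.Pic B, ∃ Q : CommRing.Pic B, Q ^ p = P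

/-- EXA: binomials are ordinary. -/
def S_EXA : Prop := ∀ (p : ℕ) [Fact p.Prime] (d : ℕ) (F : Type) [Field F] [CharP F p] (a b : F),
  0 < d → d ∣ p - 1 → a ≠ 0 → b ≠ 0 →
  IsOrdinary p d (Polynomial.C a + Polynomial.C b * Polynomial.X ^ d)

end Pool.Agent.K3h46.AS
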