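import Pool.Agent.K3h46.AS.Stm2

/-!
# Project AS3 (MP_bd895b_nt): `f = a x ^ M + b t ^ L +` terms below the segment: statements

`F[x, t] ⊂ F[u, z]`, `x = u ^ be z ^ n`, `t = u ^ al z ^ m`, `al n - be m = 1` (so `u = t ^ n / x ^ m`).
-/

set_option autoImplicit false
set_option linter.all false

open scoped KaehlerDifferential

namespace Pool.Agent.K3h46.AS

/-- The weights: `x` has the weight `n`, `t` the weight `m`, and the top part of `f` is
`a x ^ (g m) + b t ^ (g n)` of weight `g m n`. -/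
structure Wt where
  m : ℕ
  n : ℕ
  g : ℕ
  al : ℕ
  be : ℕ
  hm : 0 < m
  hn : 0 < n
  hg : 0 < g
  hab : al * n = be * m + 1

/-- `g m n` -/
def Wt.d (W : Wt) : ℕ := W.g * W.m * W.n

section toZ

variable {F : Type} [Field F]

/-- `F[x, t] → F[u][z]`, `x ↦ u ^ be z ^ n`, `t ↦ u ^ al z ^ m`. -/
noncomputable def toZ (W : Wt) : MvPolynomial (Fin 2) F →+* Polynomial (Polynomial F) :=
  MvPolynomial.eval₂Hom ((Polynomial.C : Polynomial F →+* _).comp Polynomial.C)
    ![Polynomial.C (Polynomial.X ^ W.be) * Polynomial.X ^ W.n,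
      Polynomial.C (Polynomial.X ^ W.al) * Polynomial.X ^ W.m]

theorem toZ_X0 (W : Wt) : toZ W (MvPolynomial.X 0 : MvPolynomial (Fin 2) F) =
    Polynomial.C (Polynomial.X ^ W.be) * Polynomial.X ^ W.n := by simp [toZ]

theorem toZ_X1 (W : Wt) : toZ W (MvPolynomial.X 1 : MvPolynomial (Fin 2) F) =
    Polynomial.C (Polynomial.X ^ W.al) * Polynomial.X ^ W.m := by simp [toZ]

theorem toZ_C (W : Wt) (c : F) : toZ W (MvPolynomial.C c) = Polynomial.C (Polynomial.C c) := by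
  simp [toZ]

theorem toZ_monomial (W : Wt) (s : Fin 2 →₀ ℕ) (c : F) : toZ W (MvPolynomial.monomial s c) =
    Polynomial.monomial (W.n * s 0 + W.m * s 1)
      (Polynomial.monomial (W.be * s 0 + W.al * s 1) c) := by
  have e : MvPolynomial.monomial s c = MvPolynomial.C c *
      (MvPolynomial.X 0 ^ s 0 * MvPolynomial.X 1 ^ s 1) := by
    rw [MvPolynomial.monomial_eq, Finsupp.prod_fintype]
    · rw [Fin.prod_univ_two]
    · intro i; rw [pow_zero]
  rw [e, map_mul, map_mul, map_pow, map_pow, toZ_C, toZ_X0, toZ_X1,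
    ← Polynomial.C_mul_X_pow_eq_monomial, ← Polynomial.C_mul_X_pow_eq_monomial]
  simp only [mul_pow, ← pow_mul, ← Polynomial.C_pow, Polynomial.C_mul, pow_add]
  ring

theorem wt_inj (W : Wt) {s s' : Fin 2 →₀ ℕ} (h1 : W.n * s 0 + W.m * s 1 = W.n * s' 0 + W.m * s' 1)
    (h2 : W.be * s 0 + W.al * s 1 = W.be * s' 0 + W.al * s' 1) : s = s' := by
  have h3 : (s 0 : ℤ) = s' 0 := by
    have e1 : ((W.n : ℤ) * s 0 + W.m * s 1) = W.n * s' 0 + W.m * s' 1 := by exact_mod_cast h1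
    have e2 : ((W.be : ℤ) * s 0 + W.al * s 1) = W.be * s' 0 + W.al * s' 1 := by exact_mod_cast h2
    have e3 : ((W.al : ℤ) * W.n) = W.be * W.m + 1 := by exact_mod_cast W.hab
    linear_combination (W.al : ℤ) * e1 - (W.m : ℤ) * e2 - ((s 0 : ℤ) - s' 0) * e3
  have h4 : (s 1 : ℤ) = s' 1 := by
    have e1 : ((W.n : ℤ) * s 0 + W.m * s 1) = W.n * s' 0 + W.m * s' 1 := by exact_mod_cast h1
    have e2 : ((W.be : ℤ) * s 0 + W.al * s 1) = W.be * s' 0 + W.al * s' 1 := by exact_mod_cast h2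
    have e3 : ((W.al : ℤ) * W.n) = W.be * W.m + 1 := by exact_mod_cast W.hab
    linear_combination (W.n : ℤ) * e2 - (W.be : ℤ) * e1 - ((s 1 : ℤ) - s' 1) * e3
  ext i
  fin_cases i
  · exact_mod_cast h3
  · exact_mod_cast h4

/-- The coefficients of `toZ a`. -/
theorem toZ_coeff (W : Wt) (a : MvPolynomial (Fin 2) F) (s : Fin 2 →₀ ℕ) :
    ((toZ W a).coeff (W.n * s 0 + W.m * s 1)).coeff (W.be * s 0 + W.al * s 1) = a.coeff s := by
  induction a using MvPolynomial.induction_on' with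
  | monomial s' c =>
    rw [toZ_monomial, Polynomial.coeff_monomial, MvPolynomial.coeff_monomial]
    by_cases h : s' = s
    · subst h; simp
    · rw [if_neg h]
      split_ifs with h1
      · rw [Polynomial.coeff_monomial, if_neg]
        exact fun h2 => h (wt_inj W h1 h2)
      · simp
  | add a b ha hb =>
    rw [map_add, Polynomial.coeff_add, Polynomial.coeff_add, ha, hb, MvPolynomial.coeff_add]

theorem toZ_coeff_zero (W : Wt) (a : MvPolynomial (Fin 2) F) (N e : ℕ)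
    (h : ∀ s ∈ a.support, ¬ (W.n * s 0 + W.m * s 1 = N ∧ W.be * s 0 + W.al * s 1 = e)) :
    ((toZ W a).coeff N).coeff e = 0 := by
  rw [a.as_sum, map_sum, Polynomial.finsetSum_coeff, Polynomial.finsetSum_coeff]
  refine Finset.sum_eq_zero fun s hs => ?_
  rw [toZ_monomial, Polynomial.coeff_monomial]
  split_ifs with h1
  · rw [Polynomial.coeff_monomial, if_neg]
    exact fun h2 => h s hs ⟨h1, h2⟩
  · simp

/-- The bound of the weight. -/
theorem toZ_natDegree (W : Wt) (a : MvPolynomial (Fin 2) F) (N : ℕ) :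
    (toZ W a).natDegree ≤ N ↔ ∀ s ∈ a.support, W.n * s 0 + W.m * s 1 ≤ N := by
  constructor
  · intro h s hs
    by_contra hcon
    rw [MvPolynomial.mem_support_iff, ← toZ_coeff W a s] at hs
    have h1 : (toZ W a).coeff (W.n * s 0 + W.m * s 1) = 0 :=
      Polynomial.coeff_eq_zero_of_natDegree_lt (by omega)
    apply hs
    rw [h1, Polynomial.coeff_zero]
  · intro h
    rw [Polynomial.natDegree_le_iff_coeff_eq_zero]
    intro M hM
    ext e
    rw [Polynomial.coeff_zero]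
    refine toZ_coeff_zero W a M e fun s hs h1 => ?_
    have := h s hs
    omega

end toZ

section evz

variable {F κ : Type} [Field F] [Field κ]

/-- `F[u][z] → κ((ϖ))` -/
noncomputable def evz (ι : Polynomial F →+* κ) (z : LaurentSeries κ) :
    Polynomial (Polynomial F) →+* LaurentSeries κ :=
  Polynomial.eval₂RingHom ((HahnSeries.C : κ →+* LaurentSeries κ).comp ι) z

/-- The point at infinity of `w ^ p - w = P(z)`, `P` of degree `d` with leading coefficient `ψ`:
`z = ψ ^ (k (p + 1)) ϖ ^ (-p) + …`, `w = ψ ^ p ϖ ^ (-d)`, `k = (p - 1) / d`. -/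
structure IsPtP (p d : ℕ) (P : Polynomial (Polynomial F)) (ι : Polynomial F →+* κ)
    (z : LaurentSeries κ) : Prop where
  low : ∀ n : ℤ, n < -(p : ℤ) → z.coeff n = 0
  top : z.coeff (-(p : ℤ)) = ι (P.coeff d) ^ ((p - 1) / d * (p + 1))
  eq : evz ι z P = (HahnSeries.single (-(d : ℤ)) (ι (P.coeff d) ^ p)) ^ p -
    HahnSeries.single (-(d : ℤ)) (ι (P.coeff d) ^ p)

end evz

/-- HENP: existence of the point (as `S_HEN`, `Pool.Agent.K3h17.AS.t_HEN`, same proof). -/
def S_HENP : Prop := ∀ (p : ℕ) [Fact p.Prime] (d : ℕ) (F : Type) [Field F] [CharP F p]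
  (P : Polynomial (Polynomial F)), 0 < d → d ∣ p - 1 → P.natDegree ≤ d → P.coeff d ≠ 0 →
  ∀ (κ : Type) [Field κ] [CharP κ p] (ι : Polynomial F →+* κ), Function.Injective ι →
    ∃ z : LaurentSeries κ, IsPtP p d P ι z

/-- LAUW: the homomorphism from the coordinate ring over `F((1 / t))` (as `S_LAU`). -/
def S_LAUW : Prop := ∀ (p : ℕ) [Fact p.Prime] (W : Wt) (F : Type) [Field F] [CharP F p]
  (f : MvPolynomial (Fin 2) F), W.d ∣ p - 1 → (toZ W f).natDegree ≤ W.d → (toZ W f).coeff W.d ≠ 0 →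
  ∀ (κ : Type) [Field κ] [CharP κ p] (ι : Polynomial F →+* κ), Function.Injective ι →
  ∀ z : LaurentSeries κ, IsPtP p W.d (toZ W f) ι z →
    ∃ J : Cov p (toInf f) →+* LaurentSeries κ, Function.Injective J ∧
      ∀ a : MvPolynomial (Fin 2) F, J (AdjoinRoot.of (eqn p (toInf f)) (toInf a)) = evz ι z (toZ W a)

/-- AN1P: orders and leading coefficients of `A dz / z + B du` (as `S_AN1`). -/
def S_AN1P : Prop := ∀ (p : ℕ) [Fact p.Prime] (d : ℕ) (F : Type) [Field F] [CharP F p]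
  (P : Polynomial (Polynomial F)), 0 < d → d ∣ p - 1 → P.natDegree ≤ d → P.coeff d ≠ 0 →
  ∀ (κ : Type) [Field κ] [CharP κ p] (ι : Polynomial F →+* κ), Function.Injective ι →
  ∀ (δ : Derivation ℤ κ κ), (∀ g, δ (ι g) = ι (Polynomial.derivative g)) →
  ∀ (θ Δ : Derivation ℤ (LaurentSeries κ) (LaurentSeries κ)),
    (∀ (z : LaurentSeries κ) (n : ℤ), (θ z).coeff n = (n : κ) * z.coeff n) →
    (∀ (z : LaurentSeries κ) (n : ℤ), (Δ z).coeff n = δ (z.coeff n)) →
  ∀ z : LaurentSeries κ, IsPtP p d P ι z →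
  ∀ (N : ℕ) (A B : Polynomial (Polynomial F)), 1 ≤ N → A.natDegree ≤ N → B.natDegree ≤ N →
    Facts p d N (P.coeff d) ((N : Polynomial F) * B.coeff N - Polynomial.derivative (A.coeff N))
      ((d : Polynomial F) * (P.coeff d * B.coeff N) - A.coeff N * Polynomial.derivative (P.coeff d))
      ι θ Δ (evz ι z A * (θ z / z)) (evz ι z A * (Δ z / z) + evz ι z B)

section tops

variable {F : Type} [Field F]

/-- The coefficient of `z ^ N` in `A`, where `a dx + b dt = A dz / z + B du`. -/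
noncomputable def sW (W : Wt) (N : ℕ) (a b : MvPolynomial (Fin 2) F) : Polynomial F :=
  (toZ W ((W.n : MvPolynomial (Fin 2) F) * (MvPolynomial.X 0 * a) +
    (W.m : MvPolynomial (Fin 2) F) * (MvPolynomial.X 1 * b))).coeff N

/-- The coefficient of `z ^ N` in `B`, where `a dx + b dt = A dz / z + B du`. -/
noncomputable def tW (W : Wt) (N : ℕ) (a b : MvPolynomial (Fin 2) F) : Polynomial F :=
  ((toZ W ((W.be : MvPolynomial (Fin 2) F) * (MvPolynomial.X 0 * a) +
    (W.al : MvPolynomial (Fin 2) F) * (MvPolynomial.X 1 * b))).coeff N).divX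

/-- `g`: the coefficient of `z ^ N (dz / z) du` in the differential of `a dx + b dt`. -/
noncomputable def gW (W : Wt) (N : ℕ) (a b : MvPolynomial (Fin 2) F) : Polynomial F :=
  (N : Polynomial F) * tW W N a b - Polynomial.derivative (sW W N a b)

/-- `J` -/
noncomputable def jW (W : Wt) (N : ℕ) (f a b : MvPolynomial (Fin 2) F) : Polynomial F :=
  (W.d : Polynomial F) * ((toZ W f).coeff W.d * tW W N a b) -
    sW W N a b * Polynomial.derivative ((toZ W f).coeff W.d)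

/-- `x t (∂b/∂x - ∂a/∂t)` -/
noncomputable def curl (a b : MvPolynomial (Fin 2) F) : MvPolynomial (Fin 2) F :=
  MvPolynomial.X 0 * MvPolynomial.X 1 * (MvPolynomial.pderiv 0 b - MvPolynomial.pderiv 1 a)

/-- The top coefficient of `f`: `u ^ (be m g) (a + b u ^ g)`. -/
noncomputable def topW (W : Wt) (a b : F) : Polynomial F :=
  Polynomial.X ^ (W.be * W.m * W.g) * (Polynomial.C a + Polynomial.C b * Polynomial.X ^ W.g)

end tops

/-- FACW: the facts for `a dx + b dt`. -/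
def S_FACW : Prop := ∀ (p : ℕ) [Fact p.Prime] (W : Wt) (F : Type) [Field F] [CharP F p]
  (f : MvPolynomial (Fin 2) F), W.d ∣ p - 1 → (toZ W f).natDegree ≤ W.d → (toZ W f).coeff W.d ≠ 0 →
  ∀ (κ : Type) [Field κ] [CharP κ p] (ι : Polynomial F →+* κ), Function.Injective ι →
  ∀ (δ : Derivation ℤ κ κ), (∀ g, δ (ι g) = ι (Polynomial.derivative g)) →
  ∀ (θ Δ : Derivation ℤ (LaurentSeries κ) (LaurentSeries κ)),
    (∀ (z : LaurentSeries κ) (n : ℤ), (θ z).coeff n = (n : κ) * z.coeff n) →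
    (∀ (z : LaurentSeries κ) (n : ℤ), (Δ z).coeff n = δ (z.coeff n)) →
  ∀ z : LaurentSeries κ, IsPtP p W.d (toZ W f) ι z →
  ∀ (N : ℕ) (a b : MvPolynomial (Fin 2) F), 1 ≤ N →
    (toZ W (MvPolynomial.X 0 * a)).natDegree ≤ N → (toZ W (MvPolynomial.X 1 * b)).natDegree ≤ N →
    Facts p W.d N ((toZ W f).coeff W.d) (gW W N a b) (jW W N f a b) ι θ Δ
      (evz ι z (toZ W a) * θ (evz ι z (toZ W (MvPolynomial.X 0))) +
        evz ι z (toZ W b) * θ (evz ι z (toZ W (MvPolynomial.X 1))))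
      (evz ι z (toZ W a) * Δ (evz ι z (toZ W (MvPolynomial.X 0))) +
        evz ι z (toZ W b) * Δ (evz ι z (toZ W (MvPolynomial.X 1))))

/-- EULW: the identity for AN3, and `u g = ` the coefficient of the curl. -/
def S_EULW : Prop := ∀ (p : ℕ) [Fact p.Prime] (W : Wt) (F : Type) [Field F] [CharP F p]
  (f a b : MvPolynomial (Fin 2) F) (N : ℕ), 1 ≤ N → W.d ∣ p - 1 →
  (N : Polynomial F) * ((toZ W f).coeff W.d ^ (N * ((p - 1) / W.d) - 1) * jW W N f a b) =
    (W.d : Polynomial F) * ((toZ W f).coeff W.d ^ (N * ((p - 1) / W.d)) * gW W N a b) +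
    (W.d : Polynomial F) * Polynomial.derivative
      ((toZ W f).coeff W.d ^ (N * ((p - 1) / W.d)) * sW W N a b) ∧
  Polynomial.X * gW W N a b = (toZ W (curl a b)).coeff N

/-- MONW: forms of weight smaller than `d`. -/
def S_MONW : Prop := ∀ (p : ℕ) [Fact p.Prime] (W : Wt) (F : Type) [Field F] [CharP F p] (a b : F),
  a ≠ 0 → b ≠ 0 → W.d ∣ p - 1 → ∀ (N : ℕ) (h : MvPolynomial (Fin 2) F) (G : Polynomial F), N < W.d →
  Polynomial.X * G = (toZ W (MvPolynomial.X 0 * MvPolynomial.X 1 * h)).coeff N →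
  (Polynomial.derivative^[p - 1]) (topW W a b ^ (N * ((p - 1) / W.d)) * G) = 0 → G = 0

/-- LOGW: forms of weight `d`. -/
def S_LOGW : Prop := ∀ (p : ℕ) [Fact p.Prime] (W : Wt) (F : Type) [Field F] [CharP F p] (a b : F),
  Irreducible (Polynomial.C a + Polynomial.C b * Polynomial.X ^ W.g) → b ≠ 0 → W.d ∣ p - 1 →
  ∀ (h : MvPolynomial (Fin 2) F) (G : Polynomial F),
  Polynomial.X * G = (toZ W (MvPolynomial.X 0 * MvPolynomial.X 1 * h)).coeff W.d →
  G ^ p + (Polynomial.derivative^[p - 1]) (topW W a b ^ (p - 1) * G) = 0 → G = 0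

/-- POIW: closed top part (as `S_POI`). -/
def S_POIW : Prop := ∀ (p : ℕ) [Fact p.Prime] (W : Wt) (F : Type) [Field F] [CharP F p]
  [PerfectRing F p] (N : ℕ) (a b : MvPolynomial (Fin 2) F),
  (toZ W (MvPolynomial.X 0 * a)).natDegree ≤ N + 1 →
  (toZ W (MvPolynomial.X 1 * b)).natDegree ≤ N + 1 → (toZ W (curl a b)).coeff (N + 1) = 0 →
  ∃ c g h : MvPolynomial (Fin 2) F,
    (toZ W (MvPolynomial.X 0 * (a - (MvPolynomial.pderiv 0 c +
      g ^ p * MvPolynomial.X 0 ^ (p - 1))))).natDegree ≤ N ∧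
    (toZ W (MvPolynomial.X 1 * (b - (MvPolynomial.pderiv 1 c +
      h ^ p * MvPolynomial.X 1 ^ (p - 1))))).natDegree ≤ N ∧
    (toZ W (MvPolynomial.X 0 * g)).natDegree ≤ N ∧ (toZ W (MvPolynomial.X 1 * h)).natDegree ≤ N

/-- TOPW: the top coefficient. -/
def S_TOPW : Prop := ∀ (M L : ℕ), 0 < M → 0 < L → ∃ W : Wt, M = W.g * W.m ∧ L = W.g * W.n ∧
  W.g = Nat.gcd M L ∧ W.d = Nat.lcm M L ∧
  ∀ (F : Type) [Field F] (f : MvPolynomial (Fin 2) F),
    (∀ s ∈ f.support, s ≠ Finsupp.single 0 M → s ≠ Finsupp.single 1 L →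
      L * s 0 + M * s 1 < M * L) →
    (toZ W f).natDegree ≤ W.d ∧
    (toZ W f).coeff W.d = topW W (f.coeff (Finsupp.single 0 M)) (f.coeff (Finsupp.single 1 L))

end Pool.Agent.K3h46.AS
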